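import Pool.Agent.MP_d9472f_gt.Defs
import Pool.Agent.Lib.Continuum.Sierpinski
import Mathlib

-- part MP_d9472f_gt.Chain
section

/-!
Maps with small fibres give chain covers; attaching a ray to an arc-like continuum; gluing.
-/

open Set Filter Topology Function

namespace Pool.Agent.MP_d9472f_gt

theorem isChainable_of_small_fibres {M : Type} [MetricSpace M] [CompactSpace M] [ConnectedSpace M]
    (h : ∀ ε : ℝ, 0 < ε → ∃ φ : M → ℝ, Continuous φ ∧ ∀ x y, φ x = φ y → dist x y < ε) :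
    IsChainable M := by
  refine ⟨⟨inferInstance, inferInstance⟩, fun ε hε => ?_⟩
  obtain ⟨φ, hφ, hfib⟩ := h (ε / 2) (by linarith)
  obtain ⟨δ, hδ, hδ'⟩ : ∃ δ : ℝ, 0 < δ ∧ ∀ x y, |φ x - φ y| < δ → dist x y < ε / 2 := by
    let K : Set (M × M) := {p | ε / 2 ≤ dist p.1 p.2}
    have hK : IsCompact K := (isClosed_le continuous_const continuous_dist).isCompact
    rcases K.eq_empty_or_nonempty with hK0 | hK0
    · refine ⟨1, one_pos, fun x y _ => ?_⟩
      by_contra hcon
      have : (x, y) ∈ K := not_lt.mp hcon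
      rw [hK0] at this
      exact this
    · obtain ⟨p, hp, hmin⟩ := hK.exists_isMinOn hK0
        (f := fun p : M × M => |φ p.1 - φ p.2|) (by fun_prop)
      refine ⟨|φ p.1 - φ p.2|, ?_, fun x y hxy => ?_⟩
      · rw [abs_pos, sub_ne_zero]
        intro heq
        exact absurd (hfib _ _ heq) (not_lt.mpr hp)
      · by_contra hcon
        have h1 : (x, y) ∈ K := not_lt.mp hcon
        exact absurd (hmin h1) (not_le.mpr hxy)
  obtain ⟨x0, -, hx0⟩ := isCompact_univ.exists_isMinOn (univ_nonempty (α := M)) hφ.continuousOn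
  obtain ⟨x1, -, hx1⟩ := isCompact_univ.exists_isMaxOn (univ_nonempty (α := M)) hφ.continuousOn
  let ψ : M → ℝ := fun x => (φ x - φ x0) / (δ / 2)
  have hψ : Continuous ψ := by fun_prop
  have hψ0 : ∀ x, 0 ≤ ψ x := fun x =>
    div_nonneg (sub_nonneg.mpr (hx0 (mem_univ x))) (by linarith)
  have hψ1 : ∀ x, ψ x ≤ ψ x1 := fun x =>
    div_le_div_of_nonneg_right (sub_le_sub_right (hx1 (mem_univ x)) _) (by linarith)
  have hψx0 : ψ x0 = 0 := by simp [ψ]
  have hval : ∀ k : ℕ, k ≤ ⌊ψ x1⌋₊ → ∃ x, ψ x = k := by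
    intro k hk
    have h1 : (k : ℝ) ≤ ψ x1 := (Nat.le_floor_iff (hψ0 x1)).mp hk
    exact intermediate_value_univ x0 x1 hψ ⟨by rw [hψx0]; exact Nat.cast_nonneg k, h1⟩
  have hclose : ∀ x y, |ψ x - ψ y| < 2 → dist x y < ε / 2 := by
    intro x y hxy
    apply hδ'
    have h1 : φ x - φ y = (ψ x - ψ y) * (δ / 2) := by
      simp only [ψ]
      field_simp
      ring
    rw [h1, abs_mul, abs_of_pos (show 0 < δ / 2 by linarith)]
    nlinarith
  refine ⟨⌊ψ x1⌋₊ + 1, fun i => ψ ⁻¹' Ioo ((i : ℕ) - 1 / 3 : ℝ) ((i : ℕ) + 4 / 3), ?_, ?_, ?_, ?_⟩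
  · intro i
    exact isOpen_Ioo.preimage hψ
  · intro i j
    constructor
    · rintro ⟨x, ⟨h1, h2⟩, h3, h4⟩
      have h5 : ((i : ℕ) : ℝ) < (j : ℕ) + 2 := by linarith
      have h6 : ((j : ℕ) : ℝ) < (i : ℕ) + 2 := by linarith
      have h7 : (i : ℕ) < (j : ℕ) + 2 := by exact_mod_cast h5
      have h8 : (j : ℕ) < (i : ℕ) + 2 := by exact_mod_cast h6
      rw [abs_le]
      constructor <;> omega
    · intro hij
      rw [abs_le] at hij
      rcases le_total (i : ℕ) (j : ℕ) with h | h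
      · obtain ⟨x, hx⟩ := hval j (Nat.lt_succ_iff.mp j.2)
        have h1 : ((i : ℕ) : ℝ) ≤ (j : ℕ) := by exact_mod_cast h
        have h2 : (j : ℕ) ≤ (i : ℕ) + 1 := by omega
        have h3 : ((j : ℕ) : ℝ) ≤ (i : ℕ) + 1 := by exact_mod_cast h2
        refine ⟨x, ⟨?_, ?_⟩, ?_, ?_⟩ <;> rw [hx] <;> linarith
      · obtain ⟨x, hx⟩ := hval i (Nat.lt_succ_iff.mp i.2)
        have h1 : ((j : ℕ) : ℝ) ≤ (i : ℕ) := by exact_mod_cast h
        have h2 : (i : ℕ) ≤ (j : ℕ) + 1 := by omega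
        have h3 : ((i : ℕ) : ℝ) ≤ (j : ℕ) + 1 := by exact_mod_cast h2
        refine ⟨x, ⟨?_, ?_⟩, ?_, ?_⟩ <;> rw [hx] <;> linarith
  · intro i
    refine lt_of_le_of_lt (Metric.diam_le_of_forall_dist_le (C := ε / 2) (by linarith) ?_)
      (by linarith)
    rintro x ⟨h1, h2⟩ y ⟨h3, h4⟩
    refine (hclose x y ?_).le
    rw [abs_lt]
    constructor <;> linarith
  · rw [eq_univ_iff_forall]
    intro x
    refine mem_iUnion.mpr ⟨⟨⌊ψ x⌋₊, Nat.lt_succ_of_le (Nat.floor_mono (hψ1 x))⟩, ?_, ?_⟩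
    · have := Nat.floor_le (hψ0 x)
      simp only
      linarith
    · have := Nat.lt_floor_add_one (ψ x)
      simp only
      linarith

section Ray

variable {S : Type} [MetricSpace S]

/-- The graph of `B` over `[1, ∞)`, with second coordinate `1 / t`, together with `S × {0}`. -/
def Ray (B : ℝ → S) : Set (S × ℝ) :=
  {p | 0 ≤ p.2 ∧ p.2 ≤ 1 ∧ (0 < p.2 → p.1 = B p.2⁻¹)}

/-- The copy of `S` at the bottom. -/
def base (B : ℝ → S) (s : S) : Ray B := ⟨(s, 0), le_rfl, zero_le_one, fun h => absurd h (lt_irrefl _)⟩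

/-- The parametrisation of the attached ray. -/
noncomputable def ray (B : ℝ → S) (t : ℝ) : Ray B :=
  ⟨(B (max 1 t), (max 1 t)⁻¹), inv_nonneg.mpr (zero_le_one.trans (le_max_left _ _)),
    inv_le_one_of_one_le₀ (le_max_left _ _), fun _ => by simp⟩

theorem continuous_base (B : ℝ → S) : Continuous (base B) :=
  Continuous.subtype_mk (by fun_prop) _

theorem continuous_ray {B : ℝ → S} (hB : Continuous B) : Continuous (ray B) := by
  refine Continuous.subtype_mk (Continuous.prodMk (by fun_prop) ?_) _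
  refine Continuous.inv₀ (by fun_prop) fun t => ?_
  exact (zero_lt_one.trans_le (le_max_left _ _)).ne'

omit [MetricSpace S] in
theorem base_or_ray {B : ℝ → S} (z : Ray B) : (∃ s, z = base B s) ∨ ∃ t, 1 ≤ t ∧ z = ray B t := by
  obtain ⟨⟨s, a⟩, h0, h1, h2⟩ := z
  simp only at h0 h1 h2
  rcases h0.eq_or_lt with rfl | hpos
  · exact Or.inl ⟨s, rfl⟩
  · right
    have h3 : 1 ≤ a⁻¹ := (one_le_inv₀ hpos).mpr h1
    refine ⟨a⁻¹, h3, Subtype.ext ?_⟩
    simp [ray, max_eq_right h3, h2 hpos]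

theorem isClosed_Ray {B : ℝ → S} (hB : Continuous B) : IsClosed (Ray B) := by
  have h1 : IsOpen {p : S × ℝ | 0 < p.2} := isOpen_lt continuous_const continuous_snd
  have h2 : ContinuousOn (fun p : S × ℝ => dist p.1 (B p.2⁻¹)) {p : S × ℝ | 0 < p.2} := by
    refine continuous_dist.comp_continuousOn (ContinuousOn.prodMk continuousOn_fst ?_)
    refine hB.comp_continuousOn (ContinuousOn.inv₀ continuousOn_snd fun p hp => ?_)
    exact ne_of_gt hp
  have h3 := h2.isOpen_inter_preimage h1 (isOpen_compl_singleton (x := (0 : ℝ)))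
  have h4 : Ray B = {p : S × ℝ | 0 ≤ p.2} ∩ ({p : S × ℝ | p.2 ≤ 1} ∩
      ({p : S × ℝ | 0 < p.2} ∩ (fun p : S × ℝ => dist p.1 (B p.2⁻¹)) ⁻¹' {0}ᶜ)ᶜ) := by
    ext p
    simp [Ray]
  rw [h4]
  exact (isClosed_le continuous_const continuous_snd).inter
    ((isClosed_le continuous_snd continuous_const).inter h3.isClosed_compl)

theorem compactSpace_Ray [CompactSpace S] {B : ℝ → S} (hB : Continuous B) :
    CompactSpace (Ray B) := by
  rw [← isCompact_iff_compactSpace]
  refine (isCompact_univ.prod (isCompact_Icc (a := (0 : ℝ)) (b := 1))).of_isClosed_subset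
    (isClosed_Ray hB) ?_
  rintro p ⟨h0, h1, _⟩
  exact ⟨mem_univ _, h0, h1⟩

theorem cluster_ray {B : ℝ → S} {z : Ray B} (hz : MapClusterPt z atTop (ray B)) :
    ∃ s, z = base B s ∧ MapClusterPt s atTop B := by
  have h1 : MapClusterPt z.1.2 atTop ((fun z : Ray B => z.1.2) ∘ ray B) :=
    hz.continuousAt_comp (f := fun z : Ray B => z.1.2) (by fun_prop)
  have h2 : Tendsto ((fun z : Ray B => z.1.2) ∘ ray B) atTop (𝓝 0) :=
    tendsto_inv_atTop_zero.comp (tendsto_atTop_mono (fun t => le_max_right 1 t) tendsto_id)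
  have h3 : z.1.2 = 0 := eq_of_nhds_neBot (h1.clusterPt.mono h2)
  have h4 : MapClusterPt z.1.1 atTop ((fun z : Ray B => z.1.1) ∘ ray B) :=
    hz.continuousAt_comp (f := fun z : Ray B => z.1.1) (by fun_prop)
  refine ⟨z.1.1, Subtype.ext (Prod.ext rfl h3), ?_⟩
  refine (Filter.EventuallyEq.mapClusterPt_iff ?_).mp h4
  filter_upwards [eventually_ge_atTop 1] with t ht
  simp [ray, max_eq_right ht]

theorem cluster_ray_of_hits {B : ℝ → S} {e : S} (he : ∀ M, ∃ T, M ≤ T ∧ B T = e) :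
    MapClusterPt (base B e) atTop (ray B) := by
  rw [mapClusterPt_iff_frequently]
  intro V hV
  obtain ⟨δ, hδ, hb⟩ := Metric.mem_nhds_iff.mp hV
  rw [frequently_atTop]
  intro M
  obtain ⟨T, hT, hT'⟩ := he (max M (max 1 (δ⁻¹ + 1)))
  have h1 : 1 ≤ T := (le_max_left _ _).trans ((le_max_right _ _).trans hT)
  have h2 : δ⁻¹ + 1 ≤ T := (le_max_right _ _).trans ((le_max_right _ _).trans hT)
  refine ⟨T, (le_max_left _ _).trans hT, hb ?_⟩
  rw [Metric.mem_ball, Subtype.dist_eq, Prod.dist_eq]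
  simp only [ray, base, max_eq_right h1, hT', dist_self, Real.dist_eq, sub_zero]
  have h3 : T⁻¹ < δ := by
    rw [inv_lt_comm₀ (by linarith) hδ]
    linarith
  rw [abs_of_pos (inv_pos.mpr (by linarith))]
  exact max_lt hδ h3

theorem connectedSpace_Ray [CompactSpace S] [ConnectedSpace S] {B : ℝ → S} (hB : Continuous B) :
    ConnectedSpace (Ray B) := by
  have := compactSpace_Ray hB
  obtain ⟨z, hz⟩ := exists_clusterPt_of_compactSpace (map (ray B) atTop)
  have hz' : MapClusterPt z atTop (ray B) := hz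
  obtain ⟨s, hs, -⟩ := cluster_ray hz'
  have h1 : z ∈ closure (range (ray B)) :=
    isClosed_closure.mem_of_mapClusterPt hz'
      (Eventually.of_forall fun t => subset_closure (mem_range_self t))
  have h2 : IsPreconnected (range (base B) ∪ closure (range (ray B))) :=
    IsPreconnected.union z ⟨s, hs.symm⟩ h1 (isPreconnected_range (continuous_base B))
      (isPreconnected_range (continuous_ray hB)).closure
  have h3 : range (base B) ∪ closure (range (ray B)) = univ := by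
    rw [eq_univ_iff_forall]
    intro w
    rcases base_or_ray w with ⟨s, rfl⟩ | ⟨t, -, rfl⟩
    · exact Or.inl (mem_range_self s)
    · exact Or.inr (subset_closure (mem_range_self t))
  rw [h3] at h2
  have : PreconnectedSpace (Ray B) := ⟨h2⟩
  exact ⟨⟨z⟩⟩

/-- There are real functions with arbitrarily small fibres, minimal at `e₀` and maximal at `e₁`. -/
def ArcLike (S : Type) [MetricSpace S] (e₀ e₁ : S) : Prop :=
  ∀ ε : ℝ, 0 < ε → ∃ φ : S → ℝ, Continuous φ ∧ (∀ x y, φ x = φ y → dist x y < ε) ∧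
    (∀ x, φ e₀ ≤ φ x) ∧ ∀ x, φ x ≤ φ e₁

theorem ArcLike.symm {e₀ e₁ : S} (h : ArcLike S e₀ e₁) : ArcLike S e₁ e₀ := by
  intro ε hε
  obtain ⟨φ, h1, h2, h3, h4⟩ := h ε hε
  exact ⟨fun x => -φ x, h1.neg, fun x y hxy => h2 x y (neg_injective hxy),
    fun x => neg_le_neg (h4 x), fun x => neg_le_neg (h3 x)⟩

theorem ArcLike.ray {e₀ e₁ : S} (h : ArcLike S e₀ e₁) {B : ℝ → S}
    (he : ∀ M, ∃ T, M ≤ T ∧ B T = e₁) : ArcLike (Ray B) (base B e₀) (ray B 1) := by
  intro ε hε
  obtain ⟨φ, h1, h2, h3, h4⟩ := h ε hε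
  obtain ⟨T, hT, hT'⟩ := he (max 2 (ε⁻¹ + 1))
  have hT1 : 2 ≤ T := (le_max_left _ _).trans hT
  have hT2 : ε⁻¹ + 1 ≤ T := (le_max_right _ _).trans hT
  have hT3 : T⁻¹ < ε := by
    rw [inv_lt_comm₀ (by linarith) hε]
    linarith
  have hT4 : 0 < T⁻¹ := inv_pos.mpr (by linarith)
  have hT5 : T⁻¹ < 1 := inv_lt_one_of_one_lt₀ (by linarith)
  refine ⟨fun p => if p.1.2 ≤ T⁻¹ then φ p.1.1 else φ e₁ + (p.1.2 - T⁻¹), ?_, ?_, ?_, ?_⟩
  · refine Continuous.if_le (by fun_prop) (by fun_prop) (by fun_prop) continuous_const ?_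
    intro p hp
    have h5 := p.2.2.2 (hp ▸ hT4)
    rw [h5, hp, inv_inv, hT']
    ring
  · intro p q hpq
    simp only at hpq
    split_ifs at hpq with hp hq hq
    · rw [Subtype.dist_eq, Prod.dist_eq, Real.dist_eq]
      refine max_lt (h2 _ _ hpq) ?_
      rw [abs_lt]
      constructor <;> linarith [p.2.1, q.2.1]
    · linarith [h4 p.1.1, not_le.mp hq]
    · linarith [h4 q.1.1, not_le.mp hp]
    · have h5 : p.1.2 = q.1.2 := by linarith
      have h6 := p.2.2.2 (hT4.trans (not_le.mp hp))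
      have h7 := q.2.2.2 (hT4.trans (not_le.mp hq))
      have : p = q := Subtype.ext (Prod.ext (by rw [h6, h7, h5]) h5)
      rw [this, dist_self]
      exact hε
  · intro p
    have h5 : (base B e₀).1.2 ≤ T⁻¹ := hT4.le
    simp only [if_pos h5]
    have h6 : (base B e₀).1.1 = e₀ := rfl
    rw [h6]
    split_ifs with hp
    · exact h3 _
    · linarith [h3 e₁, not_le.mp hp]
  · intro p
    have h5 : (MP_d9472f_gt.ray B 1).1.2 = 1 := by simp [MP_d9472f_gt.ray]
    simp only [h5, if_neg (not_le.mpr hT5)]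
    split_ifs with hp
    · linarith [h4 p.1.1]
    · linarith [p.2.2.1]

theorem ArcLike.isChainable [CompactSpace S] [ConnectedSpace S] {e₀ e₁ : S}
    (h : ArcLike S e₀ e₁) : IsChainable S :=
  isChainable_of_small_fibres fun ε hε => by
    obtain ⟨φ, h1, h2, -⟩ := h ε hε
    exact ⟨φ, h1, h2⟩

end Ray

section Glue

theorem exists_glue_one {Z V : Type} [TopologicalSpace Z] [NormedAddCommGroup V] [NormedSpace ℝ V]
    {ι : Z → V} (hι : Continuous ι) (p q : Z) :
    ∃ G : Z → V × ℝ, Continuous G ∧ G p = G q ∧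
      ∀ z w, G z = G w → ι z = ι w ∨ ((ι z = ι p ∨ ι z = ι q) ∧ (ι w = ι p ∨ ι w = ι q)) := by
  let d : Z → ℝ := fun z => dist (ι z) (ι p) * dist (ι z) (ι q)
  have hd : Continuous d := by fun_prop
  refine ⟨fun z => (d z • ι z, d z), by fun_prop, by simp [d], fun z w hzw => ?_⟩
  have h1 : d z = d w := congrArg Prod.snd hzw
  have h2 : d z • ι z = d w • ι w := congrArg Prod.fst hzw
  by_cases h0 : d z = 0
  · right
    have h3 : d w = 0 := h1 ▸ h0
    simp only [d, mul_eq_zero, dist_eq_zero] at h0 h3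
    exact ⟨h0, h3⟩
  · left
    rw [← h1] at h2
    exact smul_right_injective V h0 h2

theorem exists_glue_two {Z V : Type} [TopologicalSpace Z] [NormedAddCommGroup V] [NormedSpace ℝ V]
    {ι : Z → V} (hι : Continuous ι) (hi : Injective ι) {p p' q q' : Z}
    (h1 : q ≠ p) (h2 : q ≠ p') (h3 : q' ≠ p) (h4 : q' ≠ p') :
    ∃ (Y : Type) (_ : MetricSpace Y) (G : Z → Y), Continuous G ∧ Surjective G ∧
      G p = G p' ∧ G q = G q' ∧
      ∀ z w, G z = G w → z = w ∨ ((z = p ∨ z = p') ∧ (w = p ∨ w = p')) ∨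
        ((z = q ∨ z = q') ∧ (w = q ∨ w = q')) := by
  obtain ⟨G₁, hc₁, he₁, hf₁⟩ := exists_glue_one hι p p'
  simp only [hi.eq_iff] at hf₁
  obtain ⟨G₂', hc₂', he₂', hf₂'⟩ :=
    exists_glue_one (ι := (id : V × ℝ → V × ℝ)) continuous_id (G₁ q) (G₁ q')
  simp only [id] at hf₂'
  have key : ∀ z, (G₁ z = G₁ q ∨ G₁ z = G₁ q') → (z = q ∨ z = q') := by
    rintro z (h | h)
    · rcases hf₁ _ _ h with h' | ⟨-, h' | h'⟩
      · exact Or.inl h'
      · exact absurd h' h1
      · exact absurd h' h2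
    · rcases hf₁ _ _ h with h' | ⟨-, h' | h'⟩
      · exact Or.inr h'
      · exact absurd h' h3
      · exact absurd h' h4
  refine ⟨range (G₂' ∘ G₁), inferInstance, rangeFactorization (G₂' ∘ G₁),
    (hc₂'.comp hc₁).rangeFactorization, rangeFactorization_surjective, ?_, ?_, ?_⟩
  · exact Subtype.ext (congrArg G₂' he₁)
  · exact Subtype.ext he₂'
  · intro z w hzw
    have h5 : G₂' (G₁ z) = G₂' (G₁ w) := congrArg Subtype.val hzw
    rcases hf₂' _ _ h5 with h | ⟨h, h'⟩
    · rcases hf₁ _ _ h with h' | h'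
      · exact Or.inl h'
      · exact Or.inr (Or.inl h')
    · exact Or.inr (Or.inr ⟨key z h, key w h'⟩)

end Glue

end Pool.Agent.MP_d9472f_gt

end

-- part MP_d9472f_gt.Lift
section

/-!
Path lifting through a continuous injection of the line that converges at neither end.
-/

open Set Filter Topology Function

namespace Pool.Agent.MP_d9472f_gt

variable {Y : Type*} [TopologicalSpace Y] [T2Space Y]

theorem tendsto_of_bounded {h : ℝ → Y} (hc : Continuous h) (hi : Injective h) {τ : ℝ → ℝ}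
    (hγ : Continuous (h ∘ τ)) {x M : ℝ} {l : Filter ℝ} (hl : l ≤ 𝓝 x)
    (hb : ∀ᶠ y in l, |τ y| ≤ M) : Tendsto τ l (𝓝 (τ x)) := by
  refine (isCompact_Icc (a := -M) (b := M)).tendsto_nhds_of_unique_mapClusterPt
    (hb.mono fun y hy => abs_le.mp hy) ?_
  intro y' _ hy'
  have h1 : MapClusterPt (h y') l (h ∘ τ) := hy'.continuousAt_comp hc.continuousAt
  have h2 : Tendsto (h ∘ τ) l (𝓝 (h (τ x))) := (hγ.tendsto x).mono_left hl
  exact hi (eq_of_nhds_neBot (h1.clusterPt.mono h2))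

omit [T2Space Y] in
theorem bddAbove_Ioc {h : ℝ → Y} (htop : ∀ y, ¬ Tendsto h atTop (𝓝 y)) {τ : ℝ → ℝ}
    (hγ : Continuous (h ∘ τ)) {a y : ℝ} (hay : a < y) (hτ : ContinuousOn τ (Ioc a y)) :
    ∃ M, ∀ t ∈ Ioc a y, τ t ≤ M := by
  by_contra hno
  push Not at hno
  apply htop (h (τ a))
  intro V hV
  have h1 : (h ∘ τ) ⁻¹' V ∈ 𝓝 a := hγ.continuousAt hV
  obtain ⟨δ, hδ, hball⟩ := Metric.mem_nhds_iff.mp h1
  set c := min y (a + δ / 2) with hcdef
  have hac : a < c := lt_min hay (by linarith)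
  have hcy : c ≤ y := min_le_left _ _
  have hcδ : c ≤ a + δ / 2 := min_le_right _ _
  obtain ⟨M, hM⟩ := (isCompact_Icc (a := c) (b := y)).bddAbove_image
    (hτ.mono fun t ht => ⟨hac.trans_le ht.1, ht.2⟩)
  rw [mem_map, mem_atTop_sets]
  refine ⟨τ c, fun s hs => ?_⟩
  obtain ⟨t1, ht1, ht1'⟩ := hno (max s M)
  have ht1c : t1 < c := by
    by_contra hcon
    push Not at hcon
    have : τ t1 ≤ M := hM ⟨t1, ⟨hcon, ht1.2⟩, rfl⟩
    linarith [le_max_right s M]
  have hcont : ContinuousOn τ (Icc t1 c) :=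
    hτ.mono fun t ht => ⟨ht1.1.trans_le ht.1, ht.2.trans hcy⟩
  obtain ⟨t, ht, hts⟩ := intermediate_value_Icc' ht1c.le hcont
    (show s ∈ Icc (τ c) (τ t1) from ⟨hs, by linarith [le_max_left s M]⟩)
  have : t ∈ Metric.ball a δ := by
    rw [Metric.mem_ball, Real.dist_eq, abs_lt]
    constructor <;> linarith [ht.1, ht.2, ht1.1]
  have h3 := hball this
  rw [mem_preimage, comp_apply, hts] at h3
  exact h3

theorem continuousOn_Icc_of_Ioc {h : ℝ → Y} (hc : Continuous h) (hi : Injective h)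
    (htop : ∀ y, ¬ Tendsto h atTop (𝓝 y)) (hbot : ∀ y, ¬ Tendsto h atBot (𝓝 y)) {τ : ℝ → ℝ}
    (hγ : Continuous (h ∘ τ)) {a y : ℝ} (hay : a < y) (hτ : ContinuousOn τ (Ioc a y)) :
    ContinuousOn τ (Icc a y) := by
  obtain ⟨M, hM⟩ := bddAbove_Ioc htop hγ hay hτ
  have htop' : ∀ z, ¬ Tendsto (fun s => h (-s)) atTop (𝓝 z) := by
    intro z hz
    apply hbot z
    have := hz.comp tendsto_neg_atBot_atTop
    simpa [Function.comp_def] using this
  have hγ' : Continuous ((fun s => h (-s)) ∘ fun t => -τ t) := by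
    simpa [Function.comp_def] using hγ
  obtain ⟨M', hM'⟩ := bddAbove_Ioc htop' hγ' hay hτ.neg
  intro x hx
  refine tendsto_of_bounded hc hi hγ (M := max (max M M') |τ a|) nhdsWithin_le_nhds ?_
  filter_upwards [self_mem_nhdsWithin] with t ht
  rcases ht.1.eq_or_lt with rfl | hlt
  · exact le_max_right _ _
  · refine le_trans ?_ (le_max_left _ _)
    rw [abs_le]
    have h1 := hM t ⟨hlt, ht.2⟩
    have h2 := hM' t ⟨hlt, ht.2⟩
    constructor
    · linarith [le_max_right M M']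
    · linarith [le_max_left M M']

theorem lift_side {h : ℝ → Y} (hc : Continuous h) (hi : Injective h)
    (htop : ∀ y, ¬ Tendsto h atTop (𝓝 y)) (hbot : ∀ y, ¬ Tendsto h atBot (𝓝 y)) {τ : ℝ → ℝ}
    (hγ : Continuous (h ∘ τ)) {F : Set ℝ} (hF : IsClosed F) (hFc : ∀ z ∉ F, ContinuousAt τ z)
    {x y M : ℝ} (hx : x ∈ F) (hxy : x ≤ y) (hb : ∀ z ∈ F, z ∈ Icc x y → |τ z| < M)
    (hne : ∀ z ∈ Icc x y, |τ z| ≠ M) : |τ y| < M := by
  have hK : IsCompact (F ∩ Icc x y) := isCompact_Icc.inter_left hF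
  obtain ⟨a, ha, hmax⟩ := hK.exists_isGreatest ⟨x, hx, le_rfl, hxy⟩
  rcases ha.2.2.eq_or_lt with rfl | hay
  · exact hb _ ha.1 ha.2
  have hτ : ContinuousOn τ (Ioc a y) := by
    intro t ht
    refine (hFc t fun htF => ?_).continuousWithinAt
    have : t ≤ a := hmax ⟨htF, ha.2.1.trans ht.1.le, ht.2⟩
    linarith [ht.1]
  have hτ' := continuousOn_Icc_of_Ioc hc hi htop hbot hγ hay hτ
  by_contra hcon
  push Not at hcon
  obtain ⟨t, ht, hts⟩ := intermediate_value_Icc hay.le hτ'.abs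
    (show M ∈ Icc (|τ a|) (|τ y|) from ⟨(hb a ha.1 ha.2).le, hcon⟩)
  exact hne t ⟨ha.2.1.trans ht.1, ht.2⟩ hts

/-- Every path in the image of `h` lifts continuously through `h`. -/
theorem lift_continuous {h : ℝ → Y} (hc : Continuous h) (hi : Injective h)
    (htop : ∀ y, ¬ Tendsto h atTop (𝓝 y)) (hbot : ∀ y, ¬ Tendsto h atBot (𝓝 y)) {τ : ℝ → ℝ}
    (hγ : Continuous (h ∘ τ)) : Continuous τ := by
  let O : Set ℝ := {x | ∃ n : ℕ, ∀ᶠ y in 𝓝 x, |τ y| ≤ n}
  have hO : IsOpen O := by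
    rw [isOpen_iff_mem_nhds]
    rintro x ⟨n, hn⟩
    filter_upwards [hn.eventually_nhds] with y hy
    exact ⟨n, hy⟩
  have hOc : ∀ z ∉ Oᶜ, ContinuousAt τ z := by
    intro z hz
    obtain ⟨n, hn⟩ : z ∈ O := not_not.mp hz
    exact tendsto_of_bounded hc hi hγ le_rfl hn
  have hF : IsClosed Oᶜ := hO.isClosed_compl
  rw [continuous_iff_continuousAt]
  by_contra hcon
  push Not at hcon
  obtain ⟨x0, hx0⟩ := hcon
  have hne : Nonempty (Oᶜ : Set ℝ) := ⟨⟨x0, by
    by_contra h'
    exact hx0 (hOc x0 h')⟩⟩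
  have : CompleteSpace (Oᶜ : Set ℝ) := hF.completeSpace_coe
  have hcl : ∀ n : ℕ, IsClosed {z : (Oᶜ : Set ℝ) | |τ z| ≤ n} := by
    intro n
    have h1 : IsClosed (h '' Icc (-(n : ℝ)) n) := (isCompact_Icc.image hc).isClosed
    have h2 := h1.preimage (hγ.comp (continuous_subtype_val (p := fun z => z ∈ Oᶜ)))
    convert h2 using 1
    ext z
    simp only [mem_ofPred_eq, mem_preimage, comp_apply, hi.mem_set_image, mem_Icc, abs_le]
  have hcov : ⋃ n : ℕ, {z : (Oᶜ : Set ℝ) | |τ z| ≤ n} = univ := by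
    rw [eq_univ_iff_forall]
    intro z
    obtain ⟨n, hn⟩ := exists_nat_ge |τ z|
    exact mem_iUnion.mpr ⟨n, hn⟩
  obtain ⟨n, x, hx⟩ := nonempty_interior_of_iUnion_of_closed hcl hcov
  rw [mem_interior_iff_mem_nhds] at hx
  obtain ⟨δ1, hδ1, hb1⟩ := Metric.mem_nhds_iff.mp hx
  have hxn : |τ x| ≤ n := hb1 (Metric.mem_ball_self hδ1)
  have hcl2 : IsClosed ({h (n + 1), h (-(n + 1))} : Set Y) := (toFinite _).isClosed
  have hx2 : (h ∘ τ) x ∈ ({h (n + 1), h (-(n + 1))} : Set Y)ᶜ := by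
    intro hmem
    rcases hmem with h1 | h1
    · have := hi h1
      rw [this, abs_le] at hxn
      linarith [hxn.2]
    · have := hi h1
      rw [this, abs_le] at hxn
      linarith [hxn.1]
  obtain ⟨δ2, hδ2, hb2⟩ := Metric.mem_nhds_iff.mp
    (hγ.continuousAt (hcl2.isOpen_compl.mem_nhds hx2))
  have hb : ∀ z ∈ Oᶜ, |z - x| < min δ1 δ2 → |τ z| < n + 1 := by
    intro z hz hzx
    have : (⟨z, hz⟩ : (Oᶜ : Set ℝ)) ∈ Metric.ball x δ1 := by
      rw [Metric.mem_ball, Subtype.dist_eq, Real.dist_eq]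
      exact hzx.trans_le (min_le_left _ _)
    have h3 : |τ z| ≤ n := hb1 this
    linarith
  have hne2 : ∀ z : ℝ, |z - (x : ℝ)| < min δ1 δ2 → |τ z| ≠ n + 1 := by
    intro z hzx heq
    have : z ∈ Metric.ball (x : ℝ) δ2 := by
      rw [Metric.mem_ball, Real.dist_eq]
      exact hzx.trans_le (min_le_right _ _)
    apply hb2 this
    rcases (abs_eq (by positivity)).mp heq with h1 | h1
    · left
      rw [comp_apply, h1]
    · right
      rw [comp_apply, h1]
      rfl
  apply x.2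
  refine ⟨n + 1, ?_⟩
  filter_upwards [Metric.ball_mem_nhds (x : ℝ) (lt_min hδ1 hδ2)] with y hy
  rw [Metric.mem_ball, Real.dist_eq] at hy
  push_cast
  rcases le_total (x : ℝ) y with hxy | hxy
  · refine (lift_side hc hi htop hbot hγ hF hOc x.2 hxy ?_ ?_).le
    · intro z hz hz'
      apply hb z hz
      rw [abs_lt] at hy ⊢
      constructor <;> linarith [hz'.1, hz'.2, hy.1, hy.2]
    · intro z hz'
      apply hne2 z
      rw [abs_lt] at hy ⊢
      constructor <;> linarith [hz'.1, hz'.2, hy.1, hy.2]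
  · have hγ' : Continuous (h ∘ fun t => τ (-t)) := hγ.comp continuous_neg
    have key := lift_side hc hi htop hbot (τ := fun t => τ (-t)) hγ' (F := Neg.neg ⁻¹' Oᶜ)
      (hF.preimage continuous_neg)
      (fun z hz => ContinuousAt.comp (g := τ) (f := fun t => -t) (hOc (-z) hz)
        continuous_neg.continuousAt)
      (x := -x) (y := -y) (M := n + 1) (by rw [mem_preimage, neg_neg]; exact x.2) (by linarith) ?_ ?_
    · simpa using key.le
    · intro z hz hz'
      apply hb (-z) hz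
      rw [abs_lt] at hy ⊢
      constructor <;> linarith [hz'.1, hz'.2, hy.1, hy.2]
    · intro z hz'
      apply hne2 (-z)
      rw [abs_lt] at hy ⊢
      constructor <;> linarith [hz'.1, hz'.2, hy.1, hy.2]

end Pool.Agent.MP_d9472f_gt

end

-- part MP_d9472f_gt.Structure
section

/-!
Structure of the limit sets of a real curve, and the abstract non-existence theorem.
-/

open Set Filter Topology Function
open Pool.Agent.Lib.Continuum

namespace Pool.Agent.MP_d9472f_gt

section Structure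

variable {X : Type*} [MetricSpace X] [CompactSpace X]

theorem exists_not_cluster_ge {f : ℝ → X} (hf : Continuous f) (hi : Injective f)
    (hs : Surjective f) (a : ℝ) : ∃ t, a ≤ t ∧ ¬ MapClusterPt (f t) atTop f := by
  by_contra hno
  push Not at hno
  let K : Set X := {x | MapClusterPt x atTop f}
  have hK : IsClosed K := isClosed_setOfPred_clusterPt
  have : Nonempty K := ⟨⟨f a, hno a le_rfl⟩⟩
  have : CompleteSpace K := hK.completeSpace_coe
  have hcl : ∀ n : ℕ, IsClosed {z : K | (z : X) ∈ f '' Icc (-(n : ℝ)) n} := fun n =>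
    ((isCompact_Icc.image hf).isClosed).preimage continuous_subtype_val
  have hcov : ⋃ n : ℕ, {z : K | (z : X) ∈ f '' Icc (-(n : ℝ)) n} = univ := by
    rw [eq_univ_iff_forall]
    intro z
    obtain ⟨t, ht⟩ := hs z
    obtain ⟨n, hn⟩ := exists_nat_ge |t|
    exact mem_iUnion.mpr ⟨n, t, abs_le.mp hn, ht⟩
  obtain ⟨n, x, hx⟩ := nonempty_interior_of_iUnion_of_closed hcl hcov
  rw [mem_interior_iff_mem_nhds] at hx
  obtain ⟨δ, hδ, hb⟩ := Metric.mem_nhds_iff.mp hx
  have h1 : ∃ᶠ t in atTop, f t ∈ Metric.ball (x : X) δ :=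
    MapClusterPt.frequently x.2 (Metric.ball_mem_nhds _ hδ)
  obtain ⟨t, ht, ht'⟩ := (h1.and_eventually (eventually_ge_atTop (max a (n + 1)))).exists
  have h2 : (⟨f t, hno t ((le_max_left _ _).trans ht')⟩ : K) ∈ Metric.ball x δ := ht
  obtain ⟨u, hu, hut⟩ := hb h2
  have := hi hut
  subst this
  linarith [hu.2, le_max_right a (n + 1)]

theorem exists_seq_of_unbounded {P : ℝ → Prop} (hP : ∀ a, ∃ t, a ≤ t ∧ P t) (c : ℝ) :
    ∃ b : ℕ → ℝ, Monotone b ∧ (∀ n, P (b n)) ∧ ∀ n : ℕ, c + n ≤ b n := by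
  choose β hβ hβ' using hP
  let b : ℕ → ℝ := fun n => Nat.rec (β c) (fun _ s => β (s + 1)) n
  have hb : ∀ n, b (n + 1) = β (b n + 1) := fun n => rfl
  refine ⟨b, monotone_nat_of_le_succ fun n => ?_, fun n => ?_, fun n => ?_⟩
  · rw [hb]
    linarith [hβ (b n + 1)]
  · cases n with
    | zero => exact hβ' c
    | succ n => rw [hb]; exact hβ' _
  · induction n with
    | zero => simpa [b] using hβ c
    | succ n ih =>
      rw [hb]
      push_cast
      linarith [hβ (b n + 1)]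

theorem cluster_bounded {f : ℝ → X} (hf : Continuous f) (hi : Injective f)
    (hs : Surjective f) (hlow : ∀ a, ∃ t, t ≤ a ∧ ¬ MapClusterPt (f t) atTop f) :
    ∃ M, ∀ t, MapClusterPt (f t) atTop f → |t| ≤ M := by
  let K : Set X := {x | MapClusterPt x atTop f}
  have hK : IsClosed K := isClosed_setOfPred_clusterPt
  obtain ⟨b, hbm, hbP, hbn⟩ := exists_seq_of_unbounded (exists_not_cluster_ge hf hi hs) 0
  obtain ⟨a, ham, haP, han⟩ := exists_seq_of_unbounded
    (P := fun t => ¬ MapClusterPt (f (-t)) atTop f) (fun c => by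
      obtain ⟨t, ht, ht'⟩ := hlow (-c)
      exact ⟨-t, by linarith, by simpa using ht'⟩) 0
  have hab : ∀ n, -a n ≤ b n := fun n => by
    have h0 : (0 : ℝ) ≤ n := Nat.cast_nonneg n
    linarith [han n, hbn n]
  obtain ⟨n, hn⟩ := sierpinski_mono (G := fun n => f '' Icc (-a n) (b n))
    (isCompact_Icc.image hf).isClosed
    (fun m n hmn => image_mono (Icc_subset_Icc (neg_le_neg (ham hmn)) (hbm hmn)))
    hK.isCompact (isPreconnected_clusterPt_atTop hf)
    (fun x _ => by
      obtain ⟨t, rfl⟩ := hs x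
      obtain ⟨n, hn⟩ := exists_nat_ge |t|
      rw [abs_le] at hn
      exact ⟨n, t, ⟨by linarith [han n, hn.1], by linarith [hbn n, hn.2]⟩, rfl⟩)
    (fun n => by
      refine ⟨f '' (Icc (-a (n + 1)) (-a n) ∪ Icc (b n) (b (n + 1))),
        ((isCompact_Icc.union isCompact_Icc).image hf).isClosed, ?_⟩
      have h1 := ham (Nat.le_succ n)
      have h2 := hbm (Nat.le_succ n)
      have h3 := hab n
      ext x
      obtain ⟨t, rfl⟩ := hs x
      simp only [mem_inter_iff, Set.mem_sdiff, hi.mem_set_image, mem_union, mem_Icc]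
      refine and_congr_right fun ht => ?_
      have h4 : t ≠ -a n := by
        rintro rfl
        exact haP n ht
      have h5 : t ≠ b n := by
        rintro rfl
        exact hbP n ht
      simp only [Nat.succ_eq_add_one] at h1 h2
      constructor
      · rintro (h | h)
        · exact ⟨⟨h.1, by linarith [h.2]⟩, fun h' => h4 (le_antisymm h.2 h'.1)⟩
        · exact ⟨⟨by linarith [h.1], h.2⟩, fun h' => h5 (le_antisymm h'.2 h.1)⟩
      · rintro ⟨h, h'⟩
        rcases le_total t (-a n) with h6 | h6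
        · exact Or.inl ⟨h.1, h6⟩
        · rcases le_total t (b n) with h7 | h7
          · exact absurd ⟨h6, h7⟩ h'
          · exact Or.inr ⟨h7, h.2⟩)
  refine ⟨max (a n) (b n), fun t ht => ?_⟩
  have h1 : f t ∈ f '' Icc (-a n) (b n) := hn ht
  rw [hi.mem_set_image] at h1
  rw [abs_le]
  exact ⟨by linarith [h1.1, le_max_left (a n) (b n)], h1.2.trans (le_max_right _ _)⟩

omit [CompactSpace X] in
theorem isClosed_image_Iic {f : ℝ → X} (hf : Continuous f) {b : ℝ}
    (hb : ∀ x, MapClusterPt x atBot f → x ∈ f '' Iic b) : IsClosed (f '' Iic b) := by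
  apply isClosed_of_closure_subset
  intro x hx
  by_cases hc : MapClusterPt x atBot f
  · exact hb x hc
  rw [mapClusterPt_iff_frequently] at hc
  push Not at hc
  obtain ⟨V, hV, hV'⟩ := hc
  obtain ⟨T, hT⟩ := eventually_atBot.mp hV'
  have h1 : f '' Iic b ⊆ Vᶜ ∪ f '' Icc T b := by
    rintro _ ⟨t, ht, rfl⟩
    rcases le_total t T with h | h
    · exact Or.inl (hT t h)
    · exact Or.inr ⟨t, ⟨h, ht⟩, rfl⟩
  have h2 := closure_mono h1 hx
  rw [closure_union, (isCompact_Icc.image hf).isClosed.closure_eq, closure_compl] at h2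
  rcases h2 with h | h
  · exact absurd (mem_interior_iff_mem_nhds.mpr hV) h
  · exact image_mono Icc_subset_Iic_self h

theorem cluster_bddAbove {f : ℝ → X} (hf : Continuous f) (hi : Injective f)
    (hs : Surjective f) {c : ℝ} (hc : ∀ t, MapClusterPt (f t) atBot f → t ≤ c) :
    ∃ M, ∀ t, MapClusterPt (f t) atTop f → t ≤ M := by
  let K : Set X := {x | MapClusterPt x atTop f}
  have hK : IsClosed K := isClosed_setOfPred_clusterPt
  obtain ⟨b, hbm, hbP, hbn⟩ := exists_seq_of_unbounded (exists_not_cluster_ge hf hi hs) c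
  obtain ⟨n, hn⟩ := sierpinski_mono (G := fun n => f '' Iic (b n))
    (isClosed_image_Iic hf fun x hx => by
      obtain ⟨t, rfl⟩ := hs x
      refine ⟨t, ?_, rfl⟩
      have := hbn 0
      have := hc t hx
      simp only [mem_Iic]
      simp at *
      linarith)
    (fun m n hmn => image_mono (Iic_subset_Iic.mpr (hbm hmn)))
    hK.isCompact (isPreconnected_clusterPt_atTop hf)
    (fun x _ => by
      obtain ⟨t, rfl⟩ := hs x
      obtain ⟨n, hn⟩ := exists_nat_ge (t - c)
      exact ⟨n, t, by simp only [mem_Iic]; linarith [hbn n], rfl⟩)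
    (fun n => by
      refine ⟨f '' (Icc (b n) (b (n + 1))), (isCompact_Icc.image hf).isClosed, ?_⟩
      ext x
      obtain ⟨t, rfl⟩ := hs x
      simp only [mem_inter_iff, Set.mem_sdiff, hi.mem_set_image, mem_Iic, mem_Icc]
      refine and_congr_right fun ht => ?_
      have h5 : t ≠ b n := by
        rintro rfl
        exact hbP n ht
      constructor
      · rintro h
        exact ⟨h.2, fun h' => h5 (le_antisymm h' h.1)⟩
      · rintro ⟨h, h'⟩
        exact ⟨(not_le.mp h').le, h⟩)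
  refine ⟨b n, fun t ht => ?_⟩
  have h1 : f t ∈ f '' Iic (b n) := hn ht
  rw [hi.mem_set_image] at h1
  exact h1

theorem cluster_neg {Y : Type*} [TopologicalSpace Y] {f : ℝ → Y} {x : Y} :
    MapClusterPt x atTop (fun t => f (-t)) ↔ MapClusterPt x atBot f := by
  have : (fun t => f (-t)) = f ∘ fun t : ℝ => -t := rfl
  rw [this, mapClusterPt_comp]
  simp

/-- If the positive end of a real curve accumulates on an unbounded set of parameters, then it
accumulates on a whole negative ray, on nothing far to the right, and the negative end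
accumulates on a bounded set of parameters. -/
theorem structure_of_unbounded {f : ℝ → X} (hf : Continuous f) (hi : Injective f)
    (hs : Surjective f) (hun : ¬ ∃ M, ∀ t, MapClusterPt (f t) atTop f → |t| ≤ M) :
    (∃ a, ∀ t, t ≤ a → MapClusterPt (f t) atTop f) ∧
    (∃ b, ∀ t, MapClusterPt (f t) atTop f → t ≤ b) ∧
    (∃ M, ∀ t, MapClusterPt (f t) atBot f → |t| ≤ M) := by
  have h1 : ∃ a, ∀ t, t ≤ a → MapClusterPt (f t) atTop f := by
    by_contra hno
    push Not at hno
    exact hun (cluster_bounded hf hi hs hno)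
  obtain ⟨a, ha⟩ := h1
  have hK : IsClosed {x | MapClusterPt x atTop f} := isClosed_setOfPred_clusterPt
  have hsub : ∀ x, MapClusterPt x atBot f → MapClusterPt x atTop f := fun x hx =>
    hK.mem_of_mapClusterPt hx ((eventually_le_atBot a).mono fun t ht => ha t ht)
  have h3 : ∃ M, ∀ t, MapClusterPt (f t) atBot f → |t| ≤ M := by
    obtain ⟨M, hM⟩ := cluster_bounded (f := fun t => f (-t)) (hf.comp continuous_neg)
      (hi.comp neg_injective) (hs.comp neg_surjective) (fun c => by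
        obtain ⟨t, ht, ht'⟩ := exists_not_cluster_ge hf hi hs (-c)
        refine ⟨-t, by linarith, fun h => ht' (hsub _ ?_)⟩
        simpa using cluster_neg.mp h)
    refine ⟨M, fun t ht => ?_⟩
    have := hM (-t) (cluster_neg.mpr (by simpa using ht))
    simpa using this
  obtain ⟨M, hM⟩ := h3
  exact ⟨⟨a, ha⟩, cluster_bddAbove hf hi hs fun t ht => (abs_le.mp (hM t ht)).2, M, hM⟩

end Structure

section Ends

variable {Y : Type*} [TopologicalSpace Y]

/-- `τ` is unbounded above near `+∞`. -/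
def Up (τ : ℝ → ℝ) : Prop := ∀ T M, ∃ t, T ≤ t ∧ M < τ t

theorem up_or_up {τ : ℝ → ℝ} (hτ : Continuous τ) (hs : Surjective τ) :
    Up τ ∨ Up fun t => τ (-t) := by
  by_contra hno
  simp only [Up, not_or, not_forall, not_exists, not_and, not_lt] at hno
  obtain ⟨⟨T, M, h1⟩, T', M', h2⟩ := hno
  obtain ⟨M'', h3⟩ := (isCompact_Icc (a := -T') (b := T)).bddAbove_image hτ.continuousOn
  obtain ⟨t, ht⟩ := hs (max M (max M' M'') + 1)
  have e1 := le_max_left M (max M' M'')
  have e2 := le_max_right M (max M' M'')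
  have e3 := le_max_left M' M''
  have e4 := le_max_right M' M''
  rcases le_total T t with h | h
  · linarith [h1 t h]
  · rcases le_total t (-T') with h' | h'
    · have := h2 (-t) (by linarith)
      rw [neg_neg] at this
      linarith
    · have : τ t ≤ M'' := h3 ⟨t, ⟨h', h⟩, rfl⟩
      linarith

theorem cluster_of_up {h : ℝ → Y} {τ : ℝ → ℝ} (hτ : Continuous τ) (hu : Up τ) {y : Y}
    (hy : MapClusterPt y atTop h) : MapClusterPt y atTop (h ∘ τ) := by
  rw [mapClusterPt_iff_frequently] at hy ⊢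
  intro V hV
  rw [frequently_atTop]
  intro T
  obtain ⟨s, hs, hs'⟩ := frequently_atTop.mp (hy V hV) (τ T)
  obtain ⟨t1, ht1, ht1'⟩ := hu T s
  obtain ⟨t, ht, hts⟩ := intermediate_value_Icc ht1 hτ.continuousOn
    (show s ∈ Icc (τ T) (τ t1) from ⟨hs, ht1'.le⟩)
  exact ⟨t, ht.1, by rw [comp_apply, hts]; exact hs'⟩

theorem cluster_of_wild (h : ℝ → Y) {τ : ℝ → ℝ} (hτ : Continuous τ) (hu : Up τ)
    (hn : ¬ Tendsto τ atTop atTop) : ∃ c, ∀ s, c ≤ s → MapClusterPt (h s) atTop (h ∘ τ) := by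
  rw [tendsto_atTop_atTop] at hn
  push Not at hn
  obtain ⟨c, hc⟩ := hn
  refine ⟨c, fun s hs => ?_⟩
  rw [mapClusterPt_iff_frequently]
  intro V hV
  rw [frequently_atTop]
  intro T
  obtain ⟨t0, ht0, ht0'⟩ := hc T
  obtain ⟨t1, ht1, ht1'⟩ := hu t0 s
  obtain ⟨t, ht, hts⟩ := intermediate_value_Icc ht1 hτ.continuousOn
    (show s ∈ Icc (τ t0) (τ t1) from ⟨by linarith, ht1'.le⟩)
  exact ⟨t, ht0.trans ht.1, by rw [comp_apply, hts]; exact mem_of_mem_nhds hV⟩

theorem bdd_Iic {τ : ℝ → ℝ} (hτ : Continuous τ) (hn : ¬ Up fun t => τ (-t)) (b : ℝ) :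
    ∃ M, ∀ t, t ≤ b → τ t ≤ M := by
  simp only [Up, not_forall, not_exists, not_and, not_lt] at hn
  obtain ⟨T, M, h1⟩ := hn
  obtain ⟨M', h3⟩ := (isCompact_Icc (a := -T) (b := b)).bddAbove_image hτ.continuousOn
  refine ⟨max M M', fun t ht => ?_⟩
  rcases le_total t (-T) with h | h
  · have := h1 (-t) (by linarith)
    rw [neg_neg] at this
    exact this.trans (le_max_left _ _)
  · exact (h3 ⟨t, ⟨h, ht⟩, rfl⟩).trans (le_max_right _ _)

theorem not_up_neg_of_tendsto {τ : ℝ → ℝ} (ht : Tendsto τ atTop atTop) : ¬ Up fun t => -τ t := by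
  intro hu
  obtain ⟨T, hT⟩ := tendsto_atTop_atTop.mp ht 0
  obtain ⟨t, h1, h2⟩ := hu T 0
  have := hT t h1
  simp only at h2
  linarith

end Ends

section Main

variable {X : Type*} [MetricSpace X] [CompactSpace X] {Y : Type*} [TopologicalSpace Y] [T2Space Y]

theorem exists_param_of_cluster {f : ℝ → X} (hs : Surjective f) {g : X → Y} (hg : Continuous g)
    {h : ℝ → Y} (hhi : Injective h) {τ : ℝ → ℝ} (hτ : h ∘ τ = g ∘ f) {l : Filter ℝ} {s : ℝ}
    (hc : MapClusterPt (h s) l (h ∘ τ)) : ∃ t, MapClusterPt (f t) l f ∧ τ t = s := by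
  rw [hτ] at hc
  obtain ⟨x, hx, hx'⟩ := exists_clusterPt_of_comp hg hc
  obtain ⟨t, rfl⟩ := hs x
  refine ⟨t, hx, hhi ?_⟩
  rw [← hx']
  exact congrFun hτ t

theorem not_up_left {f : ℝ → X} (hs : Surjective f) {g : X → Y} (hg : Continuous g)
    {h : ℝ → Y} (hhi : Injective h) {N : ℝ} (hN : ∀ s, MapClusterPt (h s) atBot h → |s| ≤ N)
    {τ : ℝ → ℝ} (hτc : Continuous τ) (hτs : Surjective τ) (hτ : h ∘ τ = g ∘ f)
    {a b M : ℝ} (ha : ∀ t, t ≤ a → MapClusterPt (f t) atTop f)
    (hb : ∀ t, MapClusterPt (f t) atTop f → t ≤ b)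
    (hM : ∀ t, MapClusterPt (f t) atBot f → |t| ≤ M) : ¬ Up fun t => τ (-t) := by
  intro hu
  have hτn : Continuous fun t => τ (-t) := hτc.comp continuous_neg
  have h1 : Tendsto (fun t => τ (-t)) atTop atTop := by
    by_contra hn
    obtain ⟨c, hc⟩ := cluster_of_wild h hτn hu hn
    obtain ⟨M', h3⟩ := (isCompact_Icc (a := -M) (b := M)).bddAbove_image hτc.continuousOn
    have h2 : MapClusterPt (h (max c (M' + 1))) atBot (h ∘ τ) :=
      cluster_neg.mp (hc _ (le_max_left _ _))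
    obtain ⟨t, ht, ht'⟩ := exists_param_of_cluster hs hg hhi hτ h2
    have : τ t ≤ M' := h3 ⟨t, abs_le.mp (hM t ht), rfl⟩
    linarith [le_max_right c (M' + 1)]
  have h2 : ¬ Up fun t => -τ (-t) := not_up_neg_of_tendsto h1
  have h3 : Up fun t => -τ t :=
    (up_or_up (τ := fun t => -τ t) hτc.neg (neg_surjective.comp hτs)).resolve_right h2
  obtain ⟨L, hL⟩ := bdd_Iic (τ := fun t => -τ t) hτc.neg h2 b
  by_cases h4 : Tendsto (fun t => -τ t) atTop atTop
  · have h5 : Tendsto τ atTop atBot := tendsto_neg_atTop_iff.mp h4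
    obtain ⟨T, hT⟩ := tendsto_atTop_atTop.mp h1 (N + 1)
    have h6 := hT (max T (-a)) (le_max_left _ _)
    have h7 : MapClusterPt (f (-max T (-a))) atTop f := ha _ (by linarith [le_max_right T (-a)])
    have h8 : MapClusterPt (g (f (-max T (-a)))) atTop (g ∘ f) :=
      h7.continuousAt_comp hg.continuousAt
    have h9 : g (f (-max T (-a))) = h (τ (-max T (-a))) := (congrFun hτ _).symm
    rw [h9, ← hτ] at h8
    have := hN _ (MapClusterPt.of_comp h5 h8)
    linarith [(abs_le.mp this).2]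
  · obtain ⟨c, hc⟩ := cluster_of_wild (fun s => h (-s)) (τ := fun t => -τ t) hτc.neg h3 h4
    have h5 := hc (max c (L + 1)) (le_max_left _ _)
    have h6 : ((fun s => h (-s)) ∘ fun t => -τ t) = h ∘ τ := by
      ext t
      simp
    rw [h6] at h5
    obtain ⟨t, ht, ht'⟩ := exists_param_of_cluster hs hg hhi hτ h5
    have := hL t (hb t ht)
    linarith [le_max_right c (L + 1)]

/-- A real curve that maps onto a real curve both of whose ends accumulate on bounded
parameter sets, compatibly with a continuous lift, has the same property at its positive end. -/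
theorem bounded_of_onto {f : ℝ → X} (hf : Continuous f) (hi : Injective f) (hs : Surjective f)
    {g : X → Y} (hg : Continuous g) {h : ℝ → Y} (hhi : Injective h) {N : ℝ}
    (hN : ∀ s, MapClusterPt (h s) atTop h → |s| ≤ N)
    (hN' : ∀ s, MapClusterPt (h s) atBot h → |s| ≤ N)
    {τ : ℝ → ℝ} (hτc : Continuous τ) (hτs : Surjective τ) (hτ : h ∘ τ = g ∘ f) :
    ∃ M, ∀ t, MapClusterPt (f t) atTop f → |t| ≤ M := by
  by_contra hun
  obtain ⟨⟨a, ha⟩, ⟨b, hb⟩, M, hM⟩ := structure_of_unbounded hf hi hs hun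
  have h1 := not_up_left hs hg hhi hN' hτc hτs hτ ha hb hM
  have h2 := not_up_left hs hg (h := fun s => h (-s)) (hhi.comp neg_injective) (N := N)
    (fun s hs' => by
      have h3 : MapClusterPt (h (-s)) atTop (fun t => h (- -t)) :=
        (cluster_neg (f := fun s => h (-s))).mpr hs'
      simp only [neg_neg] at h3
      simpa using hN _ h3)
    (τ := fun t => -τ t) hτc.neg (neg_surjective.comp hτs)
    (by rw [← hτ]; ext t; simp) ha hb hM
  have h3 : Up τ := (up_or_up hτc hτs).resolve_right h1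
  have h4 : Up fun t => -τ t :=
    (up_or_up (τ := fun t => -τ t) hτc.neg (neg_surjective.comp hτs)).resolve_right h2
  obtain ⟨L, hL⟩ := bdd_Iic hτc h1 b
  obtain ⟨c, hc⟩ := cluster_of_wild h hτc h3 fun h5 => not_up_neg_of_tendsto h5 h4
  obtain ⟨t, ht, ht'⟩ := exists_param_of_cluster hs hg hhi hτ (hc (max c (L + 1)) (le_max_left _ _))
  have := hL t (hb t ht)
  linarith [le_max_right c (L + 1)]

theorem unbounded_of_up {f : ℝ → X} (hs : Surjective f)
    {g : X → Y} (hg : Continuous g) {h : ℝ → Y} (hhi : Injective h)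
    (hN : ∀ s, s ≤ -1 → MapClusterPt (h s) atTop h)
    {τ : ℝ → ℝ} (hτc : Continuous τ) (hu : Up τ) (hτ : h ∘ τ = g ∘ f) :
    ¬ ∃ M, ∀ t, MapClusterPt (f t) atTop f → |t| ≤ M := by
  rintro ⟨M, hM⟩
  obtain ⟨L, hL⟩ := (isCompact_Icc (a := -M) (b := M)).bddBelow_image hτc.continuousOn
  obtain ⟨t, ht, ht'⟩ := exists_param_of_cluster hs hg hhi hτ
    (cluster_of_up hτc hu (hN (min (-1) (L - 1)) (min_le_left _ _)))
  have : L ≤ τ t := hL ⟨t, abs_le.mp (hM t ht), rfl⟩
  linarith [min_le_right (-1) (L - 1)]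

omit [MetricSpace X] [CompactSpace X] in
theorem exists_lift [TopologicalSpace X] {f : ℝ → X} (hf : Continuous f) (hs : Surjective f)
    {g : X → Y} (hg : Continuous g) (hgs : Surjective g) {h : ℝ → Y} (hc : Continuous h)
    (hhi : Injective h) (hhs : Surjective h)
    (htop : ∀ y, ¬ Tendsto h atTop (𝓝 y)) (hbot : ∀ y, ¬ Tendsto h atBot (𝓝 y)) :
    ∃ τ : ℝ → ℝ, Continuous τ ∧ Surjective τ ∧ h ∘ τ = g ∘ f := by
  choose τ hτ using fun t => hhs (g (f t))
  have h1 : h ∘ τ = g ∘ f := funext hτ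
  refine ⟨τ, lift_continuous hc hhi htop hbot (h1 ▸ hg.comp hf), fun s => ?_, h1⟩
  obtain ⟨x, hx⟩ := hgs (h s)
  obtain ⟨t, rfl⟩ := hs x
  exact ⟨t, hhi (by rw [hτ, hx])⟩

/-- The abstract theorem: no real curve maps onto both a real curve of the first kind and
a real curve of the second kind. -/
theorem no_common_model {Y₁ Y₂ : Type*} [TopologicalSpace Y₁] [T2Space Y₁]
    [TopologicalSpace Y₂] [T2Space Y₂]
    {h₁ : ℝ → Y₁} (hc₁ : Continuous h₁) (hi₁ : Injective h₁) (hs₁ : Surjective h₁)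
    (htop₁ : ∀ y, ¬ Tendsto h₁ atTop (𝓝 y)) (hbot₁ : ∀ y, ¬ Tendsto h₁ atBot (𝓝 y))
    (hN : ∀ s, MapClusterPt (h₁ s) atTop h₁ → |s| ≤ 1)
    (hN' : ∀ s, MapClusterPt (h₁ s) atBot h₁ → |s| ≤ 1)
    {h₂ : ℝ → Y₂} (hc₂ : Continuous h₂) (hi₂ : Injective h₂) (hs₂ : Surjective h₂)
    (htop₂ : ∀ y, ¬ Tendsto h₂ atTop (𝓝 y)) (hbot₂ : ∀ y, ¬ Tendsto h₂ atBot (𝓝 y))
    (hW : ∀ s, s ≤ -1 → MapClusterPt (h₂ s) atTop h₂)
    {f : ℝ → X} (hf : Continuous f) (hi : Injective f) (hs : Surjective f)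
    {g₁ : X → Y₁} (hg₁ : Continuous g₁) (hgs₁ : Surjective g₁)
    {g₂ : X → Y₂} (hg₂ : Continuous g₂) (hgs₂ : Surjective g₂) : False := by
  obtain ⟨τ, hτc, hτs, hτ⟩ := exists_lift hf hs hg₁ hgs₁ hc₁ hi₁ hs₁ htop₁ hbot₁
  obtain ⟨σ, hσc, hσs, hσ⟩ := exists_lift hf hs hg₂ hgs₂ hc₂ hi₂ hs₂ htop₂ hbot₂
  rcases up_or_up hσc hσs with hu | hu
  · exact unbounded_of_up hs hg₂ hi₂ hW hσc hu hσ
      (bounded_of_onto hf hi hs hg₁ hi₁ hN hN' hτc hτs hτ)
  · refine unbounded_of_up (f := fun t => f (-t)) (hs.comp neg_surjective) hg₂ hi₂ hW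
      (hσc.comp continuous_neg) hu (funext fun t => congrFun hσ (-t))
      (bounded_of_onto (f := fun t => f (-t)) (hf.comp continuous_neg) (hi.comp neg_injective)
        (hs.comp neg_surjective) hg₁ hi₁ hN hN' (τ := fun t => τ (-t)) (hτc.comp continuous_neg)
        (hτs.comp neg_surjective) (funext fun t => congrFun hτ (-t)))

end Main

end Pool.Agent.MP_d9472f_gt

end

-- part MP_d9472f_gt.Curves
section

/-!
The two weakly chainable real curves.
-/

open Set Filter Topology Function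

namespace Pool.Agent.MP_d9472f_gt

/-- The limit arc. -/
abbrev Arc : Type := Icc (-1 : ℝ) 1

/-- The sine function with values in the arc. -/
noncomputable def sinA (t : ℝ) : Arc := ⟨Real.sin t, Real.neg_one_le_sin t, Real.sin_le_one t⟩

theorem continuous_sinA : Continuous sinA := Real.continuous_sin.subtype_mk _

theorem sinA_hits (y : Arc) (M : ℝ) : ∃ T, M ≤ T ∧ sinA T = y := by
  obtain ⟨n, hn⟩ := exists_nat_ge (M + 2)
  refine ⟨Real.arcsin y + n * (2 * Real.pi), ?_, Subtype.ext ?_⟩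
  · have h1 := Real.neg_pi_div_two_le_arcsin y
    have h2 := Real.pi_le_four
    have h3 := Real.pi_gt_three
    have h4 : (0 : ℝ) ≤ n := Nat.cast_nonneg n
    nlinarith
  · simp only [sinA, Real.sin_add_nat_mul_two_pi]
    exact Real.sin_arcsin y.2.1 y.2.2

/-- The two end points of the arc. -/
def botA : Arc := ⟨-1, le_rfl, by norm_num⟩

/-- The two end points of the arc. -/
def topA : Arc := ⟨1, by norm_num, le_rfl⟩

instance : ConnectedSpace Arc := Subtype.connectedSpace (isConnected_Icc (by norm_num))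

theorem arcLike_Arc : ArcLike Arc botA topA := fun ε hε =>
  ⟨Subtype.val, continuous_subtype_val, fun x y hxy => by
    rw [Subtype.ext hxy, dist_self]
    exact hε, fun x => x.2.1, fun x => x.2.2⟩

/-- The topologist's sine curve. -/
abbrev SinCurve : Type := Ray sinA

instance : CompactSpace SinCurve := compactSpace_Ray continuous_sinA

instance : ConnectedSpace SinCurve := connectedSpace_Ray continuous_sinA

theorem arcLike_SinCurve : ArcLike SinCurve (base sinA botA) (ray sinA 1) :=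
  arcLike_Arc.ray (sinA_hits topA)

theorem not_tendsto_of_two_cluster {Y : Type*} [TopologicalSpace Y] [T2Space Y] {h : ℝ → Y}
    (hi : Injective h) {l : Filter ℝ} {s t : ℝ} (hst : s ≠ t) (hs : MapClusterPt (h s) l h)
    (ht : MapClusterPt (h t) l h) (y : Y) : ¬ Tendsto h l (𝓝 y) := by
  intro hy
  have h1 : h s = y := eq_of_nhds_neBot (hs.clusterPt.mono hy)
  have h2 : h t = y := eq_of_nhds_neBot (ht.clusterPt.mono hy)
  exact hst (hi (h1.trans h2.symm))

/-- The real curve obtained from the sine curve with a second ray attached along `B`. -/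
theorem exists_curve {B : ℝ → SinCurve} (hB : Continuous B) :
    ∃ (Y : Type) (_ : MetricSpace Y) (G : Ray B → Y) (h : ℝ → Y),
      Continuous G ∧ Surjective G ∧ Continuous h ∧ Injective h ∧ Surjective h ∧
      (∀ t, t ≤ -1 → h t = G (base B (ray sinA (-t)))) ∧
      (∀ y : Arc, h y = G (base B (base sinA y))) ∧
      (∀ t, 1 < t → h t = G (ray B t)) := by
  classical
  let ι : Ray B → (ℝ × ℝ) × ℝ := fun z => (((z.1.1.1.1 : ℝ), z.1.1.1.2), z.1.2)
  have hι : Continuous ι := by fun_prop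
  have hιi : Injective ι := by
    intro z w hzw
    simp only [ι, Prod.mk.injEq] at hzw
    exact Subtype.ext (Prod.ext (Subtype.ext (Prod.ext (Subtype.ext hzw.1.1) hzw.1.2)) hzw.2)
  let p : Ray B := base B (base sinA botA)
  let p' : Ray B := base B (ray sinA 1)
  let q : Ray B := base B (base sinA topA)
  let q' : Ray B := ray B 1
  have hp : ι p = ((-1, 0), 0) := rfl
  have hp' : ι p' = ((Real.sin 1, 1), 0) := by simp [ι, p', base, ray, sinA]
  have hq : ι q = ((1, 0), 0) := rfl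
  have hq' : (ι q').2 = 1 := by simp [ι, q', ray]
  have hqp : q ≠ p := fun h => by
    have := congrArg ι h
    rw [hp, hq] at this
    norm_num at this
  have hqp' : q ≠ p' := fun h => by
    have := congrArg ι h
    rw [hp', hq] at this
    norm_num at this
  have hq'p : q' ≠ p := fun h => by
    rw [h, hp] at hq'
    norm_num at hq'
  have hq'p' : q' ≠ p' := fun h => by
    rw [h, hp'] at hq'
    norm_num at hq'
  obtain ⟨Y, inst, G, hG, hGs, hGp, hGq, hfib⟩ := exists_glue_two hι hιi hqp hqp' hq'p hq'p'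
  let π : ℝ → Arc := projIcc (-1 : ℝ) 1 (by norm_num)
  have hπ : Continuous π := continuous_projIcc
  let η : ℝ → Ray B := fun t =>
    if t ≤ -1 then base B (ray sinA (-t)) else if t ≤ 1 then base B (base sinA (π t)) else ray B t
  have hη1 : ∀ t, t ≤ -1 → η t = base B (ray sinA (-t)) := fun t ht => if_pos ht
  have hη2 : ∀ t, -1 < t → t ≤ 1 → η t = base B (base sinA (π t)) := fun t ht ht' => by
    simp only [η, if_neg (not_le.mpr ht), if_pos ht']
  have hη3 : ∀ t, 1 < t → η t = ray B t := fun t ht => by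
    simp only [η, if_neg (not_le.mpr ht), if_neg (not_le.mpr (show -1 < t by linarith))]
  let κ : (ℝ × ℝ) × ℝ → ℝ := fun v => if 0 < v.2 then v.2⁻¹ else if 0 < v.1.2 then -v.1.2⁻¹ else v.1.1
  have hκ : ∀ t, κ (ι (η t)) = t := by
    intro t
    rcases le_or_gt t (-1) with h1 | h1
    · rw [hη1 t h1]
      have h2 : 1 ≤ -t := by linarith
      have h3 : t < 0 := by linarith
      simp [κ, ι, base, ray, max_eq_right h2, h3]
    · rcases le_or_gt t 1 with h2 | h2
      · rw [hη2 t h1 h2]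
        simp [κ, ι, base, π, projIcc_of_mem _ (show t ∈ Icc (-1 : ℝ) 1 from ⟨h1.le, h2⟩)]
      · rw [hη3 t h2]
        have h3 : 0 < t := by linarith
        simp [κ, ι, ray, max_eq_right h2.le, h3]
  have hηi : Injective η := fun s t hst => by rw [← hκ s, ← hκ t, hst]
  have hηm : η (-1) = p' := by rw [hη1 _ le_rfl, neg_neg]
  have hπ1 : π 1 = topA := projIcc_right _
  have hπm : π (-1) = botA := projIcc_left _
  have hηp : η 1 = q := by rw [hη2 1 (by norm_num) le_rfl, hπ1]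
  have hnp : ∀ t, η t ≠ p := by
    intro t ht
    have h1 := hκ t
    rw [ht, hp] at h1
    have h2 : t = -1 := by simpa [κ] using h1.symm
    rw [h2, hηm] at ht
    have := congrArg ι ht
    rw [hp, hp'] at this
    norm_num at this
  have hnq : ∀ t, η t ≠ q' := by
    intro t ht
    have h1 := hκ t
    rw [ht] at h1
    have h2 : t = 1 := by simpa [κ, hq'] using h1.symm
    rw [h2, hηp] at ht
    rw [← ht, hq] at hq'
    norm_num at hq'
  have hA : ∀ y : Arc, G (η y) = G (base B (base sinA y)) := by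
    intro y
    rcases y.2.1.eq_or_lt with h1 | h1
    · have h2 : y = botA := Subtype.ext h1.symm
      rw [← h1, hηm, h2, ← hGp]
    · rw [hη2 y h1 y.2.2]
      simp [π]
  refine ⟨Y, inst, G, fun t => G (η t), hG, hGs, ?_, ?_, ?_, ?_, hA, ?_⟩
  · have h1 : (fun t => G (η t)) = fun t => if t ≤ -1 then G (base B (ray sinA (-t))) else
        if t ≤ 1 then G (base B (base sinA (π t))) else G (ray B t) := by
      ext t
      simp only [η]
      split_ifs <;> rfl
    rw [h1]
    refine Continuous.if_le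
      (hG.comp ((continuous_base B).comp ((continuous_ray continuous_sinA).comp continuous_neg)))
      (Continuous.if_le (hG.comp ((continuous_base B).comp ((continuous_base sinA).comp hπ)))
        (hG.comp (continuous_ray hB)) continuous_id continuous_const ?_)
      continuous_id continuous_const ?_
    · rintro t rfl
      rw [hπ1]
      exact hGq
    · rintro t rfl
      rw [if_pos (by norm_num), hπm, neg_neg]
      exact hGp.symm
  · intro s t hst
    rcases hfib _ _ hst with h | ⟨h, h'⟩ | ⟨h, h'⟩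
    · exact hηi h
    · exact hηi ((h.resolve_left (hnp s)).trans (h'.resolve_left (hnp t)).symm)
    · exact hηi ((h.resolve_right (hnq s)).trans (h'.resolve_right (hnq t)).symm)
  · intro y
    obtain ⟨z, rfl⟩ := hGs y
    rcases base_or_ray z with ⟨s, rfl⟩ | ⟨t, ht, rfl⟩
    · rcases base_or_ray s with ⟨y, rfl⟩ | ⟨t, ht, rfl⟩
      · exact ⟨y, hA y⟩
      · refine ⟨-t, ?_⟩
        simp only
        rw [hη1 _ (by linarith), neg_neg]
    · rcases ht.eq_or_lt with rfl | h1
      · refine ⟨1, ?_⟩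
        simp only
        rw [hηp]
        exact hGq
      · exact ⟨t, by simp only; rw [hη3 t h1]⟩
  · intro t ht
    simp only
    rw [hη1 t ht]
  · intro t ht
    simp only
    rw [hη3 t ht]

/-- All the facts about the curve built along `B` that do not depend on `B`. -/
theorem exists_curve' {B : ℝ → SinCurve} (hB : Continuous B) (hch : IsChainable (Ray B)) :
    ∃ (Y : Type) (_ : MetricSpace Y) (h : ℝ → Y), IsRealCurve Y ∧ IsWeaklyChainable Y ∧
      Continuous h ∧ Injective h ∧ Surjective h ∧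
      (∀ y, ¬ Tendsto h atBot (𝓝 y)) ∧ (∀ s, MapClusterPt (h s) atBot h → |s| ≤ 1) ∧
      (∀ y : Arc, (∀ M, ∃ T, M ≤ T ∧ B T = base sinA y) → MapClusterPt (h y) atTop h) ∧
      (∀ s, s ≤ -1 → (∀ M, ∃ T, M ≤ T ∧ B T = ray sinA (-s)) → MapClusterPt (h s) atTop h) ∧
      ((∀ t, B t ∈ range (base sinA)) → ∀ s, MapClusterPt (h s) atTop h → |s| ≤ 1) := by
  obtain ⟨Y, inst, G, h, hG, hGs, hc, hi, hs, h1, h2, h3⟩ := exists_curve hB
  have := compactSpace_Ray hB
  have := connectedSpace_Ray hB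
  have hY : IsContinuum Y := ⟨hGs.compactSpace hG, hGs.connectedSpace hG⟩
  have etop : h =ᶠ[atTop] G ∘ ray B := by
    filter_upwards [eventually_gt_atTop 1] with t ht
    exact h3 t ht
  have ebot : (fun t => h (-t)) =ᶠ[atTop] (G ∘ base B) ∘ ray sinA := by
    filter_upwards [eventually_ge_atTop 1] with t ht
    rw [h1 _ (by linarith), neg_neg]
    rfl
  have hGb : Continuous (G ∘ base B) := hG.comp (continuous_base B)
  have cbot : ∀ y : Arc, MapClusterPt (h y) atBot h := by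
    intro y
    rw [← cluster_neg, ebot.mapClusterPt_iff, h2 y]
    exact (cluster_ray_of_hits (sinA_hits y)).continuousAt_comp (f := G ∘ base B) hGb.continuousAt
  refine ⟨Y, inst, h, ⟨hY, h, hc, hi, hs⟩, ⟨hY, Ray B, inferInstance, hch, G, hG, hGs⟩,
    hc, hi, hs, ?_, ?_, ?_, ?_, ?_⟩
  · exact not_tendsto_of_two_cluster hi (s := -1) (t := 1) (by norm_num) (cbot botA) (cbot topA)
  · intro s hs'
    rw [← cluster_neg, ebot.mapClusterPt_iff] at hs'
    obtain ⟨z, hz, hz'⟩ := Lib.Continuum.exists_clusterPt_of_comp hGb hs'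
    obtain ⟨y, rfl, -⟩ := cluster_ray hz
    have h4 : (y : ℝ) = s := hi ((h2 y).trans hz')
    rw [← h4]
    exact abs_le.mpr y.2
  · intro y hy
    rw [etop.mapClusterPt_iff, h2 y]
    exact (cluster_ray_of_hits hy).continuousAt_comp hG.continuousAt
  · intro s hs' hy
    rw [etop.mapClusterPt_iff, h1 s hs']
    exact (cluster_ray_of_hits hy).continuousAt_comp hG.continuousAt
  · intro hr s hs'
    rw [etop.mapClusterPt_iff] at hs'
    obtain ⟨z, hz, hz'⟩ := Lib.Continuum.exists_clusterPt_of_comp hG hs'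
    obtain ⟨x, rfl, hx⟩ := cluster_ray hz
    have h4 : IsClosed (range (base sinA)) := (isCompact_range (continuous_base sinA)).isClosed
    obtain ⟨y, rfl⟩ := h4.mem_of_mapClusterPt hx (Eventually.of_forall hr)
    have h5 : (y : ℝ) = s := hi ((h2 y).trans hz')
    rw [← h5]
    exact abs_le.mpr y.2

theorem wiggle_hits {v : ℝ} (hv : 1 ≤ v) (M : ℝ) :
    ∃ T, M ≤ T ∧ 1 + |T| * (1 + Real.sin T) = v := by
  obtain ⟨T₁, hT₁, e₁⟩ := sinA_hits botA (max M v)
  obtain ⟨T₂, hT₂, e₂⟩ := sinA_hits topA T₁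
  have e₃ : Real.sin T₁ = -1 := congrArg Subtype.val e₁
  have e₄ : Real.sin T₂ = 1 := congrArg Subtype.val e₂
  have hcont : Continuous fun T : ℝ => 1 + |T| * (1 + Real.sin T) := by fun_prop
  have h1 : v ≤ |T₂| := ((le_max_right _ _).trans (hT₁.trans hT₂)).trans (le_abs_self _)
  obtain ⟨T, hT, hT'⟩ := intermediate_value_Icc hT₂ hcont.continuousOn
    (show v ∈ Icc (1 + |T₁| * (1 + Real.sin T₁)) (1 + |T₂| * (1 + Real.sin T₂)) by
      rw [e₃, e₄]
      constructor <;> linarith)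
  exact ⟨T, (le_max_left _ _).trans (hT₁.trans hT.1), hT'⟩

/-- There are two weakly chainable real curves that are not both continuous images of one
real curve. -/
theorem exists_two_curves :
    ∃ (Y₁ : Type) (_ : MetricSpace Y₁) (Y₂ : Type) (_ : MetricSpace Y₂),
      IsRealCurve Y₁ ∧ IsWeaklyChainable Y₁ ∧ IsRealCurve Y₂ ∧ IsWeaklyChainable Y₂ ∧
      ∀ (X : Type) [MetricSpace X], IsRealCurve X → ¬ (MapsOnto X Y₁ ∧ MapsOnto X Y₂) := by
  let B₁ : ℝ → SinCurve := fun t => base sinA (sinA t)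
  have hB₁ : Continuous B₁ := (continuous_base sinA).comp continuous_sinA
  have hit₁ : ∀ y : Arc, ∀ M, ∃ T, M ≤ T ∧ B₁ T = base sinA y := fun y M => by
    obtain ⟨T, hT, hT'⟩ := sinA_hits y M
    exact ⟨T, hT, congrArg (base sinA) hT'⟩
  let B₂ : ℝ → SinCurve := fun t => ray sinA (1 + |t| * (1 + Real.sin t))
  have hB₂ : Continuous B₂ := (continuous_ray continuous_sinA).comp (by fun_prop)
  have hit₂ : ∀ v, 1 ≤ v → ∀ M, ∃ T, M ≤ T ∧ B₂ T = ray sinA v := fun v hv M => by
    obtain ⟨T, hT, hT'⟩ := wiggle_hits hv M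
    exact ⟨T, hT, congrArg (ray sinA) hT'⟩
  have := compactSpace_Ray hB₁
  have := connectedSpace_Ray hB₁
  have := compactSpace_Ray hB₂
  have := connectedSpace_Ray hB₂
  obtain ⟨Y₁, i₁, h₁, r₁, w₁, c₁, j₁, s₁, b₁, n₁, a₁, -, m₁⟩ :=
    exists_curve' hB₁ (arcLike_SinCurve.symm.ray (hit₁ botA)).isChainable
  obtain ⟨Y₂, i₂, h₂, r₂, w₂, c₂, j₂, s₂, b₂, -, -, a₂, -⟩ :=
    exists_curve' hB₂ (arcLike_SinCurve.ray (hit₂ 1 le_rfl)).isChainable
  have hW : ∀ s, s ≤ -1 → MapClusterPt (h₂ s) atTop h₂ := fun s hs =>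
    a₂ s hs (hit₂ (-s) (by linarith))
  refine ⟨Y₁, i₁, Y₂, i₂, r₁, w₁, r₂, w₂, ?_⟩
  rintro X _ ⟨⟨hX, -⟩, f, hf, hi, hs⟩ ⟨⟨g₁, hg₁, hgs₁⟩, g₂, hg₂, hgs₂⟩
  exact no_common_model c₁ j₁ s₁
    (not_tendsto_of_two_cluster j₁ (s := -1) (t := 1) (by norm_num) (a₁ botA (hit₁ botA))
      (a₁ topA (hit₁ topA)))
    b₁ (m₁ fun t => mem_range_self _) n₁ c₂ j₂ s₂
    (not_tendsto_of_two_cluster j₂ (s := -1) (t := -2) (by norm_num) (hW _ le_rfl)
      (hW _ (by norm_num)))
    b₂ hW hf hi hs hg₁ hgs₁ hg₂ hgs₂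

end Pool.Agent.MP_d9472f_gt

end
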