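import Pool.Agent.MP_d9472f_gt.Q2.Tools

attribute [-instance] AddQuantale.instAddLeftMono TotallySeparatedSpace.t2Space
  NumberField.to_charZero Valued.toUniformSpace IdemSemiring.toCanonicallyOrderedAdd
  AddQuantale.instAddRightMono Quantale.instMulRightMono RKHS.instFunLike
  NonUnitalSeminormedRing.toPseudoMetricSpace LinearOrderedCommMonoidWithZero.toPosMulStrictMono
  continuousSub_of_discreteTopology Fintype.decidableForallFintype IsAddCyclic.isAddCommutative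
  continuousSub_of_indiscreteTopology IdemSemiring.toMulLeftMono CStarAlgebra.instOrderClosedTopology
  SeminormedRing.toPseudoMetricSpace IsOrderedMonoid.toMulLeftMono NeZero.of_gt'
  SeminormedGroup.toPseudoMetricSpace TestFunctionClass.toDFunLike
  UpgradedStandardBorel.toTopologicalSpace SeminormedAddGroup.toPseudoMetricSpace
  NonUnitalNonAssocSemiring.toMulZeroClass instCoeTOfCoeDep

-- part MP_d9472f_gt.Q2.Curve
section

/-! The curves: continuity, points, parametrisation, weak chainability. -/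

open Set Filter Topology

noncomputable section
namespace Pool.Agent.MP_d9472f_gt.Q2

theorem b1_zig {a b : ℝ} {N : ℕ} (hab : a < b) (hN : Odd N) {s : ℝ} {m : ℕ}
    (h : zc a b N s = m) : zig a b N s ≤ a ∨ b ≤ zig a b N s := by
  rcases le_total s a with h1 | h1
  · left; rwa [zig_of_le h1]
  rcases le_total b s with h2 | h2
  · right; rwa [zig_of_ge hab hN h2]
  rw [zig_of_mem ⟨h1, h2⟩, h]
  rcases Nat.even_or_odd m with hm | hm
  · left; rw [tri_nat_even hm]; linarith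
  · right; rw [tri_nat_odd hm]; linarith

theorem cont_XD {Z : Type} [TopologicalSpace Z] (Φ : ℝ → ℕ → Z) (L : ℕ → ℕ → Bool) {N : ℕ}
    (hN : Odd N) (hΦ : ∀ D, Continuous fun x => Φ x D)
    (hout : ∀ x D D', x ∉ Ioo (0 : ℝ) 2 → Φ x D = Φ x D') (ℓ i cap : ℕ) :
    Continuous fun s => Φ (Xp N ℓ i s) (Dp L N ℓ i cap s) := by
  induction ℓ generalizing i cap with
  | zero => exact hΦ cap
  | succ ℓ ih =>
    rw [← continuousOn_univ]
    refine glue (S := univ) (z := zc (ll (i + 1)) (RR (i + 1)) N)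
      (F := fun m s => Φ (Xp N ℓ (i + 1) (zig (ll (i + 1)) (RR (i + 1)) N s))
        (Dp L N ℓ (i + 1) (nxt L i cap m) (zig (ll (i + 1)) (RR (i + 1)) N s)))
      (continuous_zc _ _ _).continuousOn (fun x _ => zc_nonneg (ll_lt_RR _ _))
      (fun m => ((ih (i + 1) (nxt L i cap m)).comp (continuous_zig _ _ _)).continuousOn) ?_
    intro m x _ hx
    refine hout _ _ _ ?_
    rcases b1_zig (ll_lt_RR _ _) hN hx with h | h
    · rw [Xp_of_le N ℓ (i + 1) (h.trans (ll_mono (Nat.le_succ _)))]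
      exact fun hh => by linarith [hh.1, ll_lt (i + 1)]
    · rw [Xp_of_ge hN ℓ (i + 1) ((RR_anti (Nat.le_succ _)).trans h)]
      exact fun hh => by linarith [hh.2, lt_RR (i + 1)]

theorem b1_cont_s0 : Continuous s0 := by unfold s0; fun_prop

theorem b1_cont_t {Z : Type} [TopologicalSpace Z] (Φ : ℕ → ℝ → ℕ → Z) (L : ℕ → ℕ → Bool)
    (hΦ : ∀ n D, Continuous fun x => Φ n x D)
    (hout : ∀ n x D D', x ∉ Ioo (0 : ℝ) 2 → Φ n x D = Φ n x D')
    (hn : ∀ n D D', Φ (n + 1) (-2) D = Φ n (-2) D') :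
    ContinuousOn (fun t => Φ ⌊t⌋₊ (xx t) (DD L t)) (Ici 0) := by
  refine glue (S := Ici (0 : ℝ)) (z := fun t => t)
    (F := fun n t => Φ n (Xp (2 * n + 1) n 0 (s0 t)) (Dp L (2 * n + 1) n 0 n (s0 t)))
    continuousOn_id (fun x hx => hx)
    (fun n => ((cont_XD (Φ n) L (N := 2 * n + 1) ⟨n, rfl⟩ (hΦ n) (hout n) n 0 n).comp
      b1_cont_s0).continuousOn) ?_
  intro m x _ hx
  have h0 : s0 x = -2 := by
    have e : 2 * x = ((2 * (m + 1) : ℕ) : ℝ) := by
      have hx' : x = ((m + 1 : ℕ) : ℝ) := hx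
      rw [hx']; push_cast; ring
    rw [s0, e, tri_nat_even (even_two_mul _), ll_zero]; ring
  have h1 : (-2 : ℝ) ≤ ll (0 + 1) := by rw [← ll_zero]; exact ll_mono (Nat.zero_le _)
  show Φ (m + 1) (Xp _ _ 0 (s0 x)) _ = Φ m (Xp _ _ 0 (s0 x)) _
  rw [h0, Xp_of_le _ _ _ h1, Xp_of_le _ _ _ h1]
  exact hn _ _ _

theorem b1_etaL_out {x : ℝ} (D : ℕ) (h : x ∉ Ioo (0 : ℝ) 2) : etaL x D = 0 := by
  have : 1 - |x - 1| ≤ 0 := by
    by_contra hc
    have := abs_lt.1 (show |x - 1| < 1 by linarith [not_le.1 hc])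
    exact h ⟨by linarith [this.1], by linarith [this.2]⟩
  rw [etaL, max_eq_left this, mul_zero]

theorem b1_cont_etaL (D : ℕ) : Continuous fun x => etaL x D := by unfold etaL; fun_prop

theorem b1_etaL_pos (x : ℝ) (D : ℕ) : 0 < 1 + etaL x D := by
  have h1 : max 0 (1 - |x - 1|) ≤ 1 := max_le zero_le_one (by linarith [abs_nonneg (x - 1)])
  have h2 := uu_pos D
  have h3 := uu_le D
  have h4 : (1 - uu D) * max 0 (1 - |x - 1|) ≤ (1 - uu D) * 1 :=
    mul_le_mul_of_nonneg_left h1 (by linarith)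
  rw [etaL]; linarith only [h2, h4]

theorem cont_et (L : ℕ → ℕ → Bool) : ContinuousOn (et L) (Ici 0) := by
  have hm : (-2 : ℝ) ∉ Ioo (0 : ℝ) 2 := fun h => by linarith [h.1]
  refine b1_cont_t (fun _ x D => eta x D) L (fun _ D => ?_) (fun _ x D D' h => ?_)
    (fun _ D D' => ?_)
  · exact (b1_cont_etaL D).add (by fun_prop)
  · simp only [eta, b1_etaL_out _ h]
  · simp only [eta, b1_etaL_out _ hm]

theorem cont_gam {q : ℝ → ℝ} (hq : QSpec q) (L : ℕ → ℕ → Bool) :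
    ContinuousOn (gam q L) (Ici 0) := by
  have hm : (-2 : ℝ) ∉ Ioo (0 : ℝ) 2 := fun h => by linarith [h.1]
  have hx : ContinuousOn xx (Ici 0) :=
    b1_cont_t (fun _ x _ => x) L (fun _ _ => continuous_id) (fun _ _ _ _ _ => rfl)
      (fun _ _ _ => rfl)
  have hden : ∀ t ∈ Ici (0 : ℝ), (1 + t) ^ 4 ≠ 0 := fun t ht =>
    pow_ne_zero _ (by linarith [mem_Ici.1 ht])
  have hP : ContinuousOn PP (Ici 0) := ContinuousOn.div (by fun_prop) (by fun_prop) hden
  have hQ : ContinuousOn QQ (Ici 0) := ContinuousOn.div (by fun_prop) (by fun_prop) hden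
  have hr : ContinuousOn (fun t => rho q (fun v => q (max v (uu ⌊t⌋₊))) (xx t) (DD L t))
      (Ici 0) := by
    refine b1_cont_t (fun n x D => rho q (fun v => q (max v (uu n))) x D) L (fun n D => ?_)
      (fun _ x D D' h => ?_) (fun n D D' => ?_)
    · refine (Continuous.add (by fun_prop) ?_).add ?_
      · exact hq.cont.comp_continuous (continuous_const.add (b1_cont_etaL D))
          fun x => b1_etaL_pos x D
      · exact hq.cont.comp_continuous (by fun_prop)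
          fun x => lt_of_lt_of_le (uu_pos n) (le_max_right _ _)
    · simp only [rho, b1_etaL_out _ h]
    · have e : max ((-2 : ℝ) - 2) 0 = 0 := max_eq_right (by norm_num)
      simp only [rho, b1_etaL_out _ hm, e, max_eq_right (uu_pos _).le, hq.zero]
  have hc : Continuous ((↑) : ℝ → UnitAddCircle) := AddCircle.continuous_mk' 1
  have hh' : Continuous hh := by unfold hh; fun_prop
  refine (hc.comp_continuousOn (cont_et L)).prodMk (ContinuousOn.prodMk ?_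
    (hr.prodMk (hP.prodMk hQ)))
  exact (hh'.comp_continuousOn hx).sub
    (hP.mul ((hx.sub continuousOn_const).sup continuousOn_const))

theorem b3_gen {E : Type} [MetricSpace E] {K A : Set E} (hK : IsClosed K) {S : ℕ → Set E}
    (hS : ∀ n, IsClosed (S n)) {ε : ℕ → ℝ} (hε : Tendsto ε atTop (𝓝 0))
    (h : ∀ n, ∀ a ∈ A, a ∈ S n ∨ ∃ w ∈ K, dist a w ≤ ε n) {y : E} (hy : y ∈ closure A) :
    (∃ n, y ∈ S n) ∨ y ∈ K := by
  refine or_iff_not_imp_left.2 fun hn => ?_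
  push Not at hn
  rw [← hK.closure_eq, Metric.mem_closure_iff]
  intro δ hδ
  obtain ⟨n, hn'⟩ := (hε.eventually (Iio_mem_nhds (half_pos hδ))).exists
  obtain ⟨a, ⟨h1, h2⟩, ha⟩ := mem_closure_iff.1 hy ((S n)ᶜ ∩ Metric.ball y (δ / 2))
    ((hS n).isOpen_compl.inter Metric.isOpen_ball) ⟨hn n, Metric.mem_ball_self (half_pos hδ)⟩
  obtain ⟨w, hw, hd⟩ := (h n a ha).resolve_left h1
  refine ⟨w, hw, ?_⟩
  have h3 := dist_triangle y a w
  rw [Metric.mem_ball, dist_comm] at h2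
  have h4 : ε n < δ / 2 := hn'
  linarith

theorem b3_uu : Tendsto uu atTop (𝓝 0) :=
  (tendsto_pow_atTop_nhds_zero_of_lt_one (r := (1 / 2 : ℝ)) (by norm_num) (by norm_num)).comp
    (tendsto_add_atTop_nat 2)

theorem b3_dist (a b : ℝ) : dist (a : UnitAddCircle) (b : UnitAddCircle) ≤ |a - b| := by
  rw [dist_eq_norm, ← AddCircle.coe_sub]
  exact QuotientAddGroup.norm_mk_le_norm

theorem b3_closed {q : ℝ → ℝ} (hq : QSpec q) : IsClosed (W0 q) := by
  have hB : IsClosed ((fun r : ℝ => ((0, 0, r, 0, 0) : EE)) '' Icc 0 1) :=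
    (isCompact_Icc.image (by fun_prop)).isClosed
  have hC : IsClosed ((fun r : ℝ => ((0, r, 1, 0, 0) : EE)) '' Icc 0 1) :=
    (isCompact_Icc.image (by fun_prop)).isClosed
  refine isClosed_of_closure_subset fun y hy => ?_
  have := b3_gen (hB.union hC)
    (S := fun n => (fun v : ℝ => (((v : UnitAddCircle), 0, q v, 0, 0) : EE)) '' Icc (uu n) 1)
    (fun n => (isCompact_Icc.image_of_continuousOn (by
      refine ContinuousOn.prodMk (by fun_prop) (ContinuousOn.prodMk continuousOn_const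
        (ContinuousOn.prodMk (hq.cont.mono fun v hv => (uu_pos n).trans_le hv.1)
          continuousOn_const)))).isClosed) b3_uu (A := W0 q) ?_ hy
  · rcases this with ⟨n, v, hv, rfl⟩ | ⟨r, hr, rfl⟩ | ⟨r, hr, rfl⟩
    · exact Or.inl ⟨v, ⟨(uu_pos n).trans_le hv.1, hv.2⟩, rfl⟩
    · exact Or.inr (Or.inl ⟨r, hr, rfl⟩)
    · exact Or.inr (Or.inr ⟨r, hr, rfl⟩)
  rintro n a (⟨v, hv, rfl⟩ | ⟨r, hr, rfl⟩ | ⟨r, hr, rfl⟩)
  · rcases le_total (uu n) v with h | h
    · exact Or.inl ⟨v, ⟨h, hv.2⟩, rfl⟩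
    · refine Or.inr ⟨_, Or.inl ⟨q v, hq.mem v, rfl⟩, ?_⟩
      have := b3_dist v 0
      rw [sub_zero, abs_of_pos hv.1, AddCircle.coe_zero] at this
      simpa only [Prod.dist_eq, dist_zero_right, dist_self, norm_nonneg, sup_of_le_left, ge_iff_le] using this.trans h
  · exact Or.inr ⟨_, Or.inl ⟨r, hr, rfl⟩, by simpa only [dist_self] using (uu_pos n).le⟩
  · exact Or.inr ⟨_, Or.inr ⟨r, hr, rfl⟩, by simpa using (uu_pos n).le⟩

theorem b3_near {q : ℝ → ℝ} (hq : QSpec q) {x : ℝ} (hx : x ∈ Icc (ll 0) (RR 0)) (D n : ℕ) :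
    ∃ c : UnitAddCircle, ((c, hh x, rho q (fun v => q (max v (uu n))) x D, 0, 0) : EE) ∈ W0 q ∧
      dist ((eta x D : ℝ) : UnitAddCircle) c ≤ uu n ∧ (x ≤ 2 → c = (eta x D : ℝ)) := by
  obtain ⟨h1, h2⟩ := hx
  rw [ll_zero] at h1
  have h3 : x ≤ 9 / 4 := by unfold RR at h2; linarith [uu_le 0]
  have hu := uu_pos n
  have hq1 : q 1 = 0 := hq.top 1 (by linarith only [uu_le 0])
  have hL : x ≤ 0 ∨ 2 ≤ x → etaL x D = 0 := fun h => by
    rw [etaL, max_eq_left, mul_zero]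
    rcases h with h | h
    · linarith only [neg_le_abs (x - 1), h]
    · linarith [le_abs_self (x - 1)]
  rcases le_total x 2 with h | h
  · have e : max (x - 2) 0 = 0 := max_eq_right (by linarith)
    refine ⟨_, ?_, by simpa only [dist_self] using hu.le, fun _ => rfl⟩
    simp only [eta, rho, e, max_eq_right hu.le, hq.zero, add_zero, hh]
    rcases le_total x 0 with h0 | h0
    · rw [hL (Or.inl h0), add_zero, hq1, add_zero, AddCircle.coe_zero]
      rcases le_total x (-1) with h4 | h4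
      · refine Or.inr (Or.inr ⟨-1 - x, ⟨by linarith only [h4], by linarith⟩, ?_⟩)
        rw [max_eq_left (by linarith only [h4]), min_eq_right (by linarith), max_eq_right zero_le_one]
      · refine Or.inr (Or.inl ⟨-x, ⟨by linarith only [h0], by linarith⟩, ?_⟩)
        rw [max_eq_right (by linarith), min_eq_left (by linarith only [h4]), max_eq_right (by linarith only [h0])]
    · have h5 : 0 ≤ max 0 (1 - |x - 1|) := le_max_left _ _
      have h6 : max 0 (1 - |x - 1|) ≤ 1 := max_le zero_le_one (by linarith only [abs_nonneg (x - 1)])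
      have h7 := uu_pos D
      have h8 := uu_le D
      refine Or.inl ⟨1 + etaL x D, ⟨by unfold etaL; nlinarith only [h6, h7, h8], by unfold etaL; nlinarith only [h5, h8]⟩, ?_⟩
      rw [max_eq_right (by linarith only [h0, h7, h8]), max_eq_left ((min_le_left _ _).trans (by linarith only [h0])),
        zero_add, add_comm 1 (etaL x D), AddCircle.coe_add_period]
  · have e : max (x - 2) 0 = x - 2 := max_eq_left (by linarith)
    rcases h.eq_or_lt with rfl | h'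
    · refine ⟨_, ?_, by simpa only [dist_self] using hu.le, fun _ => rfl⟩
      refine Or.inr (Or.inl ⟨0, ⟨le_rfl, zero_le_one⟩, ?_⟩)
      norm_num only [eta, hL (Or.inr le_rfl), max_self, add_zero, QuotientAddGroup.mk_zero, hh, sup_of_le_right, rho, inf_of_le_left, sup_of_le_left, hq1, max_eq_right hu.le, hq.zero]
    refine ⟨(max (x - 2) (uu n) : ℝ), Or.inl ⟨max (x - 2) (uu n), ⟨hu.trans_le (le_max_right _ _),
      max_le (by linarith only [h3, h']) (by linarith [uu_le n])⟩, ?_⟩, ?_, fun h => absurd h (not_le.2 h')⟩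
    · simp only [rho, e, hL (Or.inr h), add_zero, hq1, hh]
      rw [max_eq_right (show -1 - x ≤ 0 by linarith),
        max_eq_left ((min_le_left (-x) 1).trans (by linarith : -x ≤ 0)), zero_add]
    · refine (b3_dist _ _).trans ?_
      rw [eta, hL (Or.inr h), zero_add, e, abs_le]
      constructor
      · rcases le_total (x - 2) (uu n) with k | k
        · rw [max_eq_right k]; linarith only [h']
        · rw [max_eq_left k]; linarith only [hu]
      · linarith only [le_max_left (x - 2) (uu n), hu]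

theorem b3_xx (t : ℝ) : xx t ∈ Icc (ll 0) (RR 0) := by
  refine Xp_mem ⟨_, rfl⟩ _ _ 0 (Nat.zero_le _) ?_
  have h1 := tri_nonneg (2 * t)
  have h2 := tri_le_one (2 * t)
  have h3 := ll_lt_RR 0 0
  unfold s0
  constructor <;> nlinarith only [h1, h3, h2]

theorem mem_YY {q : ℝ → ℝ} (hq : QSpec q) (L : ℕ → ℕ → Bool) {y : EE} (hy : y ∈ YY q L) :
    (∃ t, 0 < t ∧ y = gam q L t) ∨ y ∈ W0 q := by
  have := b3_gen (b3_closed hq) (S := fun n : ℕ => gam q L '' Icc 0 n)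
    (fun n => (isCompact_Icc.image_of_continuousOn
      ((cont_gam hq L).mono Icc_subset_Ici_self)).isClosed)
    (ε := fun n : ℕ => uu n + 1 / ((n : ℝ) + 1))
    (by simpa only [one_div, add_zero] using b3_uu.add tendsto_one_div_add_atTop_nhds_zero_nat) ?_ hy
  · rcases this with ⟨n, t, ht, rfl⟩ | h
    · rcases ht.1.eq_or_lt with rfl | h
      · obtain ⟨c, h1, -, h2⟩ := b3_near hq (b3_xx 0) (DD L 0) ⌊(0 : ℝ)⌋₊
        have h3 : xx 0 ≤ 2 := by norm_num [xx, Xp, s0, tri_zero, ll_zero]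
        rw [h2 h3] at h1
        refine Or.inr ?_
        simpa only [gam, et, PP, add_zero, one_pow, div_one, zero_mul, sub_zero, Nat.floor_zero, QQ, ne_eq, OfNat.ofNat_ne_zero, not_false_eq_true, zero_pow] using h1
      · exact Or.inl ⟨t, h, rfl⟩
    · exact Or.inr h
  rintro n _ ⟨t, ht, rfl⟩
  have ht0 : 0 ≤ t := ht
  rcases le_total t n with h | h
  · exact Or.inl ⟨t, ⟨ht, h⟩, rfl⟩
  obtain ⟨c, h1, h2, -⟩ := b3_near hq (b3_xx t) (DD L t) ⌊t⌋₊
  refine Or.inr ⟨_, h1, ?_⟩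
  have hu := uu_pos n
  have h3 : uu ⌊t⌋₊ ≤ uu n := uu_anti (Nat.le_floor h)
  have h4 : 1 / (1 + t) ≤ 1 / ((n : ℝ) + 1) :=
    one_div_le_one_div_of_le (by positivity) (by linarith)
  have h5 : PP t ≤ 1 / (1 + t) := by
    rw [PP, div_le_div_iff₀ (by positivity) (by positivity)]
    nlinarith only [pow_nonneg ht0 3, ht0]
  have h6 : QQ t ≤ 1 / (1 + t) := by
    rw [QQ, div_le_div_iff₀ (by positivity) (by positivity)]
    nlinarith only [ht0]
  have h7 : 0 ≤ PP t := by unfold PP; positivity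
  have h8 : 0 ≤ QQ t := by unfold QQ; positivity
  have h9 : max (xx t - 2) 0 ≤ 1 := max_le (by
    have := (b3_xx t).2; unfold RR at this; linarith only [uu_le 0, this]) zero_le_one
  have h10 : 0 ≤ max (xx t - 2) 0 := le_max_right _ _
  have h11 : (0 : ℝ) < 1 / ((n : ℝ) + 1) := by positivity
  simp only [gam, Prod.dist_eq, max_le_iff, Real.dist_eq, sub_zero, sub_self, abs_zero,
    sub_sub_cancel_left, abs_neg, abs_of_nonneg h7, abs_of_nonneg h8,
    abs_of_nonneg (mul_nonneg h7 h10)]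
  refine ⟨h2.trans (by linarith only [h3, h11]), by nlinarith only [hu, h4, h5, h7, h9], by linarith only [hu, h11], by linarith only [hu, h4, h5], by linarith only [hu, h4, h6]⟩

theorem b45_last (L : ℕ → ℕ → Bool) (n ℓ i cap : ℕ) (hc : cap ≤ i + 2 * n + 1) {x : ℝ}
    (hx : x ∈ Icc (ll (i + ℓ)) (RR (i + ℓ))) :
    ∃ s ∈ Icc (ll i) (RR i), Xp (2 * n + 1) ℓ i s = x ∧ Dp L (2 * n + 1) ℓ i cap s = cap := by
  induction ℓ generalizing i with
  | zero => exact ⟨x, hx, rfl, rfl⟩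
  | succ ℓ ih =>
    obtain ⟨s', hs', e1, e2⟩ := ih (i + 1) (by omega) (by rwa [add_right_comm, add_assoc])
    set a := ll (i + 1) with ha
    set b := RR (i + 1) with hb
    have hab : 0 < b - a := sub_pos.2 (ll_lt_RR _ _)
    have hN : (0 : ℝ) < ((2 * n + 1 : ℕ) : ℝ) := by positivity
    set τ := (s' - a) / (b - a) with hτ
    have hτ0 : 0 ≤ τ := div_nonneg (sub_nonneg.2 hs'.1) hab.le
    have hτ1 : τ ≤ 1 := (div_le_one hab).2 (by linarith only [hs'.2])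
    set s := a + (b - a) * ((((2 * n : ℕ) : ℝ) + τ) / ((2 * n + 1 : ℕ) : ℝ)) with hs
    have h01 : (((2 * n : ℕ) : ℝ) + τ) / ((2 * n + 1 : ℕ) : ℝ) ≤ 1 :=
      (div_le_one hN).2 (by push_cast; linarith only [hτ1])
    have h00 : 0 ≤ (((2 * n : ℕ) : ℝ) + τ) / ((2 * n + 1 : ℕ) : ℝ) := by positivity
    have hsm : s ∈ Icc a b := ⟨by nlinarith only [hab, h00], by nlinarith only [hab, h01]⟩
    have hz : zc a b (2 * n + 1) s = ((2 * n : ℕ) : ℝ) + τ := by
      rw [zc_of_mem hsm, hs]; field_simp; ring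
    have hzig : zig a b (2 * n + 1) s = s' := by
      rw [zig_of_mem hsm, hz, tri_even (m := 2 * n) (even_two_mul n) ⟨by linarith only [hτ0], by linarith only [hτ1]⟩,
        add_sub_cancel_left, hτ]
      field_simp; ring
    have hfl : 2 * n ≤ ⌊zc a b (2 * n + 1) s⌋₊ := by
      rw [hz]; exact Nat.le_floor (by linarith only [hτ0])
    have hn : nxt L i cap ⌊zc a b (2 * n + 1) s⌋₊ = cap := by
      unfold nxt; split_ifs; exacts [min_eq_left (by omega), rfl]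
    refine ⟨s, Icc_subset_Icc (ll_mono (Nat.le_succ _)) (RR_anti (Nat.le_succ _)) hsm, ?_, ?_⟩
    · rw [Xp, hzig, e1]
    · rw [Dp, hzig, hn, e2]

theorem b45_s0 (n : ℕ) {s : ℝ} (hs : s ∈ Icc (ll 0) (RR 0)) :
    ∃ t : ℝ, (n : ℝ) ≤ t ∧ ⌊t⌋₊ = n ∧ s0 t = s := by
  have hab : 0 < RR 0 - ll 0 := sub_pos.2 (ll_lt_RR _ _)
  set τ := (s - ll 0) / (RR 0 - ll 0) with hτ
  have hτ0 : 0 ≤ τ := div_nonneg (sub_nonneg.2 hs.1) hab.le
  have hτ1 : τ ≤ 1 := (div_le_one hab).2 (by linarith [hs.2])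
  have hn : (0 : ℝ) ≤ n := Nat.cast_nonneg n
  refine ⟨n + τ / 2, by linarith, (Nat.floor_eq_iff (by linarith)).2 ⟨by linarith, by linarith⟩, ?_⟩
  rw [s0, tri_even (m := 2 * n) (even_two_mul n) ⟨by push_cast; linarith only [hτ0], by push_cast; linarith⟩]
  have : 2 * ((n : ℝ) + τ / 2) - ((2 * n : ℕ) : ℝ) = τ := by push_cast; ring
  rw [this, hτ]; field_simp; ring

theorem b45_lim {q : ℝ → ℝ} {L : ℕ → ℕ → Bool} {a : UnitAddCircle} {b c : ℝ} (n₀ : ℕ)
    (h : ∀ n : ℕ, n₀ ≤ n → ∃ t : ℝ, (n : ℝ) ≤ t ∧ gam q L t = (a, b, c, PP t, QQ t)) :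
    ((a, b, c, 0, 0) : EE) ∈ YY q L := by
  choose! t ht hg using h
  have hT : Tendsto t atTop atTop :=
    tendsto_atTop_mono' _ (eventually_atTop.2 ⟨n₀, ht⟩) tendsto_natCast_atTop_atTop
  have h1 : Tendsto (fun n => (1 + t n)⁻¹) atTop (𝓝 0) :=
    tendsto_inv_atTop_zero.comp (tendsto_atTop_add_const_left _ _ hT)
  have h0 : ∀ᶠ n in atTop, 0 ≤ t n := hT.eventually_ge_atTop 0
  have key : ∀ u v : ℝ, 0 ≤ u → v ≤ (1 + u) ^ 3 → v / (1 + u) ^ 4 ≤ (1 + u)⁻¹ := by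
    intro u v hu hv
    rw [div_le_iff₀ (by positivity), show (1 + u)⁻¹ * (1 + u) ^ 4 = (1 + u) ^ 3 by field_simp]
    exact hv
  have hP : Tendsto (fun n => PP (t n)) atTop (𝓝 0) := by
    refine squeeze_zero' (h0.mono fun n hn => by unfold PP; positivity) (h0.mono fun n hn => ?_) h1
    exact key _ _ hn (by linarith only [mul_nonneg hn hn, mul_nonneg hn (mul_nonneg hn hn), hn])
  have hQ : Tendsto (fun n => QQ (t n)) atTop (𝓝 0) := by
    refine squeeze_zero' (h0.mono fun n hn => by unfold QQ; positivity) (h0.mono fun n hn => ?_) h1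
    exact key _ _ hn (by linarith only [mul_nonneg hn hn, mul_nonneg hn (mul_nonneg hn hn), hn])
  have hlim : Tendsto (fun n => ((a, b, c, PP (t n), QQ (t n)) : EE)) atTop (𝓝 (a, b, c, 0, 0)) :=
    tendsto_const_nhds.prodMk_nhds (tendsto_const_nhds.prodMk_nhds
      (tendsto_const_nhds.prodMk_nhds (hP.prodMk_nhds hQ)))
  refine mem_closure_of_tendsto hlim ?_
  filter_upwards [h0, eventually_ge_atTop n₀] with n h1 h2
  exact ⟨t n, h1, hg n h2⟩

theorem b45_q1 {q : ℝ → ℝ} (hq : QSpec q) : q 1 = 0 :=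
  hq.top 1 ((uu_le 0).trans (by norm_num))

theorem b45_neg {q : ℝ → ℝ} (hq : QSpec q) (L : ℕ → ℕ → Bool) {t : ℝ} (hx : xx t ≤ 0) :
    gam q L t = (0, hh (xx t), max 0 (min (-xx t) 1), PP t, QQ t) := by
  have e1 : max 0 (1 - |xx t - 1|) = 0 :=
    max_eq_left (by rw [abs_of_nonpos (by linarith)]; linarith)
  have e2 : max (xx t - 2) 0 = 0 := max_eq_right (by linarith)
  have e3 : ∀ D, etaL (xx t) D = 0 := fun D => by rw [etaL, e1, mul_zero]
  simp only [gam, et, eta, rho, e2, e3, add_zero, mul_zero, sub_zero, b45_q1 hq,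
    max_eq_right (uu_pos _).le, hq.zero]
  rfl

theorem b45_left {q : ℝ → ℝ} (hq : QSpec q) (L : ℕ → ℕ → Bool) {x : ℝ} (hx : x ∈ Icc (-2 : ℝ) 0) :
    ((0, hh x, max 0 (min (-x) 1), 0, 0) : EE) ∈ YY q L := by
  refine b45_lim 0 fun n _ => ?_
  have hO : Odd (2 * n + 1) := odd_two_mul_add_one n
  obtain ⟨s, hs, e⟩ := intermediate_value_Icc (ll_lt_RR 0 0).le
    (continuous_Xp (2 * n + 1) n 0).continuousOn (a := ll 0) (b := RR 0) (show x ∈ _ from by
      rw [Xp_of_le _ _ _ (ll_mono (Nat.zero_le _)), Xp_of_ge hO _ _ (RR_anti (Nat.zero_le _)),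
        ll_zero]
      exact ⟨hx.1, by linarith only [hx.2, lt_RR 0]⟩)
  obtain ⟨t, h1, h2, h3⟩ := b45_s0 n hs
  have ex : xx t = x := by rw [xx, h2, h3, e]
  exact ⟨t, h1, by rw [b45_neg hq L (ex.trans_le hx.2), ex]⟩

theorem W0_subset {q : ℝ → ℝ} (hq : QSpec q) (L : ℕ → ℕ → Bool) : W0 q ⊆ YY q L := by
  rintro y (⟨v, hv, rfl⟩ | ⟨r, hr, rfl⟩ | ⟨h, hh', rfl⟩)
  · obtain ⟨n₀, hn₀⟩ := exists_pow_lt_of_lt_one hv.1 (show (1 / 2 : ℝ) < 1 by norm_num)
    refine b45_lim n₀ fun n hn => ?_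
    have hu : uu n ≤ v := by
      refine le_trans ?_ hn₀.le
      exact pow_le_pow_of_le_one (by norm_num) (by norm_num) (by omega)
    have hu1 : 0 < 1 - uu n := by linarith only [uu_le n]
    set x := (1 - v) / (1 - uu n) with hx
    have hx0 : 0 ≤ x := div_nonneg (by linarith only [hv.2]) hu1.le
    have hx1 : x ≤ 1 := (div_le_one hu1).2 (by linarith only [hu])
    obtain ⟨s, hs, e1, e2⟩ := b45_last L n n 0 n (by omega) (x := x)
      ⟨by linarith only [ll_lt (0 + n), hx0], by linarith only [lt_RR (0 + n), hx1]⟩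
    obtain ⟨t, h1, h2, h3⟩ := b45_s0 n hs
    have ex : xx t = x := by rw [xx, h2, h3, e1]
    have eD : DD L t = n := by rw [DD, h2, h3, e2]
    have e3 : etaL x n = v - 1 := by
      rw [etaL, abs_of_nonpos (by linarith only [hx1]), max_eq_right (by linarith only [hx0]), hx]
      field_simp; ring
    have e4 : max (x - 2) 0 = 0 := max_eq_right (by linarith only [hx1])
    have e5 : hh x = 0 := max_eq_right (by linarith only [hx0])
    have e6 : max 0 (min (-x) 1) = 0 := max_eq_left ((min_le_left _ _).trans (by linarith only [hx0]))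
    have e7 : ((v - 1 : ℝ) : UnitAddCircle) = (v : UnitAddCircle) := by
      rw [AddCircle.coe_sub, AddCircle.coe_period, sub_zero]
    refine ⟨t, h1, ?_⟩
    simp only [gam, et, eta, rho, ex, eD, e3, e4, e5, e6, e7, add_zero, mul_zero, sub_zero,
      zero_add, add_sub_cancel, max_eq_right (uu_pos _).le, hq.zero]
  · have := b45_left hq L (x := -r) ⟨by linarith [hr.2], by linarith [hr.1]⟩
    rwa [hh, max_eq_right (by linarith [hr.2]), neg_neg, min_eq_left hr.2, max_eq_right hr.1] at this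
  · have := b45_left hq L (x := -1 - h) ⟨by linarith [hh'.2], by linarith [hh'.1]⟩
    rwa [hh, max_eq_left (by linarith [hh'.1]), min_eq_right (by linarith [hh'.1]),
      max_eq_right zero_le_one, show -1 - (-1 - h) = h by ring] at this

/-- parametrisation of `W0` by the negative half line -/
def b45_w (q : ℝ → ℝ) (r : ℝ) : EE :=
  ((((max 1 (-1 - r))⁻¹ : ℝ) : UnitAddCircle), max 0 (1 + r),
    max 0 (min (2 + r) 1) + q (max 1 (-1 - r))⁻¹, 0, 0)

theorem b45_v (r : ℝ) : (max 1 (-1 - r))⁻¹ ∈ Ioc (0 : ℝ) 1 :=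
  ⟨inv_pos.2 (lt_max_of_lt_left one_pos), inv_le_one_of_one_le₀ (le_max_left _ _)⟩

theorem b45_w_cont {q : ℝ → ℝ} (hq : QSpec q) : Continuous (b45_w q) := by
  have hv : Continuous fun r : ℝ => (max 1 (-1 - r))⁻¹ :=
    Continuous.inv₀ (by fun_prop) fun r => (lt_max_of_lt_left one_pos).ne'
  have hqv : Continuous fun r : ℝ => q (max 1 (-1 - r))⁻¹ :=
    hq.cont.comp_continuous hv fun r => (b45_v r).1
  refine ((AddCircle.continuous_mk' 1).comp hv).prodMk (Continuous.prodMk (by fun_prop)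
    (Continuous.prodMk (Continuous.add (by fun_prop) hqv) continuous_const))

theorem b45_w_ge {q : ℝ → ℝ} (hq : QSpec q) {r : ℝ} (hr : -2 ≤ r) :
    b45_w q r = (0, max 0 (1 + r), min (2 + r) 1, 0, 0) := by
  rw [b45_w, max_eq_left (show -1 - r ≤ 1 by linarith), inv_one, b45_q1 hq, add_zero,
    AddCircle.coe_period, max_eq_right (le_min (by linarith) zero_le_one)]

theorem b45_w_le (q : ℝ → ℝ) {r : ℝ} (hr : r ≤ -2) :
    b45_w q r = ((((max 1 (-1 - r))⁻¹ : ℝ) : UnitAddCircle), 0, q (max 1 (-1 - r))⁻¹, 0, 0) := by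
  rw [b45_w, max_eq_left (show 1 + r ≤ 0 by linarith),
    max_eq_left ((min_le_left _ _).trans (show 2 + r ≤ 0 by linarith)), zero_add]

theorem b45_w_inj (q : ℝ → ℝ) : Function.Injective (b45_w q) := by
  intro r r' h
  simp only [b45_w, Prod.mk.injEq] at h
  obtain ⟨h1, h2, h3, -⟩ := h
  have e1 : (max 1 (-1 - r))⁻¹ = (max 1 (-1 - r'))⁻¹ :=
    (AddCircle.coe_eq_coe_iff_of_mem_Ioc (p := 1) (a := 0) (by simpa only [zero_add, mem_Ioc, inv_pos, lt_sup_iff, zero_lt_one, sub_pos, true_or, true_and] using b45_v r)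
      (by simpa only [zero_add, mem_Ioc, inv_pos, lt_sup_iff, zero_lt_one, sub_pos, true_or, true_and] using b45_v r')).1 h1
  rw [e1, add_left_inj] at h3
  have e2 := inv_injective e1
  have key : ∀ r : ℝ, r = -1 - max 1 (-1 - r) + max 0 (min (2 + r) 1) + max 0 (1 + r) := by
    intro r
    simp only [max_def, min_def]
    split_ifs <;> linarith
  rw [key r, key r', ← e2, ← h2, ← h3]

theorem b45_PP {t : ℝ} (ht : 0 < t) : 0 < PP t := by unfold PP; positivity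

theorem exists_param {q : ℝ → ℝ} (hq : QSpec q) (L : ℕ → ℕ → Bool) : ∃ f : ℝ → EE,
    Continuous f ∧ Function.Injective f ∧ range f = W0 q ∪ gam q L '' Ioi 0 := by
  refine ⟨fun r => if r ≤ 0 then b45_w q r else gam q L r, ?_, ?_, ?_⟩
  · refine continuous_if_le continuous_id continuous_const (b45_w_cont hq).continuousOn
      (cont_gam hq L) ?_
    rintro _ rfl
    have ex : xx 0 = -2 := by simp [xx, Xp, s0, tri_zero, ll_zero]
    rw [b45_neg hq L (by rw [ex]; norm_num), ex, b45_w_ge hq (by norm_num)]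
    norm_num [hh, PP, QQ]
  · intro r r' h
    dsimp only at h
    split_ifs at h with h1 h2 h2
    · exact b45_w_inj q h
    · exact absurd (congrArg (fun y : EE => y.2.2.2.1) h) (b45_PP (not_le.1 h2)).ne
    · exact absurd (congrArg (fun y : EE => y.2.2.2.1) h) (b45_PP (not_le.1 h1)).ne'
    · have e1 : PP r = PP r' := congrArg (fun y : EE => y.2.2.2.1) h
      have e2 : QQ r = QQ r' := congrArg (fun y : EE => y.2.2.2.2) h
      have k : ∀ t : ℝ, QQ t = t * PP t := fun t => by unfold PP QQ; ring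
      rw [k, k, e1] at e2
      exact mul_right_cancel₀ (b45_PP (not_le.1 h2)).ne' e2
  · ext y
    constructor
    · rintro ⟨r, rfl⟩
      dsimp only
      split_ifs with h
      · left
        rcases le_total r (-2) with h2 | h2
        · exact Or.inl ⟨_, b45_v r, b45_w_le q h2⟩
        rw [b45_w_ge hq h2]
        rcases le_total r (-1) with h1 | h1
        · exact Or.inr (Or.inl ⟨2 + r, ⟨by linarith, by linarith⟩, by
            rw [max_eq_left (by linarith), min_eq_left (by linarith)]⟩)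
        · exact Or.inr (Or.inr ⟨1 + r, ⟨by linarith, by linarith⟩, by
            rw [max_eq_right (by linarith), min_eq_right (by linarith)]⟩)
      · exact Or.inr ⟨r, not_le.1 h, rfl⟩
    · rintro ((⟨v, hv, rfl⟩ | ⟨r, hr, rfl⟩ | ⟨h, hh', rfl⟩) | ⟨t, ht, rfl⟩)
      · have h1 : 1 ≤ v⁻¹ := (one_le_inv₀ hv.1).2 hv.2
        refine ⟨-1 - v⁻¹, ?_⟩
        dsimp only
        rw [if_pos (by linarith), b45_w_le q (by linarith), show -1 - (-1 - v⁻¹) = v⁻¹ by ring,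
          max_eq_right h1, inv_inv]
      · refine ⟨r - 2, ?_⟩
        dsimp only
        rw [if_pos (by linarith [hr.2]), b45_w_ge hq (by linarith [hr.1]),
          max_eq_left (by linarith [hr.2]), min_eq_left (by linarith [hr.2]),
          show 2 + (r - 2) = r by ring]
      · refine ⟨h - 1, ?_⟩
        dsimp only
        rw [if_pos (by linarith [hh'.2]), b45_w_ge hq (by linarith [hh'.1]),
          max_eq_right (by linarith [hh'.1]), min_eq_right (by linarith [hh'.1]),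
          show 1 + (h - 1) = h by ring]
      · exact ⟨t, if_neg (not_le.2 ht)⟩

theorem b6_etaL_out {x : ℝ} (D : ℕ) (h : x ≤ 0 ∨ 2 ≤ x) : etaL x D = 0 := by
  have : 1 - |x - 1| ≤ 0 := by
    rcases h with h | h
    · rw [abs_of_nonpos (by linarith)]; linarith
    · rw [abs_of_nonneg (by linarith)]; linarith
  rw [etaL, max_eq_left this, mul_zero]

theorem b6_w_mem (x : ℝ) (D : ℕ) : 1 + etaL x D ∈ Icc (uu D) 1 := by
  have h1 : 0 ≤ max 0 (1 - |x - 1|) := le_max_left _ _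
  have h2 : max 0 (1 - |x - 1|) ≤ 1 := max_le zero_le_one (by linarith [abs_nonneg (x - 1)])
  have h3 := uu_le D
  unfold etaL
  constructor <;> nlinarith

theorem b6_cont_w (D : ℕ) : Continuous fun x => 1 + etaL x D := by
  unfold etaL; fun_prop

theorem b6_vL_ge (q : ℝ → ℝ) (k : ℕ) {v : ℝ} (h : uu k ≤ v) : vL q k v = q v := by
  rw [vL, max_eq_left h, max_eq_left (by linarith), zero_div, add_zero]

/-- the map on the bridge -/
theorem b6_S {q : ℝ → ℝ} (hq : QSpec q) (k : ℕ) {ρS : ℝ → ℝ} (hSc : Continuous ρS)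
    (hS : ∀ v, uu (k + 1) ≤ v → ρS v = q v) (hS0 : ρS 0 = 0)
    (hSm : ∀ v, 0 ≤ v → ρS v ∈ Icc (0 : ℝ) 1) :
    ∃ σ : ℝ → ℝ, Continuous σ ∧ σ 0 = 0 ∧ (∀ v, uu k ≤ v → σ v = v) ∧
      ∀ v, 0 ≤ v → (v ≤ uu k → σ v ∈ Icc 0 (uu k)) ∧ ρS v = vS q k (σ v) := by
  obtain ⟨c, ⟨hc1, hc2⟩, hc⟩ := hq.one k
  have hu := uu_pos k
  have hu' := uu_pos (k + 1)
  have e1 : ρS c = 1 := by rw [hS c hc1.le, hc]
  have e0 : ρS (uu k) = 0 := by rw [hS _ (hc1.trans hc2).le, hq.zero]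
  have hge : ∀ v, uu k ≤ v → uu k / 2 * ρS (min v c) + uu k / 2 * (1 - ρS (max c (min v (uu k)))) +
      max (v - uu k) 0 = v := fun v hv => by
    rw [min_eq_right (hc2.le.trans hv), min_eq_right hv, max_eq_right hc2.le, e1, e0,
      max_eq_left (by linarith)]; ring
  refine ⟨fun v => uu k / 2 * ρS (min v c) + uu k / 2 * (1 - ρS (max c (min v (uu k)))) +
    max (v - uu k) 0, by fun_prop, ?_, hge, fun v hv => ?_⟩
  · simp only
    rw [min_eq_left (by linarith), min_eq_left hu.le, max_eq_left (by linarith), hS0, e1,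
      max_eq_right (by linarith)]; ring
  obtain ⟨m0, m1⟩ := hSm v hv
  rcases le_total (uu k) v with h | h
  · simp only [hge v h]
    refine ⟨fun h' => ⟨hv, h'⟩, ?_⟩
    have : tri 2 = 0 := by simpa using tri_nat_even (m := 2) ⟨1, rfl⟩
    rw [vS, max_eq_left h, min_eq_right h, mul_div_assoc, div_self hu.ne', mul_one, this, add_zero,
      hS v ((hc1.trans hc2).le.trans h)]
  have key : ∀ s, s ∈ Icc 0 (uu k) → tri (2 * s / uu k) = ρS v →
      (v ≤ uu k → s ∈ Icc 0 (uu k)) ∧ ρS v = vS q k s := fun s hs ht =>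
    ⟨fun _ => hs, by rw [vS, max_eq_right hs.2, min_eq_left hs.2, hq.zero, ht, zero_add]⟩
  simp only
  rw [min_eq_left h, max_eq_right (show v - uu k ≤ 0 by linarith only [h])]
  rcases le_total v c with h' | h'
  · rw [min_eq_left h', max_eq_left h', e1]
    refine key _ ⟨by nlinarith only [hu, m0], by nlinarith only [hu, m1]⟩ ?_
    rw [show 2 * (uu k / 2 * ρS v + uu k / 2 * (1 - 1) + 0) / uu k = ρS v by field_simp; ring,
      tri_even (m := 0) ⟨0, rfl⟩ ⟨by simpa only [CharP.cast_eq_zero] using m0, by simpa using m1⟩]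
    simp
  · rw [min_eq_right h', max_eq_right h', e1]
    refine key _ ⟨by nlinarith only [hu, m1], by nlinarith only [hu, m0]⟩ ?_
    rw [show 2 * (uu k / 2 * 1 + uu k / 2 * (1 - ρS v) + 0) / uu k = 2 - ρS v by field_simp; ring,
      tri_odd (m := 1) ⟨0, rfl⟩ ⟨by push_cast; linarith, by push_cast; linarith⟩]
    push_cast; ring

/-- the map on the excursion round the loop -/
theorem b6_L {q : ℝ → ℝ} (hq : QSpec q) (k : ℕ) {ρL : ℝ → ℝ} (hLc : ContinuousOn ρL (Ioi 0))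
    (hL : ∀ v, uu (k + 1) ≤ v → ρL v = q v) (D : ℕ) :
    ∃ l : ℝ → ℝ, Continuous l ∧ (∀ x, x ≤ 0 → l x = 0) ∧ (∀ x, 2 ≤ x → l x = 2) ∧
      ((∀ v, uu D ≤ v → ρL v ∈ Icc (0 : ℝ) 1) → ∀ x ∈ Icc (0 : ℝ) 2, l x ∈ Icc (0 : ℝ) 2 ∧
        |etaL x D - etaL (l x) (min D (k + 1))| ≤ uu k ∧
        ρL (1 + etaL x D) = vL q k (1 + etaL (l x) (min D (k + 1)))) := by
  have hu := uu_pos k
  have hu' := uu_pos (k + 1)
  have hle : uu (k + 1) ≤ uu k := uu_anti (Nat.le_succ k)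
  rcases le_or_gt D k with hD | hD
  · refine ⟨fun x => max 0 (min x 2), by fun_prop, fun x hx => max_eq_left ((min_le_left _ _).trans hx),
      fun x hx => by simp only; rw [min_eq_right hx]; norm_num, fun _ x hx => ?_⟩
    have h1 := (uu_anti hD).trans (b6_w_mem x D).1
    simp only
    rw [min_eq_left hx.2, max_eq_right hx.1, min_eq_left (by omega), sub_self, abs_zero,
      b6_vL_ge q k h1, hL _ (hle.trans h1)]
    exact ⟨hx, hu.le, rfl⟩
  obtain ⟨c, ⟨hc1, hc2⟩, hc⟩ := hq.one k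
  have hD' : uu D ≤ uu (k + 1) := uu_anti hD
  have h4 := uu_le k
  have hD0 := uu_pos D
  have e1 : ρL c = 1 := by rw [hL c hc1.le, hc]
  have e0 : ρL (uu k) = 0 := by rw [hL _ hle, hq.zero]
  set τ : ℝ → ℝ := fun x => max (1 + etaL x D) (uu k) -
    (uu k - uu (k + 1)) * ρL (min (1 + etaL x D) (uu k)) with hτ
  set A : ℝ → ℝ := fun x => (τ x - uu (k + 1)) / (1 - uu (k + 1)) with hA
  have cτ : Continuous τ := by
    have : Continuous fun x => ρL (min (1 + etaL x D) (uu k)) :=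
      hLc.comp_continuous ((b6_cont_w D).min continuous_const) fun x =>
        lt_min (hD0.trans_le (b6_w_mem x D).1) hu
    exact ((b6_cont_w D).max continuous_const).sub (continuous_const.mul this)
  have cA : Continuous A := (cτ.sub continuous_const).div_const _
  have hp : 0 < 1 - uu (k + 1) := by linarith only [hc1, hc2, h4]
  set y : ℝ := (1 - c) / (1 - uu D) with hy
  have hpD : 0 < 1 - uu D := by linarith only [hu', hc1, hc2, hD', h4]
  have y0 : 0 ≤ y := div_nonneg (by linarith only [hu', hc1, hc2, h4]) hpD.le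
  have y1 : y ≤ 1 := by rw [hy, div_le_one hpD]; linarith only [hc1, hD']
  have wy : 1 + etaL y D = c := by
    rw [etaL, abs_of_nonpos (by linarith only [y1]), max_eq_right (by linarith only [y0]),
      show 1 - -(y - 1) = y by ring, hy]
    field_simp; ring
  have Ay : A y = 0 := by
    simp only [hA, hτ, wy]
    rw [max_eq_right hc2.le, min_eq_left hc2.le, e1]; simp
  have Aout : ∀ x, x ≤ 0 ∨ 2 ≤ x → A x = 1 := fun x hx => by
    simp only [hA, hτ, b6_etaL_out D hx]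
    rw [add_zero, max_eq_left (by linarith only [hu', hc1, hc2, h4]), min_eq_right (by linarith only [hu', hc1, hc2, h4]), e0, mul_zero, sub_zero,
      div_self hp.ne']
  refine ⟨fun x => 1 - A (min x y) + A (max x y), by fun_prop, fun x hx => ?_, fun x hx => ?_,
    fun hm x hx => ?_⟩
  · simp only
    rw [min_eq_left (hx.trans y0), max_eq_right (hx.trans y0), Ay, Aout x (Or.inl hx)]; ring
  · simp only
    rw [min_eq_right (by linarith only [hu', hc1, hc2, h4, y1, hx]), max_eq_left (by linarith only [hu', hc1, hc2, h4, y1, hx]), Ay, Aout x (Or.inr hx)]; ring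
  obtain ⟨w1, w2⟩ := b6_w_mem x D
  have hτx : τ x ∈ Icc (uu (k + 1)) 1 ∧ |1 + etaL x D - τ x| ≤ uu k ∧
      ρL (1 + etaL x D) = vL q k (τ x) := by
    simp only [hτ]
    rcases le_total (uu k) (1 + etaL x D) with h | h
    · rw [max_eq_left h, min_eq_right h, e0, mul_zero, sub_zero, sub_self, abs_zero,
        b6_vL_ge q k h, hL _ (hle.trans h)]
      exact ⟨⟨hle.trans h, w2⟩, hu.le, rfl⟩
    · obtain ⟨m0, m1⟩ := hm _ w1
      have hd : 0 < uu k - uu (k + 1) := by linarith only [hc1, hc2]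
      have := mul_nonneg hd.le m0
      rw [max_eq_right h, min_eq_left h]
      refine ⟨⟨by nlinarith only [hle, m1], by linarith only [hu', hc1, hc2, h4, this]⟩, abs_le.2 ⟨by linarith only [hD0, w1, this], by nlinarith only [hu, hu', h, m0, m1]⟩, ?_⟩
      rw [vL, max_eq_right (by linarith only [this]), hq.zero, max_eq_right (by linarith only [this]), zero_add]
      field_simp; ring
  obtain ⟨⟨t1, t2⟩, t3, t4⟩ := hτx
  have A0 : 0 ≤ A x := div_nonneg (by linarith only [t1]) hp.le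
  have A1 : A x ≤ 1 := by simp only [hA]; rw [div_le_one hp]; linarith only [t2]
  have hl : |1 - A (min x y) + A (max x y) - 1| = A x := by
    rcases le_total x y with h | h
    · rw [min_eq_left h, max_eq_right h, Ay, abs_of_nonpos (by linarith only [A0])]; ring
    · rw [min_eq_right h, max_eq_left h, Ay, abs_of_nonneg (by linarith only [A0])]; ring
  have he : 1 + etaL (1 - A (min x y) + A (max x y)) (k + 1) = τ x := by
    rw [etaL, hl, max_eq_right (by linarith only [A1])]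
    simp only [hA]; field_simp; ring
  have hb := abs_le.1 (hl.le.trans A1)
  simp only
  rw [min_eq_right (show k + 1 ≤ D from hD), he]
  refine ⟨⟨by linarith only [hb.1], by linarith only [hb.2]⟩, ?_, t4⟩
  rw [← he] at t3
  simpa only [add_sub_add_left_eq_sub] using t3

theorem XI {q : ℝ → ℝ} (hq : QSpec q) (k : ℕ) {ρL ρS : ℝ → ℝ} (hLc : ContinuousOn ρL (Ioi 0))
    (hSc : Continuous ρS) (hL : ∀ v, uu (k + 1) ≤ v → ρL v = q v)
    (hS : ∀ v, uu (k + 1) ≤ v → ρS v = q v) (hS0 : ρS 0 = 0) {cap : ℕ}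
    (hLm : ∀ v, uu cap ≤ v → ρL v ∈ Icc (0 : ℝ) 1) (hSm : ∀ v, 0 ≤ v → ρS v ∈ Icc (0 : ℝ) 1) :
    ∃ ξ : ℝ → ℕ → ℝ, (∀ D, Continuous fun x => ξ x D) ∧
      (∀ x D D', x ∉ Ioo (0 : ℝ) 2 → ξ x D = ξ x D') ∧
      (∀ x D, x ≤ 0 ∨ RR k ≤ x → ξ x D = x) ∧
      ∀ x, ∀ D ≤ cap, (x ∈ Icc 0 (RR k) → ξ x D ∈ Icc 0 (RR k)) ∧
        |eta x D - eta (ξ x D) (min D (k + 1))| ≤ uu k ∧
        rho ρL ρS x D = rho (vL q k) (vS q k) (ξ x D) (min D (k + 1)) := by
  obtain ⟨σ, cσ, σ0, σ1, σ2⟩ := b6_S hq k hSc hS hS0 hSm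
  choose l cl l0 l2 l1 using b6_L hq k hLc hL
  have hu := uu_pos k
  have h4 := uu_le k
  have q1 : q 1 = 0 := hq.top 1 (by linarith only [uu_le 0])
  have r1 : ρL 1 = vL q k 1 := by
    rw [b6_vL_ge q k (by linarith only [hu, h4]), hL 1 (by linarith [uu_le (k + 1)])]
  have r0 : ρS 0 = vS q k 0 := by simpa [σ0] using (σ2 0 le_rfl).2
  have x0 : ∀ x D, x ≤ 0 → min x 0 + l D x + σ (max (x - 2) 0) = x := fun x D h => by
    rw [min_eq_left h, l0 D x h, max_eq_right (by linarith), σ0]; ring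
  have x2 : ∀ x D, 2 ≤ x → min x 0 + l D x + σ (max (x - 2) 0) = 2 + σ (x - 2) := fun x D h => by
    rw [min_eq_right (by linarith), l2 D x h, max_eq_left (by linarith only [h])]; ring
  refine ⟨fun x D => min x 0 + l D x + σ (max (x - 2) 0), fun D => ?_, fun x D D' h => ?_,
    fun x D h => ?_, fun x D hD => ?_⟩
  · have := cl D
    fun_prop
  · rcases le_or_gt x 0 with h1 | h1
    · simp only [x0 x _ h1]
    · simp only [x2 x _ (not_lt.1 fun h2 => h ⟨h1, h2⟩)]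
  · rcases h with h | h
    · exact x0 x D h
    · unfold RR at h
      simp only [x2 x D (by linarith only [hu, h])]
      rw [σ1 _ (by linarith only [h])]; ring
  rcases le_total x 0 with h | h
  · simp only [x0 x D h]
    simp only [eta, rho, b6_etaL_out _ (Or.inl h), add_zero, r1,
      max_eq_right (show x - 2 ≤ 0 by linarith only [hu, h4, h]), r0, sub_self, abs_zero]
    exact ⟨id, hu.le, trivial⟩
  rcases le_total x 2 with h' | h'
  · obtain ⟨⟨a1, a2⟩, a3, a4⟩ := l1 D (fun v hv => hLm v ((uu_anti hD).trans hv)) x ⟨h, h'⟩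
    simp only [eta, rho, min_eq_right h, max_eq_right (show x - 2 ≤ 0 by linarith only [h']), σ0, zero_add,
      add_zero, max_eq_right (show l D x - 2 ≤ 0 by linarith only [a2]), r0, a4,
      max_eq_left ((min_le_left (-x) 1).trans (neg_nonpos.2 h)),
      max_eq_left ((min_le_left (-l D x) 1).trans (neg_nonpos.2 a1))]
    exact ⟨fun _ => ⟨a1, a2.trans (lt_RR k).le⟩, a3, trivial⟩
  · obtain ⟨a1, a2⟩ := σ2 (x - 2) (by linarith only [h'])
    have a3 : 0 ≤ σ (x - 2) ∧ |x - 2 - σ (x - 2)| ≤ uu k := by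
      rcases le_total (uu k) (x - 2) with h1 | h1
      · rw [σ1 _ h1, sub_self, abs_zero]; exact ⟨by linarith only [hu, h1], hu.le⟩
      · obtain ⟨b1, b2⟩ := a1 h1
        exact ⟨b1, abs_le.2 ⟨by linarith only [h', b2], by linarith only [h1, b1]⟩⟩
    simp only [x2 x D h']
    simp only [eta, rho, b6_etaL_out _ (Or.inr h'),
      b6_etaL_out _ (Or.inr (show 2 ≤ 2 + σ (x - 2) by linarith only [a3.1])), add_zero, zero_add, r1,
      max_eq_left (show 0 ≤ x - 2 by linarith only [h']), add_sub_cancel_left, max_eq_left a3.1, a2,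
      max_eq_left ((min_le_left (-x) 1).trans (neg_nonpos.2 h)),
      max_eq_left ((min_le_left (-(2 + σ (x - 2))) 1).trans
        (show -(2 + σ (x - 2)) ≤ 0 by linarith only [a3.1, hu, h4]))]
    refine ⟨fun hx => ⟨by linarith only [a3.1, hu, h4], ?_⟩, a3.2, trivial⟩
    have := hx.2
    unfold RR at this ⊢
    linarith only [(a1 (by linarith only [this])).2]

/-- the point of branch `m` with zigzag value `τ` -/
def b7_br (m : ℕ) (τ : ℝ) : ℝ := if Even m then m + τ else m + 1 - τ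

theorem b7_br_cont (m : ℕ) : Continuous (b7_br m) := by
  unfold b7_br; split_ifs <;> fun_prop

theorem b7_br_mem (m : ℕ) {τ : ℝ} (h : τ ∈ Icc (0 : ℝ) 1) : b7_br m τ ∈ Icc (m : ℝ) (m + 1) := by
  unfold b7_br; split_ifs <;> constructor <;> linarith [h.1, h.2]

theorem b7_tri (m : ℕ) {τ : ℝ} (h : τ ∈ Icc (0 : ℝ) 1) : tri (b7_br m τ) = τ := by
  rcases Nat.even_or_odd m with hm | hm
  · rw [tri_even hm (b7_br_mem m h), b7_br, if_pos hm]; ring
  · rw [tri_odd hm (b7_br_mem m h), b7_br, if_neg (Nat.not_even_iff_odd.2 hm)]; ring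

theorem b7_floor (m : ℕ) {τ : ℝ} (h : τ ∈ Ioo (0 : ℝ) 1) : ⌊b7_br m τ⌋₊ = m := by
  have h0 : (0 : ℝ) ≤ m := Nat.cast_nonneg m
  rw [Nat.floor_eq_iff (h0.trans (b7_br_mem m (Ioo_subset_Icc_self h)).1)]
  unfold b7_br; split_ifs <;> constructor <;> linarith [h.1, h.2]

theorem b7_match (k m : ℕ) : b7_br (min (m + 1) (2 * k)) (tri (m + 1 : ℕ)) =
    b7_br (min m (2 * k)) (tri (m + 1 : ℕ)) := by
  rcases le_or_gt (2 * k) m with h | h
  · rw [min_eq_right h, min_eq_right (by omega)]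
  rw [min_eq_left h.le, min_eq_left (by omega)]
  rcases Nat.even_or_odd m with hm | hm
  · rw [tri_nat_odd hm.add_one, b7_br, b7_br, if_pos hm,
      if_neg (Nat.not_even_iff_odd.2 hm.add_one)]
    push_cast; ring
  · rw [tri_nat_even hm.add_one, b7_br, b7_br, if_pos hm.add_one,
      if_neg (Nat.not_even_iff_odd.2 hm)]
    push_cast; ring

theorem b7_ind (L : ℕ → ℕ → Bool) (k cap : ℕ) (ξ : ℝ → ℕ → ℝ)
    (h1 : ∀ D, Continuous fun x => ξ x D) (h2 : ∀ x D D', x ∉ Ioo (0 : ℝ) 2 → ξ x D = ξ x D')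
    (h3 : ∀ x D, x ≤ 0 ∨ RR k ≤ x → ξ x D = x)
    (h4 : ∀ x, ∀ D ≤ cap, x ∈ Icc 0 (RR k) → ξ x D ∈ Icc 0 (RR k)) (ℓ : ℕ) :
    ∀ i, i + ℓ = k → ∀ c ≤ cap, ∃ G : ℝ → ℝ, Continuous G ∧
      (∀ s, s ≤ ll i ∨ RR i ≤ s → G s = s) ∧ MapsTo G (Icc (ll i) (RR i)) (Icc (ll i) (RR i)) ∧
      ∀ s, Xp (2 * k + 1) ℓ i (G s) = ξ (Xp (2 * (k + 1) + 1) (ℓ + 1) i s)
          (Dp L (2 * (k + 1) + 1) (ℓ + 1) i c s) ∧
        (Xp (2 * k + 1) ℓ i (G s) ∈ Ioo (0 : ℝ) 2 → Dp L (2 * k + 1) ℓ i (min c (k + 1)) (G s) =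
          min (Dp L (2 * (k + 1) + 1) (ℓ + 1) i c s) (k + 1)) := by
  have hN : Odd (2 * (k + 1) + 1) := ⟨k + 1, rfl⟩
  have hN' : Odd (2 * k + 1) := ⟨k, rfl⟩
  induction ℓ with
  | zero =>
    intro i hi c hc
    obtain rfl : i = k := by omega
    refine ⟨fun s => ξ (Xp (2 * (i + 1) + 1) 1 i s) (Dp L (2 * (i + 1) + 1) 1 i c s),
      cont_XD ξ L hN h1 h2 1 i c, ?_, ?_, fun s => ⟨rfl, fun _ => ?_⟩⟩
    · rintro s (h | h)
      · simp only [Xp_of_le _ _ _ (h.trans (ll_mono (Nat.le_succ i)))]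
        exact h3 _ _ (Or.inl (by linarith only [ll_lt i, h]))
      · simp only [Xp_of_ge hN _ _ ((RR_anti (Nat.le_succ i)).trans h)]
        exact h3 _ _ (Or.inr h)
    · intro s hs
      have hx := Xp_mem hN 1 i i (Nat.le_succ i) hs
      rcases le_total (Xp (2 * (i + 1) + 1) 1 i s) 0 with h | h
      · simp only [h3 _ _ (Or.inl h)]; exact hx
      · exact Icc_subset_Icc_left (by linarith only [ll_lt i])
          (h4 _ _ ((Dp_le _ _ _ _ _ _).trans hc) ⟨h, hx.2⟩)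
    · simp only [Dp, nxt]
      split_ifs <;> omega
  | succ ℓ ih =>
    intro i hi c hc
    choose! H hH using ih (i + 1) (by omega)
    set a := ll (i + 1) with ha
    set b := RR (i + 1) with hb
    have hab : a < b := ll_lt_RR _ _
    have hba : b - a ≠ 0 := (sub_pos.2 hab).ne'
    have hk : ((2 * k + 1 : ℕ) : ℝ) ≠ 0 := by positivity
    have hc' : ∀ m, nxt L i c m ≤ cap := fun m => (nxt_le L i c m).trans hc
    set z := zc a b (2 * (k + 1) + 1) with hz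
    set τ : ℕ → ℝ → ℝ := fun m s => (H (nxt L i c m) (a + (b - a) * tri (z s)) - a) / (b - a)
      with hτ
    set F : ℕ → ℝ → ℝ := fun m s => s - max a (min s b) + a +
      (b - a) * b7_br (min m (2 * k)) (τ m s) / (2 * k + 1 : ℕ) with hF
    have hτe : ∀ m s (n : ℕ), z s = n → τ m s = tri n := by
      intro m s n e
      simp only [hτ, e]
      rcases Nat.even_or_odd n with hn | hn
      · rw [tri_nat_even hn, mul_zero, add_zero, (hH _ (hc' m)).2.1 a (Or.inl le_rfl), sub_self,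
          zero_div]
      · rw [tri_nat_odd hn, show a + (b - a) * 1 = b by ring, (hH _ (hc' m)).2.1 b (Or.inr le_rfl),
          div_self hba]
    have hle : ∀ s, s ≤ a → F ⌊z s⌋₊ s = s := by
      intro s h
      have e : z s = (0 : ℕ) := by rw [hz, zc_of_le h]; simp
      simp only [hF, hτe _ _ _ e]
      rw [e, max_eq_left ((min_le_left _ _).trans h)]
      simp only [sub_add_cancel, b7_br, CharP.cast_eq_zero, Nat.floor_zero, zero_le, inf_of_le_left, Even.zero, ↓ reduceIte, tri_zero, add_zero, mul_zero, Nat.cast_add, Nat.cast_mul, Nat.cast_ofNat, Nat.cast_one, zero_div]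
    have hge : ∀ s, b ≤ s → F ⌊z s⌋₊ s = s := by
      intro s h
      have e : z s = (2 * (k + 1) + 1 : ℕ) := by rw [hz, zc_of_ge hab h]
      simp only [hF, hτe _ _ _ e]
      rw [e, Nat.floor_natCast, tri_nat_odd hN, min_eq_right h, max_eq_right hab.le,
        min_eq_right (by omega), b7_br, if_pos (even_two_mul k)]
      push_cast at hk ⊢
      field_simp
      ring
    have hin : ∀ s ∈ Icc a b, F ⌊z s⌋₊ s ∈ Icc a b ∧ τ ⌊z s⌋₊ s ∈ Icc (0 : ℝ) 1 ∧
        zc a b (2 * k + 1) (F ⌊z s⌋₊ s) = b7_br (min ⌊z s⌋₊ (2 * k)) (τ ⌊z s⌋₊ s) := by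
      intro s hs
      have hy := (hH _ (hc' ⌊z s⌋₊)).2.2.1 (zig_mem (N := 2 * (k + 1) + 1) hs)
      rw [zig_of_mem hs] at hy
      have t1 : τ ⌊z s⌋₊ s ∈ Icc (0 : ℝ) 1 :=
        ⟨div_nonneg (sub_nonneg.2 hy.1) (sub_pos.2 hab).le,
          (div_le_one (sub_pos.2 hab)).2 (sub_le_sub_right hy.2 _)⟩
      have t2 := b7_br_mem (min ⌊z s⌋₊ (2 * k)) t1
      have t3 : ((min ⌊z s⌋₊ (2 * k) : ℕ) : ℝ) + 1 ≤ (2 * k + 1 : ℕ) := by
        exact_mod_cast Nat.succ_le_succ (min_le_right _ _)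
      have t4 : b7_br (min ⌊z s⌋₊ (2 * k)) (τ ⌊z s⌋₊ s) / (2 * k + 1 : ℕ) ∈ Icc (0 : ℝ) 1 :=
        ⟨div_nonneg ((Nat.cast_nonneg _).trans t2.1) (Nat.cast_nonneg _),
          (div_le_one (by positivity)).2 (t2.2.trans t3)⟩
      have e : F ⌊z s⌋₊ s =
          a + (b - a) * (b7_br (min ⌊z s⌋₊ (2 * k)) (τ ⌊z s⌋₊ s) / (2 * k + 1 : ℕ)) := by
        simp only [hF]
        rw [min_eq_left hs.2, max_eq_right hs.1]; ring
      have m1 : F ⌊z s⌋₊ s ∈ Icc a b := by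
        rw [e]; constructor <;> nlinarith only [t4.1, t4.2, hab]
      refine ⟨m1, t1, ?_⟩
      rw [zc_of_mem m1, e]
      field_simp
      ring
    refine ⟨fun s => F ⌊z s⌋₊ s, ?_, ?_, ?_, fun s => ?_⟩
    · rw [← continuousOn_univ]
      refine glue (continuous_zc _ _ _).continuousOn (fun x _ => zc_nonneg hab)
        (fun m => Continuous.continuousOn ?_) fun m s _ e => ?_
      · have := (hH _ (hc' m)).1
        have := b7_br_cont (min m (2 * k))
        simp only [hF, hτ, hz]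
        fun_prop
      · simp only [hF, hτe _ _ _ e, b7_match]
    · rintro s (h | h)
      exacts [hle s (h.trans (ll_mono (Nat.le_succ i))), hge s ((RR_anti (Nat.le_succ i)).trans h)]
    · intro s hs
      rcases le_total s a with h | h
      · simp only [hle s h]; exact hs
      rcases le_total b s with h' | h'
      · simp only [hge s h']; exact hs
      exact Icc_subset_Icc (ll_mono (Nat.le_succ i)) (RR_anti (Nat.le_succ i)) (hin s ⟨h, h'⟩).1
    · rcases le_total s a with h | h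
      · simp only [hle s h, Xp_of_le _ _ _ h]
        have : s < 0 := by linarith only [ll_lt (i + 1), h]
        exact ⟨(h3 _ _ (Or.inl this.le)).symm, fun h0 => absurd h0.1 this.le.not_gt⟩
      rcases le_total b s with h' | h'
      · simp only [hge s h', Xp_of_ge hN _ _ h', Xp_of_ge hN' _ _ h']
        have : 2 < s := by linarith only [lt_RR (i + 1), h']
        exact ⟨(h3 _ _ (Or.inr ((RR_anti (by omega)).trans h'))).symm,
          fun h0 => absurd h0.2 this.le.not_gt⟩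
      obtain ⟨m1, t1, e⟩ := hin s ⟨h, h'⟩
      have ey : zig a b (2 * k + 1) (F ⌊z s⌋₊ s) =
          H (nxt L i c ⌊z s⌋₊) (zig a b (2 * (k + 1) + 1) s) := by
        rw [zig_of_mem m1, e, b7_tri _ t1, zig_of_mem ⟨h, h'⟩]
        simp only [hτ, hz]
        field_simp
        ring
      obtain ⟨k1, k2⟩ := (hH _ (hc' ⌊z s⌋₊)).2.2.2 (zig a b (2 * (k + 1) + 1) s)
      have ex : Xp (2 * k + 1) (ℓ + 1) i (F ⌊z s⌋₊ s) = Xp (2 * k + 1) ℓ (i + 1)
          (H (nxt L i c ⌊z s⌋₊) (zig a b (2 * (k + 1) + 1) s)) := by rw [← ey]; rfl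
      refine ⟨ex.trans k1, fun h0 => ?_⟩
      rw [ex] at h0
      have t2 : τ ⌊z s⌋₊ s ∈ Ioo (0 : ℝ) 1 := by
        have e2 : H (nxt L i c ⌊z s⌋₊) (zig a b (2 * (k + 1) + 1) s) =
            a + (b - a) * τ ⌊z s⌋₊ s := by rw [← ey, zig_of_mem m1, e, b7_tri _ t1]
        refine ⟨t1.1.lt_of_ne fun e0 => ?_, t1.2.lt_of_ne fun e0 => ?_⟩
        · rw [e2, ← e0, mul_zero, add_zero, Xp_of_le _ _ _ (ll_mono (Nat.le_succ _))] at h0
          linarith only [h0.1, ll_lt (i + 1)]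
        · rw [e2, e0, show a + (b - a) * 1 = b by ring,
            Xp_of_ge hN' _ _ (RR_anti (Nat.le_succ _))] at h0
          linarith only [h0.2, lt_RR (i + 1)]
      have en : nxt L i (min c (k + 1)) (min ⌊z s⌋₊ (2 * k)) =
          min (nxt L i c ⌊z s⌋₊) (k + 1) := by
        rcases le_total ⌊z s⌋₊ (2 * k) with h5 | h5
        · rw [min_eq_left h5]; unfold nxt; split_ifs <;> omega
        · rw [min_eq_right h5]; unfold nxt; split_ifs <;> omega
      refine Eq.trans ?_ (k2 h0)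
      rw [← ey, ← en, ← b7_floor (min ⌊z s⌋₊ (2 * k)) t2, ← e]
      rfl

theorem b7_etaL {x : ℝ} (h : x ∉ Ioo (0 : ℝ) 2) (D : ℕ) : etaL x D = 0 := by
  have : 1 ≤ |x - 1| := by
    rw [mem_Ioo, not_and_or, not_lt, not_lt] at h
    rcases h with h | h
    exacts [le_abs.2 (Or.inr (by linarith)), le_abs.2 (Or.inl (by linarith))]
  rw [etaL, max_eq_left (by linarith), mul_zero]

/-- B7: a pass with `k + 1` levels folds onto the `k`-th chain -/
theorem FOLD {q : ℝ → ℝ} (hq : QSpec q) (L : ℕ → ℕ → Bool) (k : ℕ) {ρL ρS : ℝ → ℝ}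
    (hLc : ContinuousOn ρL (Ioi 0)) (hSc : Continuous ρS)
    (hL : ∀ v, uu (k + 1) ≤ v → ρL v = q v) (hS : ∀ v, uu (k + 1) ≤ v → ρS v = q v)
    (hS0 : ρS 0 = 0) {cap : ℕ} (hcap : k + 1 ≤ cap)
    (hLm : ∀ v, uu cap ≤ v → ρL v ∈ Icc (0 : ℝ) 1) (hSm : ∀ v, 0 ≤ v → ρS v ∈ Icc (0 : ℝ) 1) :
    ∃ G : ℝ → ℝ, Continuous G ∧ G (ll 0) = ll 0 ∧
      MapsTo G (Icc (ll 0) (RR 0)) (Icc (ll 0) (RR 0)) ∧ ∀ s,
        dist (pass L (2 * (k + 1) + 1) (k + 1) cap ρL ρS s)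
          (pass L (2 * k + 1) k (k + 1) (vL q k) (vS q k) (G s)) ≤ uu k := by
  obtain ⟨ξ, h1, h2, h3, h4⟩ := XI hq k hLc hSc hL hS hS0 hLm hSm
  obtain ⟨G, g1, g2, g3, g4⟩ := b7_ind L k cap ξ h1 h2 h3 (fun x D hD => (h4 x D hD).1) k 0
    (Nat.zero_add k) cap le_rfl
  refine ⟨G, g1, g2 _ (Or.inl le_rfl), g3, fun s => ?_⟩
  obtain ⟨e1, e2⟩ := g4 s
  rw [min_eq_right hcap] at e2
  unfold pass
  set x := Xp (2 * (k + 1) + 1) (k + 1) 0 s
  have hD := Dp_le L (2 * (k + 1) + 1) (k + 1) 0 cap s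
  set D := Dp L (2 * (k + 1) + 1) (k + 1) 0 cap s
  obtain ⟨k1, k2, k3⟩ := h4 x D hD
  rw [e1] at e2 ⊢
  have e3 : etaL (ξ x D) (Dp L (2 * k + 1) k 0 (k + 1) (G s)) = etaL (ξ x D) (min D (k + 1)) := by
    by_cases h : ξ x D ∈ Ioo (0 : ℝ) 2
    · rw [e2 h]
    · rw [b7_etaL h, b7_etaL h]
  have e4 : hh (ξ x D) = hh x := by
    by_cases h : x ≤ 0 ∨ RR k ≤ x
    · rw [h3 x D h]
    · push Not at h
      rw [hh, hh, max_eq_right (by linarith only [(k1 ⟨h.1.le, h.2.le⟩).1]),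
        max_eq_right (by linarith only [h.1])]
  have e5 : rho (vL q k) (vS q k) (ξ x D) (Dp L (2 * k + 1) k 0 (k + 1) (G s)) =
      rho ρL ρS x D := by rw [k3, rho, rho, e3]
  have e6 : eta (ξ x D) (Dp L (2 * k + 1) k 0 (k + 1) (G s)) = eta (ξ x D) (min D (k + 1)) := by
    rw [eta, eta, e3]
  rw [e4, e5, e6, Prod.dist_eq, dist_self, max_eq_left dist_nonneg, dist_eq_norm,
    ← AddCircle.coe_sub]
  exact QuotientAddGroup.norm_mk_le_norm.trans k2

/-- a point of a pass together with the two parameter coordinates -/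
def b8_emb (p : UnitAddCircle × ℝ × ℝ) (t : ℝ) : EE := (p.1, p.2.1, p.2.2, PP t, QQ t)

theorem b8_q {q : ℝ → ℝ} (hq : QSpec q) (k : ℕ) : Continuous fun v => q (max v (uu k)) :=
  hq.cont.comp_continuous (by fun_prop) fun v => (uu_pos k).trans_le (le_max_right _ _)

theorem b8_vL {q : ℝ → ℝ} (hq : QSpec q) (k : ℕ) : Continuous (vL q k) :=
  (b8_q hq k).add (by fun_prop)

theorem b8_vS {q : ℝ → ℝ} (hq : QSpec q) (k : ℕ) : Continuous (vS q k) :=
  (b8_q hq k).add (by fun_prop)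

theorem b8_out {x : ℝ} (hx : x ∉ Ioo (0 : ℝ) 2) (D : ℕ) : etaL x D = 0 := by
  have : 1 ≤ |x - 1| := by
    rcases not_and_or.1 hx with h | h
    · exact le_abs.2 (Or.inr (by linarith [not_lt.1 h]))
    · exact le_abs.2 (Or.inl (by linarith [not_lt.1 h]))
  rw [etaL, max_eq_left (by linarith), mul_zero]

theorem b8_pass (L : ℕ → ℕ → Bool) {ρL ρS : ℝ → ℝ} (hL : Continuous ρL) (hS : Continuous ρS)
    (k ℓ cap : ℕ) : Continuous (pass L (2 * k + 1) ℓ cap ρL ρS) := by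
  refine cont_XD (fun x D => (((eta x D : ℝ) : UnitAddCircle), hh x, rho ρL ρS x D)) L
    (odd_two_mul_add_one k) (fun D => ?_) (fun x D D' hx => ?_) ℓ 0 cap
  · unfold eta hh rho etaL
    fun_prop
  · simp only [eta, rho, b8_out hx]

theorem b8_s0 (n : ℕ) : s0 n = ll 0 := by
  have := tri_nat_even (m := 2 * n) (even_two_mul n)
  push_cast at this
  rw [s0, this, mul_zero, add_zero]

theorem b8_base (L : ℕ → ℕ → Bool) (N ℓ cap : ℕ) {ρL ρS : ℝ → ℝ} (hL : ρL 1 = 0) (hS : ρS 0 = 0) :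
    pass L N ℓ cap ρL ρS (ll 0) = (0, 1, 1) := by
  have h := b8_out (x := -2) (by norm_num)
  unfold pass
  rw [Xp_of_le N ℓ 0 (ll_mono (Nat.zero_le _)), ll_zero]
  norm_num [eta, rho, hh, h, hL, hS]

theorem b8_gam (q : ℝ → ℝ) (L : ℕ → ℕ → Bool) {t : ℝ} {n : ℕ} (hn : ⌊t⌋₊ = n) :
    gam q L t = b8_emb (pass L (2 * n + 1) n n q (fun v => q (max v (uu n))) (s0 t)) t -
      (0, PP t * max (xx t - 2) 0, 0, 0, 0) := by
  subst hn
  simp only [gam, et, xx, DD, b8_emb, pass, Prod.mk_sub_mk, sub_zero]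

theorem b8_PQ {t : ℝ} {k : ℕ} (ht : (k : ℝ) + 1 ≤ t) :
    PP t ∈ Icc 0 (1 / ((k : ℝ) + 1) ^ 2) ∧ QQ t ∈ Icc 0 (1 / ((k : ℝ) + 1) ^ 2) := by
  have hk : (0 : ℝ) ≤ k := Nat.cast_nonneg k
  have h0 : 0 < t := by linarith
  have h1 : QQ t ≤ 1 / ((k : ℝ) + 1) ^ 2 := by
    rw [QQ, div_le_div_iff₀ (by positivity) (by positivity), one_mul,
      show (1 + t) ^ 4 = (1 + t) ^ 2 * (1 + t) ^ 2 by ring]
    exact mul_le_mul (by gcongr; linarith) (pow_le_pow_left₀ (by positivity) (by linarith) 2)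
      (by positivity) (by positivity)
  refine ⟨⟨by unfold PP; positivity, le_trans ?_ h1⟩, by unfold QQ; positivity, h1⟩
  unfold PP QQ
  gcongr
  nlinarith only [ht]

theorem b8_dist {p p' : UnitAddCircle × ℝ × ℝ} {t t' e : ℝ} {k : ℕ} (ht : (k : ℝ) + 1 ≤ t)
    (ht' : (k : ℝ) + 1 ≤ t') (h : dist p p' ≤ e) :
    dist (b8_emb p t) (b8_emb p' t') ≤ e + 1 / ((k : ℝ) + 1) ^ 2 := by
  obtain ⟨⟨a1, a2⟩, a3, a4⟩ := b8_PQ ht
  obtain ⟨⟨b1, b2⟩, b3, b4⟩ := b8_PQ ht'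
  have h0 := dist_nonneg.trans h
  simp only [Prod.dist_eq, max_le_iff, b8_emb] at h ⊢
  refine ⟨by linarith only [h.1, a1, a2], by linarith only [h.2.1, a1, a2], by linarith only [h.2.2, a1, a2], ?_, ?_⟩ <;>
    rw [Real.dist_eq, abs_le] <;> constructor <;> linarith only [a1, b2, h0, a2, b1, a3, b4, a4, b3]

theorem b8_one {q : ℝ → ℝ} (hq : QSpec q) : q 1 = 0 := hq.top 1 (by linarith [uu_le 0])

theorem b8_vL_ge (q : ℝ → ℝ) (k : ℕ) {v : ℝ} (hv : uu k ≤ v) : vL q k v = q v := by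
  rw [vL, max_eq_left hv, max_eq_left (by linarith), zero_div, add_zero]

theorem b8_vS_ge (q : ℝ → ℝ) (k : ℕ) {v : ℝ} (hv : uu k ≤ v) : vS q k v = q v := by
  have := tri_nat_even (m := 2) even_two
  push_cast at this
  rw [vS, max_eq_left hv, min_eq_right hv, mul_div_assoc, div_self (uu_pos k).ne', mul_one, this,
    add_zero]

theorem b8_vS_zero {q : ℝ → ℝ} (hq : QSpec q) (k : ℕ) : vS q k 0 = 0 := by
  rw [vS, max_eq_right (uu_pos k).le, min_eq_left (uu_pos k).le, hq.zero, mul_zero, zero_div,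
    tri_zero, add_zero]

theorem b8_join {q : ℝ → ℝ} (hq : QSpec q) (L : ℕ → ℕ → Bool) (n N ℓ cap k : ℕ) :
    gam q L n = b8_emb (pass L N ℓ cap (vL q k) (vS q k) (s0 n)) n := by
  have hx : xx n = -2 := by
    rw [xx, b8_s0, Xp_of_le _ _ 0 (ll_mono (Nat.zero_le _)), ll_zero]
  rw [b8_gam q L (Nat.floor_natCast n), b8_s0, hx,
    b8_base _ _ _ _ (b8_one hq) (by rw [max_eq_right (uu_pos n).le, hq.zero]),
    b8_base _ _ _ _ ((b8_vL_ge q k (by linarith [uu_le k])).trans (b8_one hq)) (b8_vS_zero hq k)]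
  norm_num

theorem YY_wc {q : ℝ → ℝ} (hq : QSpec q) (L : ℕ → ℕ → Bool) : IsWeaklyChainable (YY q L) := by
  choose G1 c1 e1 m1 d1 using fun k => FOLD hq L k (ρL := q) (ρS := fun v => q (max v (uu (k + 1))))
    hq.cont (b8_q hq _) (fun _ _ => rfl) (fun v hv => by rw [max_eq_left hv])
    (by rw [max_eq_right (uu_pos _).le, hq.zero]) (cap := k + 1) le_rfl (fun v _ => hq.mem _)
    (fun v _ => hq.mem _)
  choose G2 c2 e2 m2 d2 using fun k => FOLD hq L k (b8_vL hq (k + 1)).continuousOn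
    (b8_vS hq (k + 1)) (fun v => b8_vL_ge q _) (fun v => b8_vS_ge q _) (b8_vS_zero hq _)
    (cap := k + 1 + 1) (Nat.le_succ _) (fun v hv => by
      rcases le_total (uu (k + 1)) v with h | h
      · rw [b8_vL_ge q _ h]; exact hq.mem _
      · have h1 : 0 < uu (k + 1) - uu (k + 1 + 1) := by
          rw [uu_succ (k + 1)]; linarith [uu_pos (k + 1)]
        rw [vL, max_eq_right h, hq.zero, zero_add, max_eq_right (by linarith)]
        exact ⟨div_nonneg (by linarith) h1.le, (div_le_one h1).2 (by linarith)⟩)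
    (fun v _ => by
      rcases le_total (uu (k + 1)) v with h | h
      · rw [b8_vS_ge q _ h]; exact hq.mem _
      · rw [vS, max_eq_right h, hq.zero, zero_add]
        exact ⟨tri_nonneg _, tri_le_one _⟩)
  have hc : 0 < RR 0 - ll 0 := sub_pos.2 (ll_lt_RR 0 0)
  have cs : Continuous s0 := by unfold s0; fun_prop
  have ms : ∀ t, s0 t ∈ Icc (ll 0) (RR 0) := fun t => by
    have h1 := tri_nonneg (2 * t)
    have h2 := tri_le_one (2 * t)
    unfold s0
    constructor <;> nlinarith only [hc, h1, h2]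
  obtain ⟨u, hu⟩ : ∃ u : ℕ → ℝ → EE, u = fun k (t : ℝ) => if t ≤ (k + 1 : ℕ) then gam q L (max t 0) else
    b8_emb (pass L (2 * k + 1) k (k + 1) (vL q k) (vS q k) (s0 t)) (max t 0) := ⟨_, rfl⟩
  obtain ⟨G, hG⟩ : ∃ G : ℕ → ℝ → ℝ, G = fun k (t : ℝ) => if ((k + 1 + 1 : ℕ) : ℝ) ≤ t then G2 k (s0 t)
    else G1 k (s0 t) := ⟨_, rfl⟩
  have u1 : ∀ (k : ℕ) (t : ℝ), 0 ≤ t → t ≤ k + 1 → u k t = gam q L t := fun k t h0 h1 => by
    simp only [hu]
    rw [if_pos (by push_cast; exact h1), max_eq_left h0]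
  have u2 : ∀ (k : ℕ) (t : ℝ), (k : ℝ) + 1 ≤ t →
      u k t = b8_emb (pass L (2 * k + 1) k (k + 1) (vL q k) (vS q k) (s0 t)) t := fun k t h1 => by
    have h0 : 0 ≤ t := le_trans (by positivity) h1
    simp only [hu, max_eq_left h0]
    split_ifs with h
    · obtain rfl : t = (k + 1 : ℕ) := le_antisymm h (by push_cast; exact h1)
      exact b8_join hq L _ _ _ _ _
    · rfl
  have mG : ∀ k t, G k t ∈ Icc (ll 0) (RR 0) := fun k t => by
    simp only [hG]
    split_ifs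
    exacts [m2 k (ms t), m1 k (ms t)]
  have cG : ∀ k, Continuous (G k) := fun k => by
    rw [hG]
    refine Continuous.if_le ((c2 k).comp cs) ((c1 k).comp cs) continuous_const continuous_id ?_
    rintro _ rfl
    rw [b8_s0, e1, e2]
  have mτ : ∀ (k : ℕ) t, (k : ℝ) + 1 + (G k t - ll 0) / (2 * (RR 0 - ll 0)) ∈
      Icc ((k : ℝ) + 1) (k + 1 + 1 / 2) := fun k t =>
    ⟨le_add_of_nonneg_right (div_nonneg (sub_nonneg.2 (mG k t).1) (by linarith only [hc])), by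
      rw [add_le_add_iff_left, div_le_iff₀ (by linarith)]; linarith [(mG k t).2]⟩
  refine WC (gam q L) (fun k => k + 1 + 1 / 2) u (fun k t => if t ≤ (k + 1 : ℕ) then t else
    k + 1 + (G k t - ll 0) / (2 * (RR 0 - ll 0))) (fun k => uu k + 2 * (1 / ((k : ℝ) + 1) ^ 2))
    (fun k => by norm_num) (fun k => Continuous.continuousOn ?_)
    (fun k => Continuous.continuousOn ?_) (fun k t ht => ?_) (fun k t ht => ?_) ?_ fun k t ht => ?_
  · rw [hu]
    have hp := (b8_pass L (b8_vL hq k) (b8_vS hq k) k k (k + 1)).comp cs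
    have h1 : ∀ t : ℝ, (1 + max t 0) ^ 4 ≠ 0 := fun t => by positivity
    refine Continuous.if_le ((cont_gam hq L).comp_continuous (by fun_prop)
      fun t => mem_Ici.2 (le_max_right _ _)) ?_ continuous_id continuous_const ?_
    · refine hp.fst.prodMk (hp.snd.fst.prodMk (hp.snd.snd.prodMk ?_))
      unfold PP QQ
      fun_prop (disch := exact h1 _)
    · rintro _ rfl
      rw [max_eq_left (Nat.cast_nonneg _)]
      exact b8_join hq L _ _ _ _ _
  · have := cG k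
    refine Continuous.if_le continuous_id (by fun_prop) continuous_id continuous_const ?_
    rintro _ rfl
    simp only [hG]
    rw [if_neg (by push_cast; linarith only []), b8_s0, e1]
    simp
  · dsimp only
    split_ifs with h
    · push_cast at h
      exact ⟨ht.1, by linarith only [h]⟩
    · exact ⟨le_trans (by positivity) (mτ k t).1, (mτ k t).2⟩
  · exact ⟨if_pos (by push_cast; exact ht.2), u1 k t ht.1 ht.2⟩
  · refine Summable.add ?_ (Summable.mul_left _ ?_)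
    · exact (summable_nat_add_iff 2).2 summable_geometric_two
    · exact_mod_cast (summable_nat_add_iff 1).2 (Real.summable_one_div_nat_pow.2 one_lt_two)
  · have hp : 0 ≤ 1 / ((k : ℝ) + 1) ^ 2 := by positivity
    split_ifs with h
    · push_cast at h
      rw [u1 k t ht.1 h, u1 (k + 1) t ht.1 (by push_cast; linarith only [h]), dist_self]
      linarith [uu_pos k]
    · push_cast at h
      have h1 := (not_le.1 h).le
      have hs : s0 (k + 1 + (G k t - ll 0) / (2 * (RR 0 - ll 0))) = G k t := by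
        rw [s0, tri_even (even_two_mul (k + 1)) (by
          push_cast; constructor <;> linarith only [(mτ k t).1, (mτ k t).2])]
        push_cast
        field_simp
        ring
      rw [u2 k _ (mτ k t).1, hs]
      simp only [hG]
      split_ifs with h2
      · rw [u2 (k + 1) t (by exact_mod_cast h2)]
        have := mτ k t
        simp only [hG, if_pos h2] at this
        linarith only [b8_dist h1 this.1 (d2 k (s0 t)), hp]
      · have := mτ k t
        simp only [hG, if_neg h2] at this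
        have h3 := b8_dist h1 this.1 (d1 k (s0 t))
        push_cast at h2
        rw [u1 (k + 1) t ht.1 (by push_cast; linarith only [h2]), b8_gam q L (n := k + 1)
          ((Nat.floor_eq_iff ht.1).2 ⟨by push_cast; exact h1, by push_cast; linarith only [h2]⟩)]
        refine (dist_triangle _ _ _).trans ((add_le_add (b := 1 / ((k : ℝ) + 1) ^ 2) ?_ h3).trans_eq
          (by ring))
        have h4 : xx t ≤ RR 0 := (Xp_mem (odd_two_mul_add_one _) _ 0 0 (Nat.zero_le _) (ms t)).2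
        have h5 : max (xx t - 2) 0 ≤ 1 := max_le (by unfold RR at h4; linarith only [uu_le 0, h, h2, h4]) zero_le_one
        obtain ⟨⟨a1, a2⟩, -⟩ := b8_PQ h1
        have h6 : 0 ≤ max (xx t - 2) 0 := le_max_right _ _
        rw [dist_eq_norm, sub_sub_cancel_left, norm_neg]
        simp only [Prod.norm_def, norm_zero, Real.norm_of_nonneg (mul_nonneg a1 h6), max_le_iff]
        exact ⟨hp, by nlinarith only [h5, a1, a2], hp, hp, hp⟩

end Pool.Agent.MP_d9472f_gt.Q2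

end
end

-- part MP_d9472f_gt.Q2.Maps
section

/-! Maps of a continuum onto the curves. -/

open Set Filter Topology

noncomputable section
namespace Pool.Agent.MP_d9472f_gt.Q2

theorem c1_etaL_nonpos (x : ℝ) (D : ℕ) : etaL x D ≤ 0 :=
  mul_nonpos_of_nonpos_of_nonneg (by linarith [uu_le D]) (le_max_left _ _)

theorem c1_etaL_out {x : ℝ} (D : ℕ) (h : x ≤ 0 ∨ 2 ≤ x) : etaL x D = 0 := by
  have : 1 - |x - 1| ≤ 0 := by
    rcases h with h | h
    · linarith [neg_le_abs (x - 1)]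
    · linarith [le_abs_self (x - 1)]
  rw [etaL, max_eq_left this, mul_zero]

theorem c1_eta_pos (x : ℝ) (D : ℕ) : max (eta x D) 0 = max (x - 2) 0 := by
  rcases le_total x 2 with h | h
  · rw [eta, max_eq_right (show x - 2 ≤ 0 by linarith), add_zero,
      max_eq_right (c1_etaL_nonpos x D)]
  · rw [eta, c1_etaL_out D (Or.inr h), zero_add, max_eq_left (le_max_right _ _)]

theorem c1_hh_pos (x : ℝ) {p : ℝ} (hp : 0 ≤ p) : max (hh x - p * max (x - 2) 0) 0 = hh x := by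
  rcases le_total x 2 with h | h
  · rw [max_eq_right (show x - 2 ≤ 0 by linarith), mul_zero, sub_zero]
    exact max_eq_left (le_max_right _ _)
  · have e : hh x = 0 := max_eq_right (by linarith)
    rw [e, max_eq_right (by linarith [mul_nonneg hp (le_max_right (x - 2) 0)])]

theorem c1_PP_nonneg {t : ℝ} (ht : 0 < t) : 0 ≤ PP t := by unfold PP; positivity

section
variable {X : Type} [MetricSpace X] [CompactSpace X] {q : ℝ → ℝ} {L L' : ℕ → ℕ → Bool}
  {g g' : X → EE}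

theorem ray_eq (hq : QSpec q) (hY : ∀ x, g x ∈ YY q L) {x : X} (hx : Ry g x) :
    0 < TT g x ∧ g x = gam q L (TT g x) := by
  rcases mem_YY hq L (hY x) with ⟨t, ht, e⟩ | h
  · have : TT g x = t := by
      rw [TT, e]
      change QQ t / PP t = t
      unfold QQ PP
      field_simp
    rw [this]
    exact ⟨ht, e⟩
  · exfalso
    rw [Ry] at hx
    rcases h with ⟨v, -, e⟩ | ⟨v, -, e⟩ | ⟨v, -, e⟩ <;> rw [e] at hx <;> exact lt_irrefl _ hx

theorem cont_TT (hg : Continuous g) : ContinuousOn (TT g) {x | Ry g x} :=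
  ContinuousOn.div hg.snd.snd.snd.snd.continuousOn hg.snd.snd.snd.fst.continuousOn
    fun _ hx => ne_of_gt hx

theorem SYNC (hq : QSpec q) (hg : Continuous g) (hg' : Continuous g') (hY : ∀ x, g x ∈ YY q L)
    (hY' : ∀ x, g' x ∈ YY q L') {δ : ℝ} (hδ : δ ≤ 1 / 4) (hd : ∀ x, dist (g x) (g' x) < δ)
    {K : Set X} (hc : IsPreconnected K) (hR : ∀ x ∈ K, Ry g x ∧ Ry g' x)
    (hw : ∃ x ∈ K, xx (TT g x) ≤ -1 - δ) : ∀ x ∈ K,
      |et L (TT g x) - et L' (TT g' x)| < δ ∧ |hh (xx (TT g x)) - hh (xx (TT g' x))| < δ ∧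
        |max (xx (TT g x) - 2) 0 - max (xx (TT g' x) - 2) 0| < δ := by
  have r := fun x (hx : x ∈ K) => ray_eq hq hY (hR x hx).1
  have r' := fun x (hx : x ∈ K) => ray_eq hq hY' (hR x hx).2
  set φ : X → ℝ := fun x => et L (TT g x) - et L' (TT g' x) with hφ
  have d1 : ∀ x ∈ K, |φ x - round (φ x)| < δ := fun x hx => by
    have h := (le_max_left _ _).trans_lt ((Prod.dist_eq (x := g x) (y := g' x)) ▸ hd x)
    rw [(r x hx).2, (r' x hx).2, dist_eq_norm] at h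
    rw [← UnitAddCircle.norm_eq]
    exact h
  have d2 : ∀ x ∈ K, |(hh (xx (TT g x)) - PP (TT g x) * max (xx (TT g x) - 2) 0) -
      (hh (xx (TT g' x)) - PP (TT g' x) * max (xx (TT g' x) - 2) 0)| < δ := fun x hx => by
    have h := (le_max_right _ _).trans_lt ((Prod.dist_eq (x := g x) (y := g' x)) ▸ hd x)
    have h := (le_max_left _ _).trans_lt ((Prod.dist_eq (x := (g x).2) (y := (g' x).2)) ▸ h)
    rw [(r x hx).2, (r' x hx).2, Real.dist_eq] at h
    exact h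
  have hcφ : ContinuousOn φ K :=
    ((cont_et L).comp ((cont_TT hg).mono fun x hx => (hR x hx).1)
      fun x hx => (r x hx).1.le).sub
    ((cont_et L').comp ((cont_TT hg').mono fun x hx => (hR x hx).2)
      fun x hx => (r' x hx).1.le)
  obtain ⟨x₀, hx₀, hw⟩ := hw
  have hδ0 : 0 < δ := dist_nonneg.trans_lt (hd x₀)
  have e0 : φ x₀ = 0 := by
    have h := (abs_lt.1 (d2 x₀ hx₀)).2
    have h1 : max (xx (TT g x₀) - 2) 0 = 0 := max_eq_right (by linarith only [hw, hδ0])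
    have h2 : -1 - xx (TT g x₀) ≤ hh (xx (TT g x₀)) := le_max_left _ _
    have h3 := mul_nonneg (c1_PP_nonneg (r' x₀ hx₀).1) (le_max_right (xx (TT g' x₀) - 2) 0)
    rw [h1, mul_zero, sub_zero] at h
    have h4 : xx (TT g' x₀) ≤ 0 := by
      by_contra h5
      have : hh (xx (TT g' x₀)) = 0 := max_eq_right (by linarith only [hδ, hδ0, h5])
      linarith
    simp only [hφ, et, eta]
    rw [c1_etaL_out _ (Or.inl (by linarith only [hδ, hw, hδ0])), c1_etaL_out _ (Or.inl h4), h1,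
      max_eq_right (show xx (TT g' x₀) - 2 ≤ 0 by linarith), sub_self]
  have hint : ∀ (y : ℝ) (k : ℤ), k ≠ 0 → 1 - |y| ≤ |y - k| := fun y k hk => by
    have h1 : (1 : ℝ) ≤ |(k : ℝ)| := by exact_mod_cast Int.one_le_abs hk
    have h2 := abs_sub_abs_le_abs_sub (k : ℝ) y
    rw [abs_sub_comm] at h2
    linarith only [h1, h2]
  have key : ∀ x ∈ K, |φ x| < δ := fun x hx => by
    by_cases hk : round (φ x) = 0
    · simpa [hk] using d1 x hx
    exfalso
    have h1 := hint (φ x) _ hk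
    have h2 := d1 x hx
    obtain ⟨y, hy, e⟩ := hc.intermediate_value hx₀ hx hcφ.abs
      (show (1 / 2 : ℝ) ∈ Icc |φ x₀| |φ x| from ⟨by rw [e0, abs_zero]; norm_num, by linarith⟩)
    have h3 := d1 y hy
    by_cases hk' : round (φ y) = 0
    · rw [hk', Int.cast_zero, sub_zero] at h3
      linarith only [hδ, e, h3]
    · linarith only [hint (φ y) _ hk', hδ, e, h3]
  intro x hx
  refine ⟨key x hx, ?_, ?_⟩
  · rw [← c1_hh_pos _ (c1_PP_nonneg (r x hx).1), ← c1_hh_pos (xx (TT g' x))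
      (c1_PP_nonneg (r' x hx).1)]
    exact (abs_max_sub_max_le_abs _ _ _).trans_lt (d2 x hx)
  · rw [← c1_eta_pos _ (DD L (TT g x)), ← c1_eta_pos (xx (TT g' x)) (DD L' (TT g' x))]
    exact (abs_max_sub_max_le_abs _ _ _).trans_lt (key x hx)

theorem mem_Kset (hq : QSpec q) (hY : ∀ x, g x ∈ YY q L) {x : X} (hx : Ry g x) {d : ℕ} {θ : ℝ}
    (hθ : θ < 1 / 2) (h1 : et L (TT g x) ≤ -1 + θ) (h2 : DD L (TT g x) ≤ d) :
    x ∈ Kset g d θ := by
  have r := (ray_eq hq hY hx).2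
  have hm := le_max_right (xx (TT g x) - 2) 0
  have h1' : etaL (xx (TT g x)) (DD L (TT g x)) + max (xx (TT g x) - 2) 0 ≤ -1 + θ := h1
  have hin : ¬ (xx (TT g x) ≤ 0 ∨ 2 ≤ xx (TT g x)) := fun h => by
    rw [c1_etaL_out _ h] at h1'
    linarith only [hθ, hm, h1']
  rw [not_or, not_le, not_le] at hin
  refine ⟨⟨et L (TT g x) + 1, ⟨?_, by linarith only [h1]⟩, ?_⟩, ?_⟩
  · have h3 := uu_anti h2
    have h4 := uu_le (DD L (TT g x))
    have h5 : max 0 (1 - |xx (TT g x) - 1|) ≤ 1 :=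
      max_le zero_le_one (by linarith only [abs_nonneg (xx (TT g x) - 1)])
    have h6 := mul_le_mul_of_nonneg_left h5 (show 0 ≤ 1 - uu (DD L (TT g x)) by linarith only [h4])
    simp only [et, eta, etaL]
    linarith only [hm, h3, h6]
  · rw [r]
    exact AddCircle.coe_add_period 1 _
  · rw [r]
    change hh (xx (TT g x)) - PP (TT g x) * max (xx (TT g x) - 2) 0 = 0
    rw [hh, max_eq_right (show -1 - xx (TT g x) ≤ 0 by linarith only [hin]),
      max_eq_right (show xx (TT g x) - 2 ≤ 0 by linarith only [hin]), mul_zero, sub_zero]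
end

section
variable {X : Type} [MetricSpace X] [CompactSpace X] {q : ℝ → ℝ} {L L' : ℕ → ℕ → Bool}
  {g g' : X → EE}

theorem c2_inj {v w : ℝ} (hv : v ∈ Ioc (0 : ℝ) 1) (hw : w ∈ Ioc (0 : ℝ) 1)
    (h : (v : UnitAddCircle) = (w : UnitAddCircle)) : v = w :=
  (AddCircle.coe_eq_coe_iff_of_mem_Ioc (p := (1 : ℝ)) (a := 0) (by simpa only [zero_add, mem_Ioc] using hv)
    (by simpa only [zero_add, mem_Ioc] using hw)).1 h

theorem c2_tri_le {z : ℝ} (hz : 0 ≤ z) : tri z ≤ z := by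
  have h := round_le (z / 2) 0
  rw [tri, show z - 2 * round (z / 2) = 2 * (z / 2 - round (z / 2)) by ring, abs_mul, abs_two]
  rw [Int.cast_zero, sub_zero, abs_of_nonneg (by linarith : 0 ≤ z / 2)] at h
  linarith only [h]

theorem c2_s0 (t : ℝ) : s0 t = -2 + 17 / 4 * tri (2 * t) := by
  rw [s0, ll_zero, RR, uu]; norm_num only []

theorem c2_xx_le (t : ℝ) : xx t ≤ RR 0 := by
  have h1 := tri_nonneg (2 * t)
  have h2 := tri_le_one (2 * t)
  have h3 := ll_lt_RR 0 0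
  refine (Xp_mem ⟨⌊t⌋₊, rfl⟩ ⌊t⌋₊ 0 0 (Nat.zero_le _) (s := s0 t) ⟨?_, ?_⟩).2
  · rw [s0]; nlinarith only [h1, h3]
  · rw [s0]; nlinarith only [h2, h3]

theorem c2_low {t : ℝ} (ht : 0 < t) (h : 2 < xx t) : 1 / 17 < t := by
  by_contra hc
  have h1 := c2_tri_le (z := 2 * t) (by linarith only [ht])
  have h2 : s0 t ≤ ll (0 + 1) := by
    rw [c2_s0, ll]; norm_num only [neg_add_le_iff_le_add]; linarith only [hc, h1]
  rw [xx, Xp_of_le _ _ _ h2] at h
  linarith only [ll_lt (0 + 1), ht, h, hc, h2]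

theorem c2_ray (hq : QSpec q) (d : ℕ) {t v : ℝ} (ht : 0 < t)
    (hv : v ∈ Ioo (uu (d + 1)) (1 / 2)) (h1 : (v : UnitAddCircle) = (gam q L t).1)
    (h2 : -(uu (d + 1) / (17 * ((d : ℝ) + 2) ^ 4)) < (gam q L t).2.1) :
    (gam q L t).2.2.1 = q v := by
  have hv0 : 0 < v := (uu_pos _).trans hv.1
  have hvI : v ∈ Ioc (0 : ℝ) 1 := ⟨hv0, by linarith only [hv.2]⟩
  simp only [gam, et, eta, rho] at h1 h2 ⊢
  set y := xx t with hy
  set D := DD L t
  set n := ⌊t⌋₊ with hn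
  rcases le_or_gt y 2 with h | h
  · rw [max_eq_right (sub_nonpos.2 h)] at h1 ⊢
    rw [max_eq_right (uu_pos n).le, hq.zero, add_zero]
    rw [add_zero] at h1
    have hu := uu_pos D
    have hu' := uu_le D
    have hm0 : 0 ≤ max 0 (1 - |y - 1|) := le_max_left _ _
    have hm1 : max 0 (1 - |y - 1|) ≤ 1 := max_le zero_le_one (by linarith only [abs_nonneg (y - 1)])
    have e : v = 1 + etaL y D := by
      refine c2_inj hvI ⟨?_, ?_⟩ ?_
      · rw [etaL]; nlinarith only [hu, hu', hm1]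
      · rw [etaL]; nlinarith only [hu', hm0]
      · rw [h1, add_comm, AddCircle.coe_add_period]
    have hy0 : 0 < y := by
      by_contra hc
      have : max 0 (1 - |y - 1|) = 0 :=
        max_eq_left (by rw [abs_of_nonpos (by linarith only [hu, hu', hc])]; linarith only [hc])
      rw [etaL, this] at e
      linarith only [hv.2, hu, hu', e]
    rw [← e, max_eq_left ((min_le_left _ _).trans (by linarith only [hy0])), zero_add]
  · have e0 : etaL y D = 0 := by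
      rw [etaL, max_eq_left (by rw [abs_of_nonneg (by linarith only [h])]; linarith only [h]), mul_zero]
    have hm : max (y - 2) 0 = y - 2 := max_eq_left (by linarith only [h])
    have hyR : y ≤ RR 0 := c2_xx_le t
    have hu0 := uu_le 0
    rw [RR] at hyR
    rw [e0, hm, zero_add] at h1
    have e : v = y - 2 := c2_inj hvI ⟨by linarith only [h], by linarith only [h, hyR, hu0]⟩ h1
    rw [e0, hm, ← e, add_zero, hq.top 1 (by linarith only [h, hyR, hu0]), add_zero,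
      max_eq_left ((min_le_left _ _).trans (by linarith only [h, hyR, hu0])), zero_add]
    rcases le_or_gt (uu n) v with hc | hc
    · rw [max_eq_left hc]
    exfalso
    have hnd : n ≤ d := by
      by_contra hnd
      have := uu_anti (show d + 1 ≤ n by omega)
      linarith only [hv.1, hc, this]
    have htd : t < d + 1 := (Nat.lt_floor_add_one t).trans_le (by
      have : (n : ℝ) ≤ d := by exact_mod_cast hnd
      linarith only [this])
    have ht0 := c2_low ht h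
    rw [hm, ← e, hh, max_eq_right (by linarith only [h, hyR, hu0]), zero_sub, neg_lt_neg_iff, PP] at h2
    have hp : (1 + t) ^ 4 ≤ ((d : ℝ) + 2) ^ 4 := pow_le_pow_left₀ (by linarith only [ht, h, hyR, hu0]) (by linarith only [htd]) 4
    have hpp : 0 < (1 + t) ^ 4 := by positivity
    have h3 : 1 / 17 / ((d : ℝ) + 2) ^ 4 ≤ t / (1 + t) ^ 4 :=
      div_le_div₀ ht.le ht0.le hpp hp
    have h4 := mul_le_mul h3 hv.1.le (uu_pos _).le (div_nonneg ht.le hpp.le)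
    have h5 : 1 / 17 / ((d : ℝ) + 2) ^ 4 * uu (d + 1) = uu (d + 1) / (17 * ((d : ℝ) + 2) ^ 4) := by
      field_simp
    linarith only [h2, h4, h5]

/-- C2b (LOSER) -/
theorem LOSER (hq : QSpec q) (hg : Continuous g) (hY : ∀ x, g x ∈ YY q L) (d : ℕ) {θ : ℝ}
    (hθ : θ < 1 / 2) :
    IsClosed (Kset g d θ) ∧ ∃ G, IsOpen G ∧ Kset g d θ ⊆ G ∧ G ⊆ Los q g := by
  have hc : Continuous ((↑) : ℝ → UnitAddCircle) := continuous_quotient_mk'
  have hζ : 0 < uu (d + 1) / (17 * ((d : ℝ) + 2) ^ 4) := div_pos (uu_pos _) (by positivity)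
  refine ⟨((isCompact_Icc.image hc).isClosed.preimage hg.fst).inter
    (isClosed_eq hg.snd.fst continuous_const), {x | (g x).1 ∈ ((↑) : ℝ → UnitAddCircle) ''
      Ioo (uu (d + 1)) (1 / 2) ∧ -(uu (d + 1) / (17 * ((d : ℝ) + 2) ^ 4)) < (g x).2.1},
    ((QuotientAddGroup.isOpenMap_coe _ isOpen_Ioo).preimage hg.fst).inter
      (isOpen_lt continuous_const hg.snd.fst), ?_, ?_⟩
  · rintro x ⟨⟨v, hv, e⟩, h0⟩
    refine ⟨⟨v, ⟨?_, hv.2.trans_lt hθ⟩, e⟩, by rw [h0]; linarith only [hζ]⟩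
    have := uu_pos d
    rw [uu_succ]; linarith only [hv.1, this]
  · rintro x ⟨⟨v, hv, e⟩, h0⟩
    have hv0 : 0 < v := (uu_pos _).trans hv.1
    have hvI : v ∈ Ioc (0 : ℝ) 1 := ⟨hv0, by linarith only [hv.2]⟩
    have hn : ‖(g x).1‖ = v := by
      rw [← e, (AddCircle.norm_coe_eq_abs_iff (1 : ℝ) one_ne_zero).2
        (by rw [abs_of_pos hv0, abs_one]; exact hv.2.le), abs_of_pos hv0]
    have hne : (v : UnitAddCircle) ≠ 0 := fun h => by
      have := c2_inj hvI ⟨one_pos, le_rfl⟩ (by rw [h, AddCircle.coe_period])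
      linarith only [hv.2, hv0, this]
    refine ⟨by rw [hn]; exact hv0, ?_⟩
    rw [hn]
    rcases mem_YY hq L (hY x) with ⟨t, ht, h⟩ | ⟨w, hw, h⟩ | ⟨r, -, h⟩ | ⟨r, -, h⟩
    · rw [h] at e h0 ⊢
      exact c2_ray hq d ht hv e h0
    · rw [h] at e ⊢
      rw [c2_inj hvI hw e]
    · rw [h] at e; exact absurd e hne
    · rw [h] at e; exact absurd e hne
end

theorem c3_odd (n : ℕ) : Odd (2 * n + 1) := ⟨n, rfl⟩

theorem c3_int {N : ℕ} (hN : Odd N) (ℓ i : ℕ) {s : ℝ} {k : ℕ}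
    (h : zc (ll (i + 1)) (RR (i + 1)) N s = k) :
    Xp N (ℓ + 1) i s ≤ ll (i + 1) ∨ RR (i + 1) ≤ Xp N (ℓ + 1) i s := by
  rcases le_total s (ll (i + 1)) with h1 | h1
  · left; rwa [Xp_of_le _ _ _ h1]
  rcases le_total (RR (i + 1)) s with h2 | h2
  · right; rwa [Xp_of_ge hN _ _ h2]
  rw [Xp, zig_of_mem ⟨h1, h2⟩, h]
  rcases Nat.even_or_odd k with hk | hk
  · left
    rw [tri_nat_even hk, mul_zero, add_zero, Xp_of_le _ _ _ (ll_mono (Nat.le_succ _))]
  · right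
    rw [tri_nat_odd hk, mul_one, add_sub_cancel, Xp_of_ge hN _ _ (RR_anti (Nat.le_succ _))]

theorem c3_floor {X : Type*} [TopologicalSpace X] {K : Set X} (hc : IsPreconnected K)
    (hne : K.Nonempty) {φ : X → ℝ} (hφ : ContinuousOn φ K) (h0 : ∀ x ∈ K, 0 ≤ φ x)
    (hk : ∀ x ∈ K, ∀ k : ℕ, φ x ≠ k) : ∃ n : ℕ, ∀ x ∈ K, φ x ∈ Ioo (n : ℝ) (n + 1) := by
  obtain ⟨x0, hx0⟩ := hne
  have h1 : ((⌊φ x0⌋₊ : ℕ) : ℝ) ≤ φ x0 := Nat.floor_le (h0 _ hx0)
  have h2 : φ x0 < (⌊φ x0⌋₊ : ℕ) + 1 := Nat.lt_floor_add_one _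
  refine ⟨⌊φ x0⌋₊, fun x hx => ⟨?_, ?_⟩⟩
  · by_contra h
    obtain ⟨y, hy, e⟩ := hc.intermediate_value hx hx0 hφ ⟨not_lt.1 h, h1⟩
    exact hk y hy _ e
  · by_contra h
    obtain ⟨y, hy, e⟩ := hc.intermediate_value hx0 hx hφ ⟨h2.le, not_lt.1 h⟩
    exact hk y hy (⌊φ x0⌋₊ + 1) (by rw [e]; push_cast; rfl)

theorem c3_s0_nat (n : ℕ) : s0 n = ll 0 := by
  have : tri (2 * (n : ℝ)) = 0 := by
    have := tri_nat_even (m := 2 * n) ⟨n, by ring⟩
    rwa [Nat.cast_mul, Nat.cast_two] at this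
  rw [s0, this, mul_zero, add_zero]

theorem c3_s0_half (n : ℕ) : s0 (n + 1 / 2) = RR 0 := by
  have : tri (2 * ((n : ℝ) + 1 / 2)) = 1 := by
    rw [show 2 * ((n : ℝ) + 1 / 2) = ((2 * n + 1 : ℕ) : ℝ) by push_cast; ring]
    exact tri_nat_odd (c3_odd n)
  rw [s0, this]; ring

theorem c3_cont_s0 : Continuous s0 := by unfold s0; fun_prop

section
variable {X : Type} [MetricSpace X] [CompactSpace X] {q : ℝ → ℝ} {L L' : ℕ → ℕ → Bool}
  {g g' : X → EE}

omit [CompactSpace X] in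
theorem c3_mono {K K' : Set X} {i n cap : ℕ} {s : X → ℝ} (h : Lev L g K i n cap s)
    (hK : K' ⊆ K) : Lev L g K' i n cap s :=
  ⟨h.1, h.2.1, h.2.2.1.mono hK, fun x hx => h.2.2.2 x (hK hx)⟩

omit [CompactSpace X] in
theorem c3_lev0 {K : Set X} {n : ℕ} (hT : ContinuousOn (TT g) K) (hR : ∀ x ∈ K, Ry g x)
    (hn : ∀ x ∈ K, ⌊TT g x⌋₊ = n) : Lev L g K 0 n n fun x => s0 (TT g x) :=
  ⟨Nat.zero_le _, le_rfl, c3_cont_s0.comp_continuousOn hT, fun x hx =>
    ⟨hR x hx, by rw [xx, hn x hx, Nat.sub_zero], fun _ => by rw [DD, hn x hx, Nat.sub_zero]⟩⟩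

/-- C3a: staying on one branch -/
theorem Lev.succ {K : Set X} {i n cap : ℕ} {s : X → ℝ} (h : Lev L g K i n cap s) (hi : i < n)
    {m : ℕ} (hm : m < 2 * n + 1)
    (hz : ∀ x ∈ K, zc (ll (i + 1)) (RR (i + 1)) (2 * n + 1) (s x) ∈ Icc (m : ℝ) (m + 1)) :
    Lev L g K (i + 1) n (nxt L i cap m)
      fun x => zig (ll (i + 1)) (RR (i + 1)) (2 * n + 1) (s x) := by
  obtain ⟨-, h2, h3, h4⟩ := h
  have e : n - i = (n - (i + 1)) + 1 := by omega
  refine ⟨hi, (nxt_le _ _ _ _).trans h2, (continuous_zig _ _ _).comp_continuousOn h3,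
    fun x hx => ?_⟩
  obtain ⟨k1, k2, k3⟩ := h4 x hx
  rw [e] at k2 k3
  refine ⟨k1, k2, fun hx2 => ?_⟩
  rw [k3 hx2, Dp]
  rcases (hz x hx).2.eq_or_lt with h | h
  · exfalso
    have := c3_int (c3_odd n) (n - (i + 1)) i (k := m + 1) (by rw [h]; push_cast; rfl)
    rw [← k2] at this
    rcases this with h | h
    · linarith only [ll_lt (i + 1), hx2.1, h]
    · linarith only [lt_RR (i + 1), hx2.2, h]
  · rw [(Nat.floor_eq_iff (zc_nonneg (ll_lt_RR _ _))).2 ⟨(hz x hx).1, h⟩]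

/-- C3b (DESC): passing to the last branch -/
theorem DESC {K : Set X} (hK : IsCompact K) (hc : IsPreconnected K) {i n cap : ℕ} {s : X → ℝ}
    (h : Lev L g K i n cap s) (hi : i < n) (h1 : ∃ x ∈ K, s x ≤ ll (i + 1))
    (h2 : ∃ x ∈ K, RR (i + 1) ≤ s x) : ∃ K' ⊆ K, IsCompact K' ∧ IsPreconnected K' ∧
      ∃ s', Lev L g K' (i + 1) n cap s' ∧ (∃ x ∈ K', s' x = ll (i + 1)) ∧
        ∃ x ∈ K', s' x = RR (i + 1) := by
  obtain ⟨x1, hx1, e1⟩ := h1
  obtain ⟨x2, hx2, e2⟩ := h2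
  have hab := ll_lt_RR (i + 1) (i + 1)
  have hcap : nxt L i cap (2 * n) = cap := by
    have := h.2.1
    unfold nxt; split_ifs; exacts [min_eq_left (by omega), rfl]
  generalize ha : ll (i + 1) = a at *
  generalize hb : RR (i + 1) = b at *
  have hd : 0 < b - a := sub_pos.2 hab
  have hN : (0 : ℝ) < 2 * n + 1 := by positivity
  obtain ⟨w, hw⟩ : ∃ w : ℝ, w = (b - a) / (2 * n + 1) := ⟨_, rfl⟩
  have hw0 : 0 < w := by rw [hw]; positivity
  have hw1 : (2 * n + 1) * w = b - a := by rw [hw]; field_simp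
  have hn0 : (0 : ℝ) ≤ n := Nat.cast_nonneg n
  have haw : a ≤ b - w := by nlinarith only [hw0, hw1]
  obtain ⟨K', k1, k2, k3, k4, ⟨y1, hy1, f1⟩, y2, hy2, f2⟩ :=
    BB2 hK hc h.2.2.1 (a := b - w) (b := b) (by linarith only [hw0]) hx1 (by linarith only [e1, haw]) hx2 e2
  have hz : ∀ t ∈ Icc (b - w) b, zc a b (2 * n + 1) t = 2 * n + (t - (b - w)) / w := by
    intro t ht
    rw [zc_of_mem ⟨haw.trans ht.1, ht.2⟩, ← hw1]
    have : a = b - (2 * n + 1) * w := by linarith only [hw1]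
    rw [this]; push_cast; field_simp; ring
  have hl := Lev.succ (c3_mono h k1) hi (m := 2 * n) (by omega) (by
    intro x hx
    rw [ha, hb, hz _ (k4 x hx)]
    have a1 : 0 ≤ (s x - (b - w)) / w := div_nonneg (by linarith only [(k4 x hx).1]) hw0.le
    have a2 : (s x - (b - w)) / w ≤ 1 := (div_le_one hw0).2 (by linarith only [(k4 x hx).2])
    push_cast
    constructor <;> linarith only [a1, a2])
  rw [hcap, ha, hb] at hl
  refine ⟨K', k1, k2, k3, _, hl, ⟨y1, hy1, ?_⟩, y2, hy2, ?_⟩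
  · have : tri (2 * (n : ℝ)) = 0 := by
      have := tri_nat_even (m := 2 * n) ⟨n, by ring⟩
      rwa [Nat.cast_mul, Nat.cast_two] at this
    rw [f1, zig_of_mem ⟨haw, by linarith only [hw0]⟩, hz _ ⟨le_rfl, by linarith only [hw0]⟩, sub_self, zero_div,
      add_zero, this, mul_zero, add_zero]
  · rw [f2, zig_of_ge hab (c3_odd n) le_rfl]

/-- C3c (UP) -/
theorem UP (hq : QSpec q) (hg : Continuous g) (hY : ∀ x, g x ∈ YY q L) {K : Set X}
    (hc : IsPreconnected K) (hne : K.Nonempty) (i : ℕ)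
    (hR : ∀ x ∈ K, Ry g x ∧ xx (TT g x) ∈ Ioo (ll i) (RR i)) :
    (∀ x ∈ K, DD L (TT g x) ≤ i) ∨ ∃ n cap s, Lev L g K i n cap s := by
  have hT : ContinuousOn (TT g) K := (cont_TT hg).mono fun x hx => (hR x hx).1
  have hpos : ∀ x ∈ K, 0 ≤ TT g x := fun x hx => (ray_eq hq hY (hR x hx).1).1.le
  obtain ⟨n, hn⟩ := c3_floor hc hne hT hpos (by
    intro x hx k e
    have h1 := (hR x hx).2.1
    rw [e, xx, c3_s0_nat, Xp_of_le _ _ _ (ll_mono (Nat.zero_le _))] at h1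
    exact absurd (ll_mono (Nat.zero_le i)) (not_le.2 h1))
  have hfl : ∀ x ∈ K, ⌊TT g x⌋₊ = n := fun x hx =>
    (Nat.floor_eq_iff (hpos x hx)).2 ⟨(hn x hx).1.le, (hn x hx).2⟩
  rcases le_total n i with hni | hni
  · left
    intro x hx
    rw [DD, hfl x hx]
    exact (Dp_le _ _ _ _ _ _).trans hni
  right
  have key : ∀ j ≤ i, ∃ cap s, Lev L g K j n cap s := by
    intro j
    induction j with
    | zero => exact fun _ => ⟨_, _, c3_lev0 hT (fun x hx => (hR x hx).1) hfl⟩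
    | succ j ih =>
      intro hj
      obtain ⟨cap, s, hl⟩ := ih (by omega)
      obtain ⟨m, hm⟩ := c3_floor hc hne
        (φ := fun x => zc (ll (j + 1)) (RR (j + 1)) (2 * n + 1) (s x))
        ((continuous_zc _ _ _).comp_continuousOn hl.2.2.1)
        (fun x _ => zc_nonneg (ll_lt_RR _ _)) (by
          intro x hx k e
          have h1 := c3_int (c3_odd n) (n - (j + 1)) j e
          rw [show n - (j + 1) + 1 = n - j by omega, ← (hl.2.2.2 x hx).2.1] at h1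
          rcases h1 with h1 | h1
          · linarith only [(hR x hx).2.1, ll_mono hj, h1]
          · linarith only [(hR x hx).2.2, RR_anti hj, h1])
      obtain ⟨x0, hx0⟩ := hne
      have hm' : m < 2 * n + 1 := by
        have := (hm x0 hx0).1.trans_le (zc_le (ll_lt_RR _ _))
        exact_mod_cast this
      exact ⟨_, _, Lev.succ hl (by omega) hm' fun x hx => Ioo_subset_Icc_self (hm x hx)⟩
  exact ⟨n, key i le_rfl⟩

/-- C3d: a traversal of level `0` -/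
theorem STR0 (hq : QSpec q) (hg : Continuous g) (hY : ∀ x, g x ∈ YY q L) {C : Set X}
    (hC : IsCompact C) (hc : IsPreconnected C) (hR : ∀ x ∈ C, Ry g x) (n : ℕ)
    (h1 : ∃ x ∈ C, TT g x ≤ n) (h2 : ∃ x ∈ C, (n : ℝ) + 1 ≤ TT g x) :
    ∃ K ⊆ C, IsCompact K ∧ IsPreconnected K ∧ ∃ s, Lev L g K 0 n n s ∧
      (∃ x ∈ K, s x = ll 0) ∧ ∃ x ∈ K, s x = RR 0 := by
  obtain ⟨x1, hx1, e1⟩ := h1
  obtain ⟨x2, hx2, e2⟩ := h2
  have hT : ContinuousOn (TT g) C := (cont_TT hg).mono fun x hx => hR x hx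
  obtain ⟨K, k1, k2, k3, k4, ⟨y1, hy1, f1⟩, y2, hy2, f2⟩ :=
    BB2 hC hc hT (a := n) (b := n + 1 / 2) (by linarith) hx1 e1 hx2 (by linarith only [e2])
  refine ⟨K, k1, k2, k3, _, c3_lev0 (hT.mono k1) (fun x hx => hR x (k1 hx)) fun x hx => ?_,
    ⟨y1, hy1, ?_⟩, y2, hy2, ?_⟩
  · exact (Nat.floor_eq_iff ((Nat.cast_nonneg n).trans (k4 x hx).1)).2
      ⟨(k4 x hx).1, by linarith only [(k4 x hx).2]⟩
  · rw [f1, c3_s0_nat]
  · rw [f2, c3_s0_half]
end

section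
variable {X : Type} [MetricSpace X] [CompactSpace X] {q : ℝ → ℝ} {L L' : ℕ → ℕ → Bool}
  {g g' : X → EE}

theorem c3e_desc {n cap : ℕ} (d : ℕ) : ∀ (i : ℕ) (K : Set X) (s : X → ℝ), n = i + d →
    IsCompact K → IsPreconnected K → Lev L g K i n cap s → (∃ x ∈ K, s x ≤ ll (i + 1)) →
    (∃ x ∈ K, RR (i + 1) ≤ s x) → ∃ K' ⊆ K, IsCompact K' ∧ IsPreconnected K' ∧
      ∃ s', Lev L g K' n n cap s' ∧ (∃ x ∈ K', s' x ≤ 0) ∧ ∃ x ∈ K', 1 ≤ s' x := by
  induction d with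
  | zero =>
    rintro i K s hn hK hc h ⟨x, hx, h1⟩ ⟨y, hy, h2⟩
    obtain rfl : i = n := by omega
    exact ⟨K, subset_rfl, hK, hc, s, h, ⟨x, hx, by linarith only [ll_lt (i + 1), h1]⟩, y, hy,
      by linarith only [lt_RR (i + 1), h2]⟩
  | succ d ih =>
    intro i K s hn hK hc h h1 h2
    obtain ⟨K1, k1, k2, k3, s1, k4, ⟨x, hx, k5⟩, y, hy, k6⟩ := DESC hK hc h (by omega) h1 h2
    obtain ⟨K2, m1, m2⟩ := ih (i + 1) K1 s1 (by omega) k2 k3 k4
      ⟨x, hx, k5.le.trans (ll_mono (Nat.le_succ _))⟩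
      ⟨y, hy, (RR_anti (Nat.le_succ _)).trans k6.ge⟩
    exact ⟨K2, m1.trans k1, m2⟩

theorem Str.big (hq : QSpec q) (hY : ∀ x, g x ∈ YY q L) {𝒞 : Set (Set X)} {i : ℕ} {θ : ℝ}
    {F : Set X} (hθ : 0 < θ) (h : Str L g 𝒞 i θ F) {ε : ℝ} (hε : 0 < ε) :
    ∃ E ⊆ F, IsCompact E ∧ IsPreconnected E ∧ (∀ x ∈ E, ‖(g x).1‖ ≤ ε) ∧
      (∃ x ∈ E, (g x).2.2.1 ≤ 0) ∧ ∃ x ∈ E, 1 ≤ (g x).2.2.1 := by
  obtain ⟨j, hj⟩ : ∃ j, uu j ≤ min θ ε := by
    obtain ⟨j, hj⟩ := exists_pow_lt_of_lt_one (lt_min hθ hε) (show (1 / 2 : ℝ) < 1 by norm_num)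
    refine ⟨j, le_trans ?_ hj.le⟩
    unfold uu
    exact pow_le_pow_of_le_one (by norm_num) (by norm_num) (by omega)
  obtain ⟨K, n, cap, s, hK, hc, -, hl, hcap, ⟨x, hx, h1⟩, ⟨y, hy, h2⟩, hF⟩ := h (j + 1)
  have p1 : pL i (3 / 4) ≤ ll (i + 1) := by
    rw [← pL_one]; unfold pL; gcongr; norm_num
  have p2 : RR (i + 1) ≤ pR i (3 / 4) := by
    rw [← pR_one]; unfold pR; linarith only [uu_pos (i + 1)]
  obtain ⟨K1, k1, k2, k3, s1, k4, ⟨x1, hx1, k5⟩, y1, hy1, k6⟩ :=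
    c3e_desc (n - i) i K s (by have := hl.1; omega) hK hc hl ⟨x, hx, h1.trans p1⟩
      ⟨y, hy, p2.trans h2⟩
  obtain ⟨v, ⟨hv1, hv2⟩, hv⟩ := hq.one j
  have hu : uu cap ≤ uu (j + 1) := uu_anti hcap
  have hu0 := uu_pos cap
  have hu1 := uu_le cap
  have hj1 := uu_le j
  have hw : 0 < 1 - uu cap := by linarith only [hv1, hv2, hu, hu0, hj1]
  have ha : 0 < (1 - uu j) / (1 - uu cap) := div_pos (by linarith only [hv1, hv2, hu, hu0, hj1]) hw
  have hb : (1 - v) / (1 - uu cap) < 1 := (div_lt_one hw).2 (by linarith only [hv1, hu])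
  have hab : (1 - uu j) / (1 - uu cap) ≤ (1 - v) / (1 - uu cap) := by gcongr
  obtain ⟨E, e1, e2, e3, e4, ⟨z0, hz0, e5⟩, z1, hz1, e6⟩ :=
    BB2 k2 k3 k4.2.2.1 hab hx1 (k5.trans ha.le) hy1 (hb.le.trans k6)
  have key : ∀ z ∈ E, et L (TT g z) = (1 - (1 - uu cap) * s1 z) - 1 ∧
      (g z).1 = ((et L (TT g z) : ℝ) : UnitAddCircle) ∧
      (g z).2.2.1 = q (1 - (1 - uu cap) * s1 z) := by
    intro z hz
    obtain ⟨r1, r2, r3⟩ := k4.2.2.2 z (e1 hz)
    have s0' : 0 < s1 z := ha.trans_le (e4 z hz).1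
    have s1' : s1 z < 1 := (e4 z hz).2.trans_lt hb
    rw [Nat.sub_self] at r2 r3
    simp only [Xp, Dp] at r2 r3
    have r4 := r3 (by rw [r2]; exact ⟨s0', by linarith only [hv1, hv2, hu, hu0, hj1, s1']⟩)
    have r5 : etaL (s1 z) cap = -((1 - uu cap) * s1 z) := by
      unfold etaL
      rw [abs_of_nonpos (by linarith only [s1']), max_eq_right (by linarith only [s0'])]
      ring
    have r6 : max (s1 z - 2) 0 = 0 := max_eq_right (by linarith only [hv1, hv2, hu, hu0, hj1, s1'])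
    have r7 := (ray_eq hq hY r1).2
    refine ⟨?_, ?_, ?_⟩
    · unfold et eta
      rw [r2, r4, r5, r6]
      ring
    · exact congrArg Prod.fst r7
    · have r8 : (g z).2.2.1 = rho q (fun v => q (max v (uu ⌊TT g z⌋₊))) (xx (TT g z))
          (DD L (TT g z)) := congrArg (fun p : EE => p.2.2.1) r7
      rw [r8, r2, r4]
      unfold rho
      simp only []
      rw [r5, r6, max_eq_right (uu_pos _).le, hq.zero,
        max_eq_left ((min_le_left _ _).trans (by linarith only [s0'])), zero_add, add_zero, ← sub_eq_add_neg]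
  have rng : ∀ z ∈ E, v ≤ 1 - (1 - uu cap) * s1 z ∧ 1 - (1 - uu cap) * s1 z ≤ uu j := by
    intro z hz
    have a1 := (div_le_iff₀ hw).1 (e4 z hz).1
    have a2 := (le_div_iff₀ hw).1 (e4 z hz).2
    constructor <;> linarith only [a2, a1]
  refine ⟨E, fun z hz => hF z (k1 (e1 hz)) ?_, e2, e3, fun z hz => ?_, ⟨z0, hz0, ?_⟩, z1, hz1, ?_⟩
  · rw [(key z hz).1]
    linarith only [(rng z hz).2, min_le_left θ ε, hj]
  · rw [(key z hz).2.1, (key z hz).1, AddCircle.coe_sub, AddCircle.coe_period, sub_zero]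
    refine QuotientAddGroup.norm_mk_le_norm.trans ?_
    rw [Real.norm_of_nonneg (by linarith only [(rng z hz).1, hv1, hu, hu0])]
    linarith only [(rng z hz).2, min_le_right θ ε, hj]
  · rw [(key z0 hz0).2.2, e5, mul_div_cancel₀ _ hw.ne', sub_sub_cancel, hq.zero]
  · rw [(key z1 hz1).2.2, e6, mul_div_cancel₀ _ hw.ne', sub_sub_cancel, hv]
end

end Pool.Agent.MP_d9472f_gt.Q2

end
end

-- part MP_d9472f_gt.Q2.Pairs
section

/-! Comparison of two close maps. -/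

open Set Filter Topology

noncomputable section
namespace Pool.Agent.MP_d9472f_gt.Q2

theorem c4_le {N : ℕ} (hN : Odd N) {ℓ i : ℕ} {s : ℝ} (h : Xp N ℓ i s < ll (i + 1)) :
    s = Xp N ℓ i s := by
  rcases le_total s (ll (i + 1)) with h1 | h1
  · exact (Xp_of_le N ℓ i h1).symm
  rcases le_total (RR (i + 1)) s with h2 | h2
  · exact (Xp_of_ge hN ℓ i h2).symm
  exact absurd (Xp_mem hN ℓ i (i + 1) le_rfl ⟨h1, h2⟩).1 (not_le.2 h)

theorem c4_ge {N : ℕ} (hN : Odd N) {ℓ i : ℕ} {s : ℝ} (h : RR (i + 1) < Xp N ℓ i s) :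
    s = Xp N ℓ i s := by
  rcases le_total s (ll (i + 1)) with h1 | h1
  · exact (Xp_of_le N ℓ i h1).symm
  rcases le_total (RR (i + 1)) s with h2 | h2
  · exact (Xp_of_ge hN ℓ i h2).symm
  exact absurd (Xp_mem hN ℓ i (i + 1) le_rfl ⟨h1, h2⟩).2 (not_le.2 h)

/-- closeness of two positions outside `[-1, 2]` -/
def c4_Cl (δ A A' : ℝ) : Prop := |hh A - hh A'| < δ ∧ |max (A - 2) 0 - max (A' - 2) 0| < δ

theorem c4_Cl.symm {δ A A' : ℝ} (h : c4_Cl δ A A') : c4_Cl δ A' A :=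
  ⟨by rw [abs_sub_comm]; exact h.1, by rw [abs_sub_comm]; exact h.2⟩

theorem c4_Cl.lo {δ A A' p : ℝ} (h : c4_Cl δ A A') (hp : p ≤ -1) (hA : p ≤ A) : p - δ < A' := by
  have h1 := (abs_lt.1 h.1).1
  have h2 : hh A ≤ -1 - p := max_le (by linarith) (by linarith)
  have h3 : -1 - A' ≤ hh A' := le_max_left _ _
  linarith

theorem c4_Cl.hi {δ A A' p : ℝ} (h : c4_Cl δ A A') (hp : 2 ≤ p) (hA : A ≤ p) : A' < p + δ := by
  have h1 := (abs_lt.1 h.2).1
  have h2 : max (A - 2) 0 ≤ p - 2 := max_le (by linarith) (by linarith)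
  have h3 : A' - 2 ≤ max (A' - 2) 0 := le_max_left _ _
  linarith

theorem c4_Cl.lo' {δ A A' p : ℝ} (h : c4_Cl δ A A') (hp : p + δ ≤ -1) (hA : A ≤ p) :
    A' < p + δ := by
  by_contra! hc
  linarith [h.symm.lo hp hc]

theorem c4_Cl.hi' {δ A A' p : ℝ} (h : c4_Cl δ A A') (hp : 2 ≤ p - δ) (hA : p ≤ A) :
    p - δ < A' := by
  by_contra! hc
  linarith [h.symm.hi hp hc]

theorem c4_clamp {a b : ℝ} (hab : a < b) {N : ℕ} (hN : Odd N) (s : ℝ) :
    a + (b - a) * tri (zc a b N s) = max a (min (zig a b N s) b) := by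
  rcases le_total s a with h1 | h1
  · rw [zc_of_le h1, tri_zero, zig_of_le h1, max_eq_left ((min_le_left _ _).trans h1)]; ring
  rcases le_total b s with h2 | h2
  · rw [zc_of_ge hab h2, tri_nat_odd hN, zig_of_ge hab hN h2, min_eq_right h2, max_eq_right hab.le]
    ring
  have h := zig_mem (N := N) (⟨h1, h2⟩ : s ∈ Icc a b)
  rw [min_eq_left h.2, max_eq_right h.1, zig_of_mem ⟨h1, h2⟩]

theorem c4_consts (i : ℕ) : ∃ e : ℝ, 0 < e ∧ e ≤ 1 ∧ (1 / 2 : ℝ) ^ (i + 7) = e / 128 ∧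
    ll i = -1 - e ∧ ll (i + 1) = -1 - e / 2 ∧ ll (i + 1 + 1) = -1 - e / 4 ∧
    RR i = 2 + e / 4 ∧ RR (i + 1) = 2 + e / 8 ∧ RR (i + 1 + 1) = 2 + e / 16 ∧
    pL i (3 / 4) = -1 - 5 * e / 8 ∧ pR i (3 / 4) = 2 + 5 * e / 32 ∧
    pL (i + 1) (3 / 4) = -1 - 5 * e / 16 ∧ pR (i + 1) (3 / 4) = 2 + 5 * e / 64 := by
  refine ⟨(1 / 2) ^ i, by positivity, pow_le_one₀ (by norm_num) (by norm_num), ?_⟩
  simp only [ll, RR, pL, pR, uu, pow_add]
  refine ⟨?_, trivial, ?_, ?_, ?_, ?_, ?_, ?_, ?_, ?_, ?_⟩ <;> ring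

section
variable {X : Type} [MetricSpace X] [CompactSpace X] {q : ℝ → ℝ} {L L' : ℕ → ℕ → Bool}
  {g g' : X → EE}

omit [CompactSpace X] in
theorem c4_mono {K K' : Set X} {i n cap : ℕ} {s : X → ℝ} (h : Lev L g K i n cap s) (hK : K' ⊆ K) :
    Lev L g K' i n cap s := ⟨h.1, h.2.1, h.2.2.1.mono hK, fun x hx => h.2.2.2 x (hK hx)⟩

omit [CompactSpace X] in
theorem c4_deep {K : Set X} {i n cap : ℕ} {s : X → ℝ} (h : Lev L g K i n cap s) {x : X}
    (hx : x ∈ K) (he : et L (TT g x) < 0) : DD L (TT g x) ≤ cap := by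
  rw [(h.2.2.2 x hx).2.2 ?_]
  · exact Dp_le _ _ _ _ _ _
  by_contra hc
  have h1 : 1 ≤ |xx (TT g x) - 1| := by
    rw [mem_Ioo, not_and_or, not_lt, not_lt] at hc
    rw [le_abs]; rcases hc with hc | hc
    exacts [Or.inr (by linarith), Or.inl (by linarith)]
  rw [et, eta, etaL, max_eq_left (by linarith : 1 - |xx (TT g x) - 1| ≤ 0)] at he
  linarith [le_max_right (xx (TT g x) - 2) 0]

omit [CompactSpace X] in
theorem c4_next {K : Set X} {i n cap : ℕ} {s : X → ℝ} (h : Lev L g K i n cap s) (hi : i < n) {x : X}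
    (hx : x ∈ K) : xx (TT g x) = Xp (2 * n + 1) (n - (i + 1)) (i + 1)
      (zig (ll (i + 1)) (RR (i + 1)) (2 * n + 1) (s x)) := by
  rw [(h.2.2.2 x hx).2.1, show n - i = n - (i + 1) + 1 by omega, Xp]

theorem PAIR2 (hq : QSpec q) (hg : Continuous g) (hg' : Continuous g') (hY : ∀ x, g x ∈ YY q L)
    (hY' : ∀ x, g' x ∈ YY q L') {W : (ℕ → Bool) → ℕ → ℤ} (hW : WSpec W) {i : ℕ}
    {c c' : ℕ → Bool} (hcc : c ≠ c') (hL : L i = lab (W c)) (hL' : L' i = lab (W c'))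
    {δ θ θ' : ℝ} (hδ : δ ≤ (1 / 2) ^ (i + 7)) (hd : ∀ x, dist (g x) (g' x) < δ)
    (hθ : θ' + δ ≤ θ) (hθ' : θ + δ < 1 / 2) {𝒞 : Set (Set X)} (hR : ∀ C ∈ 𝒞, ∀ x ∈ C, Ry g' x)
    {F : Set X} (h : Str L g 𝒞 i θ F) :
    (∃ d, Str L g 𝒞 (i + 1) θ' (F ∩ Kset g' d (θ + δ))) ∨
      ∃ d, Str L' g' 𝒞 (i + 1) θ' (F ∩ Kset g d (θ + δ)) := by
  obtain ⟨G, hG⟩ := hW.inc c c' hcc
  by_contra hcon
  rw [not_or, not_exists, not_exists] at hcon
  obtain ⟨k2, hk2⟩ := not_forall.1 (hcon.2 (i + G))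
  obtain ⟨k3, hk3⟩ := not_forall.1 (hcon.1 (i + G + k2))
  obtain ⟨K0, n, cap, s, hK0, hc0, ⟨C, hC, hKC⟩, hlev0, hk, ⟨y0, hy0, hy0'⟩, ⟨y1, hy1, hy1'⟩, hF⟩ :=
    h (i + G + k3 + 1)
  obtain ⟨e, he, he1, eδ, l0, l1, l2, r0, r1, r2, p0, p0', p1, p1'⟩ := c4_consts i
  have hδ0 : 0 < δ := dist_nonneg.trans_lt (hd y0)
  rw [eδ] at hδ
  have hin : i < n := by have := hlev0.2.1; omega
  have hN : ∀ n : ℕ, Odd (2 * n + 1) := fun n => odd_two_mul_add_one n
  obtain ⟨K, hKK, hK, hc, hs, ⟨x0, hx0, e0⟩, x1, hx1, e1⟩ :=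
    BB2 hK0 hc0 hlev0.2.2.1 (by linarith only [hδ, p0, p0', hδ0]) hy0 hy0' hy1 hy1'
  have hlev := c4_mono hlev0 hKK
  have hR' : ∀ x ∈ K, Ry g' x := fun x hx => hR C hC x (hKC (hKK hx))
  have ex0 : xx (TT g x0) = pL i (3 / 4) := by
    rw [(hlev.2.2.2 x0 hx0).2.1, Xp_of_le _ _ _ (by linarith only [hδ, l1, p0, hδ0, e0]), e0]
  have hsy := SYNC hq hg hg' hY hY' (by linarith only [hδ, he1, hδ0]) hd hc
    (fun x hx => ⟨(hlev.2.2.2 x hx).1, hR' x hx⟩) ⟨x0, hx0, by linarith only [hδ, p0, hδ0, ex0]⟩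
  have hcl : ∀ x ∈ K, c4_Cl δ (xx (TT g x)) (xx (TT g' x)) := fun x hx => (hsy x hx).2
  -- `g` wins
  have win : ∀ K' ⊆ K, IsCompact K' → IsPreconnected K' → ∀ s1, Lev L g K' (i + 1) n cap s1 →
      (∃ x ∈ K', s1 x ≤ pL (i + 1) (3 / 4)) → (∃ x ∈ K', pR (i + 1) (3 / 4) ≤ s1 x) →
      (∀ x ∈ K', et L' (TT g' x) < 0 → DD L' (TT g' x) ≤ i + G + k2) → False := by
    intro K' h1 h2 h3 s1 h4 h5 h6 h7
    refine hk3 ⟨K', n, cap, s1, h2, h3, ⟨C, hC, (h1.trans hKK).trans hKC⟩, h4, by omega, h5, h6,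
      fun x hx hx' => ?_⟩
    have := abs_lt.1 (hsy x (h1 hx)).1
    exact ⟨hF x (hKK (h1 hx)) (by linarith only [hθ, hδ0, hx']),
      mem_Kset hq hY' (hR' x (h1 hx)) hθ' (by linarith only [hθ, hδ0, hx', this]) (h7 x hx (by linarith only [hθ, hθ', hx', this]))⟩
  have winA : (∀ x ∈ K, et L' (TT g' x) < 0 → DD L' (TT g' x) ≤ i + G + k2) → False := fun h7 => by
    obtain ⟨K', h1, h2, h3, s1, h4, ⟨a, ha, ha'⟩, b, hb, hb'⟩ :=
      DESC hK hc hlev hin ⟨x0, hx0, by linarith only [hδ, l1, p0, hδ0, e0]⟩ ⟨x1, hx1, by linarith only [hδ, r1, p0', hδ0, e1]⟩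
    exact win K' h1 h2 h3 s1 h4 ⟨a, ha, by linarith only [hδ, l1, p1, hδ0, ha']⟩ ⟨b, hb, by linarith only [hδ, r1, p1', hδ0, hb']⟩ fun x hx => h7 x (h1 hx)
  have hJ : ∀ x ∈ K, Ry g' x ∧ xx (TT g' x) ∈ Ioo (ll i) (RR i) := fun x hx => by
    have ex := (hlev.2.2.2 x hx).2.1
    have b1 : pL i (3 / 4) ≤ xx (TT g x) := by
      by_contra! hlt
      have := c4_le (hN n) (ex ▸ (by linarith only [hδ, l1, p0, hδ0, hlt] : xx (TT g x) < ll (i + 1)))
      linarith only [(hs x hx).1, ex, hlt, this]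
    have b2 : xx (TT g x) ≤ pR i (3 / 4) := by
      by_contra! hlt
      have := c4_ge (hN n) (ex ▸ (by linarith only [hδ, r1, p0', hδ0, hlt] : RR (i + 1) < xx (TT g x)))
      linarith only [(hs x hx).2, ex, hlt, this]
    exact ⟨hR' x hx, by linarith only [(hcl x hx).lo (by linarith only [hδ, p0, hδ0]) b1, hδ, l0, p0, hδ0],
      by linarith only [(hcl x hx).hi (by linarith only [hδ, p0', hδ0]) b2, hδ, r0, p0', hδ0]⟩
  rcases UP hq hg' hY' hc ⟨x0, hx0⟩ i hJ with hA | ⟨n', cap', s', hlev'⟩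
  · exact winA fun x hx _ => (hA x hx).trans (by omega)
  by_cases hcap : cap' ≤ i + G + k2
  · exact winA fun x hx hx' => (c4_deep hlev' hx hx').trans hcap
  have hin' : i < n' := by have := hlev'.2.1; omega
  have hlr := ll_lt_RR (i + 1) (i + 1)
  have hw : 3 < RR (i + 1) - ll (i + 1) := by linarith only [hδ, l1, r1, hδ0]
  have ha : 0 < δ / (RR (i + 1) - ll (i + 1)) := by positivity
  have ha' : (RR (i + 1) - ll (i + 1)) * (δ / (RR (i + 1) - ll (i + 1))) = δ := by field_simp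
  set a := δ / (RR (i + 1) - ll (i + 1))
  have cl := fun x => c4_clamp hlr (hN n) (s x)
  have cl' := fun x => c4_clamp hlr (hN n') (s' x)
  obtain ⟨m, hm, m', hm', hlab, K', h1, h2, h3, hz, ⟨u, hu, hu'⟩, v, hv, hv'⟩ := WIND hK hc
    (z := fun x => zc (ll (i + 1)) (RR (i + 1)) (2 * n + 1) (s x))
    (z' := fun x => zc (ll (i + 1)) (RR (i + 1)) (2 * n' + 1) (s' x))
    ((continuous_zc _ _ _).comp_continuousOn hlev.2.2.1)
    ((continuous_zc _ _ _).comp_continuousOn hlev'.2.2.1)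
    (fun x _ => ⟨zc_nonneg hlr, zc_nonneg hlr⟩) (hW.zero c) (hW.zero c') (hW.step c) (hW.step c')
    hG hx0 (zc_of_le (by linarith only [hδ, l1, p0, hδ0, e0])) (zc_of_le (by
      have b1 := (hcl x0 hx0).lo' (by linarith only [hδ, p0, hδ0]) ex0.le
      have ex := (hlev'.2.2.2 x0 hx0).2.1
      have := c4_le (hN n') (ex ▸ (by linarith only [hδ, l1, p0, hδ0, b1] : xx (TT g' x0) < ll (i + 1)))
      linarith only [hδ, l1, p0, hδ0, b1, ex, this])) hx1 (by
      rw [zc_of_ge hlr (by linarith only [hδ, r1, p0', hδ0, e1])]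
      have := hlev.2.1
      exact_mod_cast (by omega : G ≤ 2 * n + 1)) ha ha (by nlinarith only [hδ, l1, r1, hδ0, ha']) ha
    (fun x hx ht => by
      have b0 := cl' x
      rw [ht, mul_zero, add_zero, eq_comm, max_eq_left_iff, min_le_iff] at b0
      have b1 := b0.resolve_right (not_le.2 hlr)
      have ex' := c4_next hlev' hin' hx
      rw [Xp_of_le _ _ _ (by linarith only [hδ, l1, l2, hδ0, b1])] at ex'
      have b2 := (hcl x hx).symm.lo' (by linarith only [hδ, l1, hδ0]) (ex'.trans_le b1)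
      have ex := c4_next hlev hin hx
      have b3 := c4_le (hN n) (ex ▸ (by linarith only [hδ, l1, l2, hδ0, b2] : xx (TT g x) < ll (i + 1 + 1)))
      have b4 : ll (i + 1) + (RR (i + 1) - ll (i + 1)) *
          tri (zc (ll (i + 1)) (RR (i + 1)) (2 * n + 1) (s x)) ≤ ll (i + 1) + δ := by
        rw [cl x]; exact max_le (by linarith only [hδ0]) ((min_le_left _ _).trans (by linarith only [b2, ex, b3]))
      exact le_of_mul_le_mul_left (by linarith only [ha', b4]) (by linarith only [hδ, l1, r1, hδ0] : 0 < RR (i + 1) - ll (i + 1)))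
    (fun x hx ht => by
      have b0 := cl' x
      rw [ht, mul_one, add_sub_cancel] at b0
      have b1 : RR (i + 1) ≤ zig (ll (i + 1)) (RR (i + 1)) (2 * n' + 1) (s' x) := by
        rcases le_max_iff.1 b0.le with b | b
        exacts [absurd b (not_le.2 hlr), (le_min_iff.1 b).1]
      have ex' := c4_next hlev' hin' hx
      rw [Xp_of_ge (hN n') _ _ (by linarith only [hδ, r1, r2, hδ0, b1])] at ex'
      have b2 := (hcl x hx).symm.hi' (by linarith only [hδ, r1, hδ0]) (b1.trans_eq ex'.symm)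
      have ex := c4_next hlev hin hx
      have b3 := c4_ge (hN n) (ex ▸ (by linarith only [hδ, r1, r2, hδ0, b2] : RR (i + 1 + 1) < xx (TT g x)))
      have b4 : RR (i + 1) - δ ≤ ll (i + 1) + (RR (i + 1) - ll (i + 1)) *
          tri (zc (ll (i + 1)) (RR (i + 1)) (2 * n + 1) (s x)) := by
        rw [cl x]; exact le_max_of_le_right (le_min (by linarith only [b2, ex, b3]) (by linarith only [hδ0]))
      exact le_of_mul_le_mul_left (by linarith only [ha', b4]) (by linarith only [hδ, l1, r1, hδ0] : 0 < RR (i + 1) - ll (i + 1)))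
  have L1 := Lev.succ (c4_mono hlev h1) hin (m := m) (by have := hlev.2.1; omega)
    fun x hx => Ioo_subset_Icc_self (hz x hx).1
  have L1' := Lev.succ (c4_mono hlev' h1) hin' (m := m') (by have := hlev'.2.1; omega)
    fun x hx => Ioo_subset_Icc_self (hz x hx).2
  have su : zig (ll (i + 1)) (RR (i + 1)) (2 * n + 1) (s u) ≤ ll (i + 1) + 2 * δ := by
    have b := mul_le_mul_of_nonneg_left hu' (by linarith only [hδ, l1, r1, hδ0] : 0 ≤ RR (i + 1) - ll (i + 1))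
    have b1 := (le_max_right _ _).trans (cl u).ge
    rcases min_le_iff.1 b1 with b2 | b2 <;> linarith only [ha', b, b2, hδ, l1, r1, hδ0]
  have sv : RR (i + 1) - 2 * δ ≤ zig (ll (i + 1)) (RR (i + 1)) (2 * n + 1) (s v) := by
    have b := mul_le_mul_of_nonneg_left hv' (by linarith only [hδ, l1, r1, hδ0] : 0 ≤ RR (i + 1) - ll (i + 1))
    rcases le_max_iff.1 (cl v).le with b2 | b2
    · linarith only [hδ, l1, r1, hδ0, ha', b, b2]
    · linarith only [(le_min_iff.1 b2).1, ha', b]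
  cases hb : lab (W c) m
  · have hb' : lab (W c') m' = true := by simpa [hb] using hlab
    have e2 : nxt L i cap m = cap := by simp [nxt, hL, hb]
    rw [e2] at L1
    refine win K' h1 h2 h3 _ L1 ⟨u, hu, by linarith only [hδ, l1, p1, hδ0, su]⟩ ⟨v, hv, by linarith only [hδ, r1, p1', hδ0, sv]⟩ fun x hx hx' =>
      (c4_deep L1' hx hx').trans ?_
    simp only [nxt, hL', hb', if_true]; omega
  · have hb' : lab (W c') m' = false := by simpa [hb] using hlab
    have e2 : nxt L' i cap' m' = cap' := by simp [nxt, hL', hb']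
    rw [e2] at L1'
    refine hk2 ⟨K', n', cap', _, h2, h3, ⟨C, hC, (h1.trans hKK).trans hKC⟩, L1', by omega,
      ⟨u, hu, ?_⟩, ⟨v, hv, ?_⟩, fun x hx hx' => ?_⟩
    · have ex := c4_next hlev hin (h1 hu)
      rw [Xp_of_le _ _ _ (by linarith only [hδ, l1, l2, hδ0, su])] at ex
      have b2 := (hcl u (h1 hu)).lo' (by linarith only [hδ, l1, hδ0]) (ex.trans_le su)
      have ex' := c4_next hlev' hin' (h1 hu)
      have b3 := c4_le (hN n') (ex' ▸ (by linarith only [hδ, l1, l2, hδ0, b2] : xx (TT g' u) < ll (i + 1 + 1)))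
      linarith only [hδ, l1, p1, hδ0, b2, ex', b3]
    · have ex := c4_next hlev hin (h1 hv)
      rw [Xp_of_ge (hN n) _ _ (by linarith only [hδ, r1, r2, hδ0, sv])] at ex
      have b2 := (hcl v (h1 hv)).hi' (by linarith only [hδ, r1, hδ0]) (sv.trans_eq ex.symm)
      have ex' := c4_next hlev' hin' (h1 hv)
      have b3 := c4_ge (hN n') (ex' ▸ (by linarith only [hδ, r1, r2, hδ0, b2] : RR (i + 1 + 1) < xx (TT g' v)))
      linarith only [hδ, r1, p1', hδ0, b2, ex', b3]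
    · have := abs_lt.1 (hsy x (h1 hx)).1
      refine ⟨hF x (hKK (h1 hx)) (by linarith only [hθ, hx', this]), mem_Kset hq hY (L1.2.2.2 x hx).1 hθ' (by linarith only [hθ, hδ0, hx', this])
        ((c4_deep L1 hx (by linarith only [hθ, hθ', hx', this])).trans ?_)⟩
      simp only [nxt, hL, hb, if_true]; omega
end

theorem c5_xx (n : ℕ) : xx n = -2 := by
  have h : s0 n = ll 0 := by
    have := tri_nat_even (m := 2 * n) (even_two_mul n)
    push_cast at this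
    rw [s0, this]; ring
  rw [xx, h, Xp_of_le _ _ _ (ll_mono (Nat.zero_le _)), ll_zero]

theorem c5_DD (L : ℕ → ℕ → Bool) {t : ℝ} {d : ℕ} (h : t ≤ d) : DD L t ≤ d :=
  (Dp_le _ _ _ _ _ _).trans (Nat.floor_le_of_le h)

theorem c5_close {y y' : EE} {δ : ℝ} (h : dist y y' < δ) :
    |y.2.2.2.1 - y'.2.2.2.1| < δ ∧ |y.2.2.2.2 - y'.2.2.2.2| < δ := by
  simp only [Prod.dist_eq, max_lt_iff, Real.dist_eq] at h
  exact ⟨h.2.2.2.1, h.2.2.2.2⟩

section
variable {X : Type} [MetricSpace X] [CompactSpace X] {q : ℝ → ℝ} {L L' : ℕ → ℕ → Bool}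
  {g g' : X → EE}

theorem c5_P (hq : QSpec q) (hY : ∀ x, g x ∈ YY q L) {x : X} (hx : Ry g x) :
    (g x).2.2.2.1 = PP (TT g x) := congrArg (fun y : EE => y.2.2.2.1) (ray_eq hq hY hx).2

omit [MetricSpace X] [CompactSpace X] in
theorem c5_Q {x : X} (hx : Ry g x) : (g x).2.2.2.2 = TT g x * (g x).2.2.2.1 := by
  rw [TT, div_mul_cancel₀ _ (ne_of_gt hx)]

theorem c5_bump (hq : QSpec q) (hg : Continuous g) (hY : ∀ x, g x ∈ YY q L) {K : Set X}
    (hK : IsCompact K) (hc : IsPreconnected K) {a b : ℝ} (ha : 0 < a) {y : X} (hy : y ∈ K)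
    (hyR : Ry g y) (hyt : TT g y ∈ Icc a b) (hn : ∃ z ∈ K, ¬ (Ry g z ∧ TT g z ∈ Icc a b)) :
    ∃ K' ⊆ K, IsCompact K' ∧ IsPreconnected K' ∧ y ∈ K' ∧ (∀ z ∈ K', Ry g z ∧ TT g z ∈ Icc a b) ∧
      ∃ z ∈ K', TT g z = a ∨ TT g z = b := by
  have hb : 0 < b := ha.trans_le (hyt.1.trans hyt.2)
  set p := a / (2 * (1 + b) ^ 4) with hp
  have hp0 : 0 < p := by positivity
  let φ : X → ℝ := fun x => max (max (a * (g x).2.2.2.1 - (g x).2.2.2.2)
    ((g x).2.2.2.2 - b * (g x).2.2.2.1)) (p - (g x).2.2.2.1)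
  have hφ : Continuous φ := by fun_prop
  have h1 : ∀ x, φ x ≤ 0 → Ry g x ∧ TT g x ∈ Icc a b := by
    intro x hx
    simp only [φ, max_le_iff] at hx
    have hP : 0 < (g x).2.2.2.1 := by linarith only [hx.2, hp0]
    exact ⟨hP, (le_div_iff₀ hP).2 (by linarith only [hx.1.1]), (div_le_iff₀ hP).2 (by linarith [hx.1.2])⟩
  have h2 : ∀ x, Ry g x → TT g x ∈ Icc a b → p < (g x).2.2.2.1 := by
    intro x hx ht
    have h0 : 0 < TT g x := ha.trans_le ht.1
    rw [c5_P hq hY hx, PP]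
    calc p < a / (1 + b) ^ 4 := div_lt_div_of_pos_left ha (by positivity)
          (by linarith only [show 0 < (1 + b) ^ 4 by positivity])
      _ ≤ _ := by gcongr; exacts [ht.1, ht.2]
  obtain ⟨z, hz, hzn⟩ := hn
  obtain ⟨K', k1, k2, k3, k4, k5, w, hw, hw0⟩ := BB hK hc hφ.continuousOn (c := 0) hy (by
    have := h2 y hyR hyt
    have hP : 0 < (g y).2.2.2.1 := hyR
    simp only [φ, max_le_iff, c5_Q hyR]
    refine ⟨⟨?_, ?_⟩, by linarith only [this]⟩ <;> nlinarith only [hyt.1, hyt.2, hp0, this]) hz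
    (not_lt.1 fun h => hzn (h1 z h.le))
  refine ⟨K', k1, k2, k3, k4, fun v hv => h1 v (k5 v hv), w, hw, ?_⟩
  obtain ⟨hR, ht⟩ := h1 w hw0.le
  have h3 := h2 w hR ht
  have hP : 0 < (g w).2.2.2.1 := hR
  by_contra hne
  push Not at hne
  have h4 := lt_of_le_of_ne ht.1 hne.1.symm
  have h5 := lt_of_le_of_ne ht.2 hne.2
  refine hw0.not_lt ?_
  simp only [φ, max_lt_iff, c5_Q hR]
  refine ⟨⟨?_, ?_⟩, by linarith only [h3]⟩ <;> nlinarith only [hp0, h3, h4, h5]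

theorem FS_init [ConnectedSpace X] (hq : QSpec q) (hg : Continuous g) (hY : ∀ x, g x ∈ YY q L)
    (hs : YY q L ⊆ range g) : ∃ T0 : ℕ, ∀ θ, FS L g T0 θ univ := by
  have hpt : ∀ t : ℝ, 0 < t → ∃ y, Ry g y ∧ TT g y = t := by
    intro t ht
    obtain ⟨y, hy⟩ := hs (subset_closure ⟨t, ht.le, rfl⟩)
    refine ⟨y, ?_, ?_⟩
    · rw [Ry, hy]; show 0 < t / (1 + t) ^ 4; positivity
    · rw [TT, hy]; show t ^ 2 / (1 + t) ^ 4 / (t / (1 + t) ^ 4) = t; field_simp
  by_cases h : ∀ T : ℕ, ∃ C, FS1 L g 2 0 univ T C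
  · refine ⟨2, fun θ T => ?_⟩
    obtain ⟨C, h1, h2, h3, h4, h5, -⟩ := h T
    exact ⟨C, h1, h2, h3, by exact_mod_cast h4, h5, fun _ _ _ => trivial⟩
  push Not at h
  obtain ⟨S, hS⟩ := h
  refine ⟨S + 2, fun θ T => ?_⟩
  have hS0 : (0 : ℝ) ≤ S := Nat.cast_nonneg _
  have hT0 : (0 : ℝ) ≤ T := Nat.cast_nonneg _
  obtain ⟨y, hy, hyt⟩ := hpt (S + 2) (by linarith)
  obtain ⟨z, -, hzt⟩ := hpt (S + 2 + T + 1) (by linarith only [])
  obtain ⟨K, -, k2, k3, k4, k5, w, hw, hwt⟩ := c5_bump hq hg hY isCompact_univ isPreconnected_univ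
    (a := 2) (b := S + 2 + T) two_pos (mem_univ y) hy ⟨by linarith, by linarith⟩
    ⟨z, trivial, fun h => by linarith [h.2.2]⟩
  have k6 : ∀ x ∈ K, Ry g x ∧ 1 ≤ TT g x := fun x hx => ⟨(k5 x hx).1, by linarith [(k5 x hx).2.1]⟩
  rcases hwt with hwt | hwt
  · exact (hS K ⟨k2, k3, k6, ⟨w, hw, hwt.le⟩, ⟨y, k4, by linarith⟩, fun _ _ _ => trivial⟩).elim
  · exact ⟨K, k2, k3, k6, ⟨y, k4, by push_cast; linarith⟩, ⟨w, hw, by linarith⟩,
      fun _ _ _ => trivial⟩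

theorem PAIR1 (hq : QSpec q) (hg : Continuous g) (hg' : Continuous g') (hY : ∀ x, g x ∈ YY q L)
    (hY' : ∀ x, g' x ∈ YY q L') {T0 T1 δ θ θ' : ℝ} (hT0 : 1 ≤ T0) (hδ : δ ≤ 1 / (8 * (1 + T0) ^ 4))
    (hT1 : T0 ≤ T1) (hT1' : 1 ≤ δ * T1) (hd : ∀ x, dist (g x) (g' x) < δ)
    (hθ : θ' + δ ≤ θ) (hθ' : θ + δ < 1 / 2) {F : Set X} {C : ℕ → Set X}
    (hC : ∀ T : ℕ, FS1 L g T0 θ F T (C T)) :
    (∃ d, FS L' g' T1 θ' (F ∩ Kset g d (θ + δ))) ∨ (∃ d, FS L g T1 θ' (F ∩ Kset g' d (θ + δ))) ∨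
      ((∀ T, ∀ x ∈ C T, Ry g' x) ∧ ∀ T' : ℕ, ∃ T, (∃ x ∈ C T, TT g' x ≤ T1) ∧
        ∃ x ∈ C T, (T' : ℝ) ≤ TT g' x) := by
  have hδ0 : 0 < δ := by by_contra h; nlinarith only [hT0, hT1, hT1', h]
  have hδ1 : δ ≤ 1 / 128 := hδ.trans (one_div_le_one_div_of_le (by norm_num) (by
    have : (2 : ℝ) ^ 4 ≤ (1 + T0) ^ 4 := by gcongr; linarith only [hT0]
    linarith only [this]))
  have hA : ∀ x, Ry g x → 1 ≤ TT g x → TT g x ≤ T0 →
      Ry g' x ∧ 1 / 2 ≤ TT g' x ∧ TT g' x ≤ T1 := by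
    intro x hx h1 h2
    obtain ⟨c1, c2⟩ := c5_close (hd x)
    rw [abs_lt] at c1 c2
    have hP : 8 * δ ≤ (g x).2.2.2.1 := by
      rw [c5_P hq hY hx, PP]
      calc 8 * δ ≤ 8 * (1 / (8 * (1 + T0) ^ 4)) := by linarith only [hδ]
        _ = 1 / (1 + T0) ^ 4 := by field_simp
        _ ≤ _ := by gcongr
    have hR : Ry g' x := show 0 < (g' x).2.2.2.1 by linarith only [c1.2, hδ0, hP]
    have hP' : 0 < (g' x).2.2.2.1 := hR
    refine ⟨hR, not_lt.1 fun h => ?_, not_lt.1 fun h => ?_⟩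
    · rw [c5_Q hx, c5_Q hR] at c2
      nlinarith only [c2.2, h1, c1, hP, h]
    · have h0 : 0 < TT g' x := by linarith only [hT0, hT1, hδ0, hδ1, h]
      have : (g' x).2.2.2.1 ≤ δ := by
        rw [c5_P hq hY' hR, PP, div_le_iff₀ (by positivity)]
        have h3 : TT g' x ^ 2 ≤ (1 + TT g' x) ^ 4 := by nlinarith only [hT0, hT1, h]
        have h4 : 1 ≤ δ * TT g' x := by nlinarith only [hT0, hT1, hT1', h]
        nlinarith only [hT0, hT1, hT1', h, h3]
      linarith only [c1.2, hδ0, hP, this]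
  have hB : ∀ x, Ry g x → 1 ≤ TT g x → Ry g' x → TT g' x ≠ 1 / 2 := by
    intro x hx h1 hx' h
    have c1 := (abs_lt.1 (c5_close (hd x)).1).1
    rw [c5_P hq hY hx, c5_P hq hY' hx', h] at c1
    have h2 : PP (TT g x) ≤ 1 / 16 := by
      rw [PP, div_le_iff₀ (by positivity)]
      nlinarith only [sq_nonneg ((TT g x) ^ 2 - 1), h1]
    norm_num only [PP, neg_lt_sub_iff_lt_add] at c1 h2
    linarith only [hδ1, c1, h2]
  by_cases hR : ∀ T, ∀ x ∈ C T, Ry g' x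
  · by_cases hU : ∀ T' : ℕ, ∃ T, ∃ x ∈ C T, (T' : ℝ) ≤ TT g' x
    · refine Or.inr (Or.inr ⟨hR, fun T' => ?_⟩)
      obtain ⟨T, hT⟩ := hU T'
      obtain ⟨-, -, h3, ⟨y, hy, hyt⟩, -⟩ := hC T
      exact ⟨T, ⟨y, hy, (hA y (h3 y hy).1 (h3 y hy).2 hyt).2.2⟩, hT⟩
    push Not at hU
    obtain ⟨d, hU⟩ := hU
    refine Or.inr (Or.inl ⟨d, fun T => ?_⟩)
    obtain ⟨h1, h2, h3, ⟨y, hy, hyt⟩, ⟨z, hz, hzt⟩, h6⟩ := hC (⌈T0⌉₊ + T)
    have hle : T0 + T ≤ ((⌈T0⌉₊ + T : ℕ) : ℝ) := by push_cast; linarith only [Nat.le_ceil T0]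
    have hT : (0 : ℝ) ≤ T := Nat.cast_nonneg _
    obtain ⟨w, hw, hwt⟩ := h2.intermediate_value hy hz
      ((cont_TT hg).mono fun x hx => (h3 x hx).1) (show ((⌈T0⌉₊ + T : ℕ) : ℝ) ∈ _ from
        ⟨by linarith only [hyt, hle], hzt⟩)
    have hs := SYNC hq hg hg' hY hY' (by linarith only [hδ0, hδ1]) hd h2 (fun x hx => ⟨(h3 x hx).1, hR _ x hx⟩)
      ⟨w, hw, by rw [hwt, c5_xx]; linarith only [hδ0, hδ1]⟩
    refine ⟨_, h1, h2, h3, ⟨y, hy, by linarith only [hT1, hyt]⟩, ⟨z, hz, by linarith only [hT0, hδ0, hδ1, hzt, hle]⟩, fun x hx he =>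
      ⟨h6 x hx (by linarith only [hθ, hδ0, he]), mem_Kset hq hY' (hR _ x hx) hθ' ?_ (c5_DD _ (hU _ x hx).le)⟩⟩
    linarith only [(abs_lt.1 (hs x hx).1).1, hθ, hδ0, he]
  · push Not at hR
    obtain ⟨S, x₀, hx₀, hn⟩ := hR
    obtain ⟨h1, h2, h3, ⟨y, hy, hyt⟩, -, h6⟩ := hC S
    obtain ⟨M, hM⟩ := h1.bddAbove_image ((cont_TT hg).mono fun x hx => (h3 x hx).1)
    refine Or.inl ⟨⌈M⌉₊, fun T => ?_⟩
    obtain ⟨a1, a2, a3⟩ := hA y (h3 y hy).1 (h3 y hy).2 hyt
    have hle : T1 + T ≤ ((⌈T1⌉₊ + T : ℕ) : ℝ) := by push_cast; linarith only [Nat.le_ceil T1]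
    have hT : (0 : ℝ) ≤ T := Nat.cast_nonneg _
    obtain ⟨K, k1, k2, k3, k4, k5, w, hw, hwt⟩ := c5_bump hq hg' hY' h1 h2 (a := 1 / 2)
      (b := ((⌈T1⌉₊ + T : ℕ) : ℝ)) one_half_pos hy a1 ⟨a2, by linarith only [a3, hle]⟩ ⟨x₀, hx₀, fun h => hn h.1⟩
    have hwb := hwt.resolve_left (hB w (h3 w (k1 hw)).1 (h3 w (k1 hw)).2 (k5 w hw).1)
    obtain ⟨K', l1, l2, l3, l4, ⟨u, hu, hut⟩, v, hv, hvt⟩ := BB2 k2 k3
      ((cont_TT hg').mono fun x hx => (k5 x hx).1) (a := T1) (b := ((⌈T1⌉₊ + T : ℕ) : ℝ))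
      (by linarith only [hle]) k4 a3 hw hwb.ge
    have hs := SYNC hq hg' hg hY' hY (δ := δ) (by linarith only [hδ0, hδ1]) (fun x => by rw [dist_comm]; exact hd x)
      l3 (fun x hx => ⟨(k5 x (l1 hx)).1, (h3 x (k1 (l1 hx))).1⟩)
      ⟨v, hv, by rw [hvt, c5_xx]; linarith only [hδ0, hδ1]⟩
    refine ⟨K', l2, l3, fun x hx => ⟨(k5 x (l1 hx)).1, by linarith only [(l4 x hx).1, hT0, hT1]⟩, ⟨u, hu, hut.le⟩,
      ⟨v, hv, by linarith only [hT0, hT1, hδ0, hδ1, hle, hvt]⟩, fun x hx he => ?_⟩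
    have h7 := (abs_lt.1 (hs x hx).1).1
    have h8 := k1 (l1 hx)
    exact ⟨h6 x h8 (by linarith only [hθ, he, h7]), mem_Kset hq hY (h3 x h8).1 hθ' (by linarith only [hθ, hδ0, he, h7])
      (c5_DD _ ((hM ⟨x, h8, rfl⟩).trans (Nat.le_ceil M)))⟩
end

end Pool.Agent.MP_d9472f_gt.Q2

end
end

-- part MP_d9472f_gt.Q2.Main
section

/-! The two phases and the final contradiction. -/

open Set Filter Topology

noncomputable section
namespace Pool.Agent.MP_d9472f_gt.Q2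

theorem YY_real {q : ℝ → ℝ} (hq : QSpec q) (L : ℕ → ℕ → Bool) : IsRealCurve (YY q L) := by
  obtain ⟨f, hf, hi, hr⟩ := exists_param hq L
  have e : range f = YY q L := by
    rw [hr]
    refine Subset.antisymm (union_subset (W0_subset hq L)
      ((image_mono Ioi_subset_Ici_self).trans subset_closure)) fun y hy => ?_
    rcases mem_YY hq L hy with ⟨t, ht, rfl⟩ | h
    exacts [Or.inr ⟨t, ht, rfl⟩, Or.inl h]
  refine ⟨(YY_wc hq L).1, fun t => ⟨f t, e ▸ mem_range_self t⟩, hf.subtype_mk _,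
    fun a b h => hi (congrArg Subtype.val h), fun y => ?_⟩
  obtain ⟨t, ht⟩ : y.1 ∈ range f := by rw [e]; exact y.2
  exact ⟨t, Subtype.ext ht⟩

/-- thresholds for the deep part -/
def th (j : ℕ) : ℝ := 1 / 4 + (1 / 2) ^ (j + 3)

theorem th_pos (j : ℕ) : 0 < th j := by unfold th; positivity

theorem th_step {j : ℕ} {δ : ℝ} (h : δ ≤ (1 / 2) ^ (j + 7)) :
    th (j + 1) + δ ≤ th j ∧ th j + δ < 1 / 2 := by
  have h1 : ((1 : ℝ) / 2) ^ j ≤ 1 := pow_le_one₀ (by norm_num) (by norm_num)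
  have h2 : (0 : ℝ) < (1 / 2) ^ j := by positivity
  unfold th
  rw [pow_add] at h
  rw [show j + 1 + 3 = j + 4 from rfl, pow_add, pow_add]
  constructor <;> linarith only [h, h2, h1]

theorem close_coords {y y' : EE} {δ : ℝ} (h : dist y y' < δ) :
    |‖y.1‖ - ‖y'.1‖| ≤ δ ∧ |y.2.2.1 - y'.2.2.1| ≤ δ := by
  simp only [Prod.dist_eq, max_lt_iff] at h
  exact ⟨(abs_norm_sub_norm_le _ _).trans (by rw [← dist_eq_norm]; exact h.1.le), h.2.2.1.le⟩

theorem nonempty_of_not_small {i : ℕ} {A : Set (ℕ → ℕ → Bool)} (h : ¬ Small i A) : A.Nonempty := by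
  obtain ⟨α, hα, -⟩ := exists_ne_of_not_small h
  exact ⟨α, hα⟩

theorem not_small_diff {i j : ℕ} (hij : i ≤ j) {A : Set (ℕ → ℕ → Bool)} (h : ¬ Small i A)
    (Win : ℕ → Set (ℕ → ℕ → Bool)) : ¬ Small i {α ∈ A | ∀ n, α ∈ Win n → ¬ Small j (Win n)} := by
  intro hs
  refine h (Small.mono (Small.iUnion (κ := Option {n // Small j (Win n)})
    (A := fun o => o.elim {α ∈ A | ∀ n, α ∈ Win n → ¬ Small j (Win n)} fun n => Win n)
    fun o => ?_) le_rfl fun α hα => ?_)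
  · rcases o with _ | n
    exacts [hs, n.2.mono hij subset_rfl]
  · by_cases hc : ∀ n, α ∈ Win n → ¬ Small j (Win n)
    · exact mem_iUnion.2 ⟨none, hα, hc⟩
    · push Not at hc
      obtain ⟨n, h1, h2⟩ := hc
      exact mem_iUnion.2 ⟨some ⟨n, h2⟩, h1⟩

section
variable {X : Type} [MetricSpace X] [CompactSpace X] {q : ℝ → ℝ} {L : ℕ → ℕ → Bool} {g : X → EE}

omit [CompactSpace X] in
theorem Str.mono {𝒞 : Set (Set X)} {i : ℕ} {θ : ℝ} {F F' : Set X} (h : Str L g 𝒞 i θ F)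
    (hF : F ⊆ F') : Str L g 𝒞 i θ F' := fun k => by
  obtain ⟨K, n, cap, s, h1, h2, h3, h4, h5, h6, h7, h8⟩ := h k
  exact ⟨K, n, cap, s, h1, h2, h3, h4, h5, h6, h7, fun x hx hx' => hF (h8 x hx hx')⟩

omit [CompactSpace X] in
theorem FS.mono {T0 T1 θ : ℝ} {F F' : Set X} (h : FS L g T0 θ F) (hT : T0 ≤ T1) (hF : F ⊆ F') :
    FS L g T1 θ F' := fun T => by
  obtain ⟨C, h1, h2, h3, ⟨x, hx, h4⟩, h5, h6⟩ := h T
  exact ⟨C, h1, h2, h3, ⟨x, hx, h4.trans hT⟩, h5, fun x hx hx' => hF (h6 x hx hx')⟩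

theorem str_zero (hq : QSpec q) (hg : Continuous g) (hY : ∀ x, g x ∈ YY q L) {𝒞 : Set (Set X)}
    {T0 θ : ℝ} {F : Set X} (h : ∀ T : ℕ, ∃ C ∈ 𝒞, IsCompact C ∧ IsPreconnected C ∧
      (∀ x ∈ C, Ry g x) ∧ (∃ x ∈ C, TT g x ≤ T0) ∧ (∃ x ∈ C, (T : ℝ) ≤ TT g x) ∧
      ∀ x ∈ C, et L (TT g x) ≤ -1 + θ → x ∈ F) : Str L g 𝒞 0 θ F := fun k => by
  obtain ⟨C, hC, h1, h2, h3, ⟨x, hx, h4⟩, h5, h6⟩ := h (max k ⌈T0⌉₊ + 1)
  obtain ⟨K, hK, k1, k2, s, k3, ⟨y, hy, k4⟩, z, hz, k5⟩ := STR0 hq hg hY h1 h2 h3 (max k ⌈T0⌉₊)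
    ⟨x, hx, h4.trans ((Nat.le_ceil T0).trans (Nat.cast_le.2 (le_max_right _ _)))⟩
    (by simpa only [Nat.cast_max, Nat.cast_add, Nat.cast_one] using h5)
  refine ⟨K, _, _, s, k1, k2, ⟨C, hC, hK⟩, k3, le_max_left _ _, ⟨y, hy, ?_⟩, ⟨z, hz, ?_⟩,
    fun x hx => h6 x (hK hx)⟩
  · rw [k4, pL]; norm_num
  · rw [k5, pR]; linarith only [uu_pos (0 + 1)]

/-- a closed set of the countable family between the deep part of a loser and its graph part -/
theorem loser_B (hq : QSpec q) (hg : Continuous g) (hY : ∀ x, g x ∈ YY q L) {B : ℕ → Set X}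
    (hB : ∀ K G : Set X, IsClosed K → IsOpen G → K ⊆ G → ∃ n, K ⊆ B n ∧ B n ⊆ G) (d : ℕ) {θ : ℝ}
    (hθ : θ < 1 / 2) : ∃ n, Kset g d θ ⊆ B n ∧ B n ⊆ Los q g := by
  obtain ⟨h1, G, h2, h3, h4⟩ := LOSER hq hg hY d hθ
  obtain ⟨n, h5, h6⟩ := hB _ _ h1 h2 h3
  exact ⟨n, h5, h6.trans h4⟩
end

section
variable {X : Type} [MetricSpace X] [CompactSpace X] {q : ℝ → ℝ} {W : (ℕ → Bool) → ℕ → ℤ}
  {g : (ℕ → ℕ → Bool) → X → EE}

/-- the labels attached to a parameter -/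
def Lb (W : (ℕ → Bool) → ℕ → ℤ) (α : ℕ → ℕ → Bool) (i : ℕ) : ℕ → Bool := lab (W (α i))

theorem PH2 (hX : IsRationalCurve X) (hq : QSpec q) (hW : WSpec W) (hg : ∀ α, Continuous (g α))
    (hY : ∀ α x, g α x ∈ YY q (Lb W α)) {A0 : Set (ℕ → ℕ → Bool)} (hA0 : ¬ Small 0 A0)
    {𝒞 : Set (Set X)} (hR : ∀ α ∈ A0, ∀ C ∈ 𝒞, ∀ x ∈ C, Ry (g α) x)
    (h0 : ∀ α ∈ A0, Str (Lb W α) (g α) 𝒞 0 (th 0) univ) : False := by
  obtain ⟨B, hBc, hB⟩ := BS X
  refine FIN hX hq (fun α x => ‖(g α x).1‖) (fun α x => (g α x).2.2.1)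
    (fun α => (hg α).fst.norm) (fun α => (hg α).snd.snd.fst)
    (fun i A F => A ⊆ A0 ∧ ¬ Small i A ∧ IsClosed F ∧ ∀ α ∈ A, Str (Lb W α) (g α) 𝒞 i (th i) F)
    ?_ ?_ (A := A0) (F := univ) ⟨subset_rfl, hA0, isClosed_univ, h0⟩
  · rintro i A F ⟨hA, hns, hF, hS⟩ δ hδ
    obtain ⟨A', hA', hns', hd⟩ := CLS g hg hns
      (lt_min hδ (show (0 : ℝ) < (1 / 2) ^ (i + 7) by positivity))
    set δ' := min δ ((1 / 2) ^ (i + 7))
    have ht := th_step (show δ' ≤ (1 / 2) ^ (i + 7) from min_le_right _ _)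
    let Win : ℕ → Set (ℕ → ℕ → Bool) := fun n =>
      {α ∈ A' | Str (Lb W α) (g α) 𝒞 (i + 1) (th (i + 1)) (F ∩ B n)}
    obtain ⟨α, hα, β, hβ, hne⟩ := exists_ne_of_not_small (not_small_diff (Nat.le_succ i) hns' Win)
    have fin : ∀ α β, α ∈ {α ∈ A' | ∀ n, α ∈ Win n → ¬ Small (i + 1) (Win n)} → β ∈ A' →
        (∃ d, Str (Lb W α) (g α) 𝒞 (i + 1) (th (i + 1)) (F ∩ Kset (g β) d (th i + δ'))) →
        ∃ β ∈ A, ∃ A' ⊆ A, ∃ F' ⊆ F, IsClosed F' ∧ (A' ⊆ A0 ∧ ¬ Small (i + 1) A' ∧ IsClosed F' ∧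
          ∀ α ∈ A', Str (Lb W α) (g α) 𝒞 (i + 1) (th (i + 1)) F') ∧
          (∀ x ∈ F', 0 < ‖(g β x).1‖ ∧ (g β x).2.2.1 = q ‖(g β x).1‖) ∧
          ∀ α ∈ A', ∀ x, |‖(g α x).1‖ - ‖(g β x).1‖| ≤ δ ∧ |(g α x).2.2.1 - (g β x).2.2.1| ≤ δ := by
      rintro α β hα hβ ⟨d, hd'⟩
      obtain ⟨n, h1, h2⟩ := loser_B hq (hg β) (hY β) hB d ht.2
      exact ⟨β, hA' hβ, Win n, fun γ hγ => hA' hγ.1, F ∩ B n, inter_subset_left, hF.inter (hBc n),
        ⟨fun γ hγ => hA (hA' hγ.1), hα.2 n ⟨hα.1, hd'.mono (inter_subset_inter_right _ h1)⟩,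
          hF.inter (hBc n), fun γ hγ => hγ.2⟩, fun x hx => h2 hx.2,
        fun γ hγ x => close_coords ((hd γ hγ.1 β hβ x).trans_le (min_le_left _ _))⟩
    rcases PAIR2 hq (hg α) (hg β) (hY α) (hY β) hW hne rfl rfl (min_le_right _ _)
      (hd α hα.1 β hβ.1) ht.1 ht.2 (hR β (hA (hA' hβ.1))) (hS α (hA' hα.1)) with h | h
    exacts [fin α β hα hβ.1 h, fin β α hβ hα.1 h]
  · rintro i A F ⟨-, hns, -, hS⟩ ε hε
    obtain ⟨α, hα⟩ := nonempty_of_not_small hns
    exact ⟨α, hα, (hS α hα).big hq (hY α) (th_pos i) hε⟩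

theorem PH1 (hX : IsRationalCurve X) (hq : QSpec q) (hW : WSpec W) (hg : ∀ α, Continuous (g α))
    (hY : ∀ α x, g α x ∈ YY q (Lb W α)) (hs : ∀ α, YY q (Lb W α) ⊆ range (g α)) : False := by
  obtain ⟨B, hBc, hB⟩ := BS X
  have := hX.1.2
  choose T0 hT0 using fun α => FS_init hq (hg α) (hY α) (hs α)
  obtain ⟨T, hT⟩ : ∃ T, ¬ Small 0 {α | T0 α = T} := by
    by_contra! h
    exact not_small_univ ((Small.iUnion h).mono le_rfl fun α _ => mem_iUnion.2 ⟨_, rfl⟩)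
  refine FIN hX hq (fun α x => ‖(g α x).1‖) (fun α x => (g α x).2.2.1)
    (fun α => (hg α).fst.norm) (fun α => (hg α).snd.snd.fst)
    (fun j A F => ¬ Small 0 A ∧ IsClosed F ∧ ∃ T0 : ℝ, 1 ≤ T0 ∧
      ∀ α ∈ A, FS (Lb W α) (g α) T0 (th j) F)
    ?_ ?_ (A := {α | T0 α = T}) (F := univ) ⟨hT, isClosed_univ, T + 1,
      by linarith [Nat.cast_nonneg (α := ℝ) T],
      fun α hα => (hT0 α _).mono (by rw [hα]; linarith) subset_rfl⟩
  · rintro j A F ⟨hns, hF, T0, hT1, hS⟩ δ hδ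
    have hp : 0 < min δ (min ((1 / 2) ^ (j + 7)) (1 / (8 * (1 + T0) ^ 4))) :=
      lt_min hδ (lt_min (by positivity) (by positivity))
    obtain ⟨A', hA', hns', hd⟩ := CLS g hg hns hp
    set δ' := min δ (min ((1 / 2) ^ (j + 7)) (1 / (8 * (1 + T0) ^ 4)))
    have ht := th_step (show δ' ≤ (1 / 2) ^ (j + 7) from
      (min_le_right _ _).trans (min_le_left _ _))
    set T1 := max T0 (1 / δ')
    let Win : ℕ → Set (ℕ → ℕ → Bool) := fun n =>
      {α ∈ A' | FS (Lb W α) (g α) T1 (th (j + 1)) (F ∩ B n)}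
    have hA2 := not_small_diff le_rfl hns' Win
    obtain ⟨α, hα⟩ := nonempty_of_not_small hA2
    have fin : ∀ α β, α ∈ {α ∈ A' | ∀ n, α ∈ Win n → ¬ Small 0 (Win n)} → β ∈ A' →
        (∃ d, FS (Lb W α) (g α) T1 (th (j + 1)) (F ∩ Kset (g β) d (th j + δ'))) →
        ∃ β ∈ A, ∃ A' ⊆ A, ∃ F' ⊆ F, IsClosed F' ∧ (¬ Small 0 A' ∧ IsClosed F' ∧ ∃ T0 : ℝ, 1 ≤ T0 ∧
          ∀ α ∈ A', FS (Lb W α) (g α) T0 (th (j + 1)) F') ∧
          (∀ x ∈ F', 0 < ‖(g β x).1‖ ∧ (g β x).2.2.1 = q ‖(g β x).1‖) ∧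
          ∀ α ∈ A', ∀ x, |‖(g α x).1‖ - ‖(g β x).1‖| ≤ δ ∧ |(g α x).2.2.1 - (g β x).2.2.1| ≤ δ := by
      rintro α β hα hβ ⟨d, hd'⟩
      obtain ⟨n, h1, h2⟩ := loser_B hq (hg β) (hY β) hB d ht.2
      exact ⟨β, hA' hβ, Win n, fun γ hγ => hA' hγ.1, F ∩ B n, inter_subset_left, hF.inter (hBc n),
        ⟨hα.2 n ⟨hα.1, hd'.mono le_rfl (inter_subset_inter_right _ h1)⟩,
          hF.inter (hBc n), T1, hT1.trans (le_max_left _ _), fun γ hγ => hγ.2⟩,
        fun x hx => h2 hx.2,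
        fun γ hγ x => close_coords ((hd γ hγ.1 β hβ x).trans_le (min_le_left _ _))⟩
    choose C hC using hS α (hA' hα.1)
    by_contra hcon
    have h3 : ∀ β ∈ {α ∈ A' | ∀ n, α ∈ Win n → ¬ Small 0 (Win n)},
        (∀ T, ∀ x ∈ C T, Ry (g β) x) ∧ ∀ T' : ℕ, ∃ T, (∃ x ∈ C T, TT (g β) x ≤ T1) ∧
          ∃ x ∈ C T, (T' : ℝ) ≤ TT (g β) x := fun β hβ => by
      rcases PAIR1 hq (hg α) (hg β) (hY α) (hY β) (T1 := T1) hT1
        ((min_le_right _ _).trans (min_le_right _ _)) (le_max_left _ _)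
        ((div_le_iff₀' hp).1 (le_max_right _ _)) (hd α hα.1 β hβ.1) ht.1 ht.2 hC with h | h | h
      exacts [(hcon (fin β α hβ hα.1 h)).elim, (hcon (fin α β hα hβ.1 h)).elim, h]
    refine PH2 hX hq hW hg hY hA2 (𝒞 := range C) ?_ fun β hβ =>
      str_zero hq (hg β) (hY β) (T0 := T1) fun T' => ?_
    · rintro β hβ _ ⟨T, rfl⟩
      exact (h3 β hβ).1 T
    · obtain ⟨T, h1, h2⟩ := (h3 β hβ).2 T'
      exact ⟨C T, mem_range_self T, (hC T).1, (hC T).2.1, (h3 β hβ).1 T, h1, h2,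
        fun _ _ _ => mem_univ _⟩
  · rintro j A F ⟨hns, -, T0, -, hS⟩ ε hε
    obtain ⟨α, hα⟩ := nonempty_of_not_small hns
    refine ⟨α, hα, (str_zero hq (hg α) (hY α) (𝒞 := univ) (T0 := T0) fun T => ?_).big hq (hY α)
      (th_pos j) hε⟩
    obtain ⟨C, h1, h2, h3, h4, h5, h6⟩ := hS α hα T
    exact ⟨C, mem_univ _, h1, h2, fun x hx => (h3 x hx).1, h4, h5, h6⟩
end

theorem main (X : Type) [MetricSpace X] (hX : IsRationalCurve X) :
    ∃ (Y : Type) (_ : MetricSpace Y), IsRealCurve Y ∧ IsWeaklyChainable Y ∧ ¬ MapsOnto X Y := by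
  obtain ⟨q, hq⟩ := exists_q
  obtain ⟨W, hW⟩ := exists_W
  have := hX.1.1
  by_contra! h
  choose g hg hs using fun α => h (YY q (Lb W α)) _ (YY_real hq _) (YY_wc hq _)
  exact PH1 (g := fun α x => (g α x).1) hX hq hW (fun α => (hg α).subtype_val)
    (fun α x => (g α x).2) fun α y hy => (hs α ⟨y, hy⟩).imp fun x hx => congrArg Subtype.val hx

end Pool.Agent.MP_d9472f_gt.Q2

end
end
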